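import Pool.Agent.Lib.MP_7c3106_co.Iface

/-!
MP_7c3106_co, board CELL, row ASMB: Theorem B from the rows WLD, BMI, BPV, GEN, VFI, QCT, ELD.
-/

namespace Pool.Agent.Lib.MP_7c3106_co.Asmb

open Pool.Agent.Lib.MP_7c3106_co

variable {d m : ℕ} {ι : Type}

/-- vertices of the patches are vertices of the arrangement -/
theorem vert_of_pv (T : ι → Patch d m) (R : ℝ) {p : Fin d → ℝ} (h : PV T p) :
    Vert (HH T R) p := by
  intro w hw
  apply h
  intro i hi
  refine ⟨?_, ?_⟩
  · refine hw (Sum.inl i) ?_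
    show (T i).a ⬝ᵥ p - (T i).b = 0
    rw [hi.1, sub_self]
  · intro j hj
    refine hw (Sum.inr (Sum.inl (i, j))) ?_
    show (T i).l j ⬝ᵥ p - (T i).c j = 0
    rw [hj, sub_self]

/-- without patches there are no vertices -/
theorem not_pv [IsEmpty ι] (hd : 2 ≤ d) (T : ι → Patch d m) (p : Fin d → ℝ) : ¬ PV T p := by
  intro h
  have h1 := h (Pi.single ⟨0, by omega⟩ 1) (fun i => isEmptyElim i)
  have h2 := congrFun h1 ⟨0, by omega⟩
  simp at h2

/-- the vertices on the relative boundaries of the patches -/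
theorem exists_Q [Fintype ι] (hQ : QctStatement) (hd : 2 ≤ d) (T : ι → Patch d m) (R : ℝ) :
    ∃ Q : Finset (Fin d → ℝ), (∀ v, Vert (HH T R) v → Bdv T v → v ∈ Q) ∧
      Q.card ≤ Fintype.card ι * m * (Fintype.card (KK d m ι)) ^ (d - 2) := by
  classical
  have hfin : ∀ q : ι × Fin m, {p | Vert (HH T R) p ∧ ev (HH T R) (Sum.inl q.1) p = 0 ∧
      ev (HH T R) (Sum.inr (Sum.inl q)) p = 0}.Finite ∧
      {p | Vert (HH T R) p ∧ ev (HH T R) (Sum.inl q.1) p = 0 ∧
      ev (HH T R) (Sum.inr (Sum.inl q)) p = 0}.ncard ≤ (Fintype.card (KK d m ι)) ^ (d - 2) := by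
    intro q
    exact hQ d (KK d m ι) (HH T R) (Sum.inl q.1) (Sum.inr (Sum.inl q)) hd ((T q.1).nd q.2)
  refine ⟨Finset.univ.biUnion (fun q : ι × Fin m => (hfin q).1.toFinset), ?_, ?_⟩
  · rintro v hv ⟨i, j, hi, hj⟩
    rw [Finset.mem_biUnion]
    refine ⟨(i, j), Finset.mem_univ _, ?_⟩
    rw [Set.Finite.mem_toFinset]
    refine ⟨hv, ?_, ?_⟩
    · show (T i).a ⬝ᵥ v - (T i).b = 0
      rw [hi.1, sub_self]
    · show (T i).l j ⬝ᵥ v - (T i).c j = 0
      rw [hj, sub_self]
  · refine le_trans (Finset.card_biUnion_le_card_mul _ _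
      ((Fintype.card (KK d m ι)) ^ (d - 2)) ?_) ?_
    · intro q _
      rw [← Set.ncard_eq_toFinset_card _ (hfin q).1]
      exact (hfin q).2
    · rw [Finset.card_univ, Fintype.card_prod, Fintype.card_fin]

theorem card_KK [Fintype ι] (hn : 1 ≤ Fintype.card ι) :
    Fintype.card (KK d m ι) ≤ Fintype.card ι * (1 + m + 2 * d) := by
  have h1 : Fintype.card (KK d m ι) = Fintype.card ι + (Fintype.card ι * m + (d + d)) := by
    simp [KK, Fintype.card_sum]
  rw [h1]
  nlinarith [Nat.mul_le_mul hn (le_refl (2 * d))]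

/-- a common ball for all patches -/
theorem exists_R [Finite ι] (T : ι → Patch d m) (hb : ∀ i, Bornology.IsBounded (T i).car) :
    ∃ R : ℝ, 0 < R ∧ ∀ i, (T i).car ⊆ Metric.ball 0 R := by
  have h1 : Bornology.IsBounded (⋃ i, (T i).car) := Bornology.isBounded_iUnion.mpr hb
  obtain ⟨r, hr0, hr⟩ := h1.subset_ball_lt 0 0
  exact ⟨r, hr0, fun i => le_trans (Set.subset_iUnion (fun i => (T i).car) i) hr⟩

theorem card_Iv [Fintype ι] (T : ι → Patch d m) (c : ℕ)
    (hc : ∀ y, {i | y ∈ (T i).car}.ncard ≤ c) (v : Fin d → ℝ) : (Iv T v).card ≤ c := by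
  classical
  refine le_trans (le_of_eq ?_) (hc v)
  rw [← Set.ncard_coe_finset]
  congr 1
  ext i
  simp [Iv]

theorem mainB (hW : WldStatement) (hM : BmiStatement) (hV : BpvStatement) (hG : GenStatement)
    (hF : VfiStatement) (hQ : QctStatement) (hE : EldStatement) : MainBStatement := by
  intro d m c hd
  refine ⟨1 + (2 ^ c + 1) * (m * (1 + m + 2 * d) ^ (d - 2)), ?_⟩
  intro ι _ T hb hc x hx u
  classical
  obtain ⟨R₀, hR₀, hball⟩ := exists_R T hb
  have hR : R₀ < R₀ + 1 := by linarith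
  obtain ⟨W, hH, -, hC, hI, hak, hBd⟩ := hW d m ι T R₀ (R₀ + 1) hR₀ hR hball x hx
  have hvert : ∀ p, BranchMin (cell T x) u p → Vert (HH T (R₀ + 1)) p :=
    fun p hp => vert_of_pv T (R₀ + 1) (hV d m ι T x hx u p hp)
  have hfin : {p | BranchMin (cell T x) u p}.Finite :=
    (hF d (KK d m ι) (HH T (R₀ + 1))).subset (fun p hp => hvert p hp)
  refine ⟨hfin, ?_⟩
  rcases Nat.eq_zero_or_pos (Fintype.card ι) with hn | hn
  · have : IsEmpty ι := Fintype.card_eq_zero_iff.mp hn
    have h1 : {p | BranchMin (cell T x) u p} = ∅ := by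
      ext p
      simp only [Set.mem_ofPred_eq, Set.mem_empty_iff_false, iff_false]
      intro hp
      exact not_pv hd T p (hV d m ι T x hx u p hp)
    rw [h1, Set.ncard_empty]
    exact Nat.zero_le _
  · obtain ⟨Q, hQ1, hQ2⟩ := exists_Q hQ hd T (R₀ + 1)
    set A := hfin.toFinset with hA
    set I := A.filter (fun p => ¬ Bdv T p) with hIdef
    have hI1 : ∀ p ∈ I, ¬ Bdv T p ∧ BranchMin (cell T x) u p := by
      intro p hp
      obtain ⟨h1, h2⟩ := Finset.mem_filter.mp hp
      exact ⟨h2, (Set.Finite.mem_toFinset hfin).mp h1⟩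
    obtain ⟨U, hU, huU, hbirth⟩ := hM d m ι T R₀ (R₀ + 1) hR₀ hR hball x hx W hH hC hI hak hBd
      u I hI1
    obtain ⟨u', hu', hgen⟩ := hG d (KK d m ι) (HH T (R₀ + 1)) U hU ⟨u, huU⟩
    have hcardI : I.card ≤ 1 + ∑ v ∈ Q, 2 ^ (W.I v).card := by
      refine hE d (KK d m ι) ι W u' (by rw [hH]; exact hgen) I Q
        (fun p hp => hbirth u' hu' p hp) ?_
      intro v hv hbv
      rw [hH] at hv
      rw [hBd] at hbv
      exact hQ1 v hv hbv
    have hsum : ∑ v ∈ Q, 2 ^ (W.I v).card ≤ Q.card * 2 ^ c := by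
      rw [← smul_eq_mul]
      refine Finset.sum_le_card_nsmul _ _ _ ?_
      intro v _
      rw [hI]
      exact Nat.pow_le_pow_right (by norm_num) (card_Iv T c hc v)
    have hout : (A.filter (fun p => ¬ ¬ Bdv T p)).card ≤ Q.card := by
      refine Finset.card_le_card ?_
      intro p hp
      obtain ⟨h1, h2⟩ := Finset.mem_filter.mp hp
      exact hQ1 p (hvert p ((Set.Finite.mem_toFinset hfin).mp h1)) (not_not.mp h2)
    have hsplit := Finset.card_filter_add_card_filter_not (s := A) (fun p => ¬ Bdv T p)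
    have hA2 : {p | BranchMin (cell T x) u p}.ncard = A.card :=
      Set.ncard_eq_toFinset_card _ hfin
    rw [hA2, ← hsplit]
    have hQ3 : Q.card ≤ m * (1 + m + 2 * d) ^ (d - 2) * Fintype.card ι ^ (d - 1) := by
      calc Q.card ≤ Fintype.card ι * m * (Fintype.card (KK d m ι)) ^ (d - 2) := hQ2
        _ ≤ Fintype.card ι * m * (Fintype.card ι * (1 + m + 2 * d)) ^ (d - 2) :=
            Nat.mul_le_mul le_rfl (Nat.pow_le_pow_left (card_KK hn) _)
        _ = m * (1 + m + 2 * d) ^ (d - 2) * (Fintype.card ι ^ (d - 2) * Fintype.card ι) := by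
            rw [mul_pow]; ring
        _ = m * (1 + m + 2 * d) ^ (d - 2) * Fintype.card ι ^ (d - 1) := by
            rw [← pow_succ]
            congr 2
            omega
    have hone : 1 ≤ Fintype.card ι ^ (d - 1) := Nat.one_le_pow _ _ hn
    calc I.card + (A.filter (fun p => ¬ ¬ Bdv T p)).card
        ≤ (1 + Q.card * 2 ^ c) + Q.card := by
          refine Nat.add_le_add (le_trans hcardI ?_) hout
          omega
      _ = 1 + (2 ^ c + 1) * Q.card := by ring
      _ ≤ Fintype.card ι ^ (d - 1) + (2 ^ c + 1) *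
          (m * (1 + m + 2 * d) ^ (d - 2) * Fintype.card ι ^ (d - 1)) :=
          Nat.add_le_add hone (Nat.mul_le_mul le_rfl hQ3)
      _ = (1 + (2 ^ c + 1) * (m * (1 + m + 2 * d) ^ (d - 2))) * Fintype.card ι ^ (d - 1) := by
          ring

end Pool.Agent.Lib.MP_7c3106_co.Asmb

namespace Pool.Agent.Lib.MP_7c3106_co

theorem mainB (hW : WldStatement) (hM : BmiStatement) (hV : BpvStatement) (hG : GenStatement)
    (hF : VfiStatement) (hQ : QctStatement) (hE : EldStatement) : MainBStatement :=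
  Asmb.mainB hW hM hV hG hF hQ hE

end Pool.Agent.Lib.MP_7c3106_co
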