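import Pool.Agent.Lib.MP_7c3106_co.Iface2
import Pool.Agent.Lib.MP_7c3106_co.Asmb

/-!
MP_7c3106_co, board CELL, row ASMC: Theorem C (`k` directions, many cells) from the rows WLD, INN,
GEN, VFI, QCT, ELD2, FAC, DIS, NCV, LOP.
-/

namespace Pool.Agent.Lib.MP_7c3106_co.Asmc

open Pool.Agent.Lib.MP_7c3106_co

variable {d m k : ℕ} {ι : Type}

/-- a generic functional in an open simplicial cone -/
theorem exists_gen (hG : GenStatement) {κ : Type} [Finite κ] (H : Arr d κ)
    (f : Fin d → Fin d → ℝ) (hf : LinearIndependent ℝ f) (e : Fin d → Bool) :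
    ∃ u : Fin d → ℝ, Gen H u ∧ ∃ lam : Fin d → ℝ, (∀ s, 0 < lam s) ∧
      u = ∑ s, (lam s * (if e s then 1 else -1)) • f s := by
  classical
  let b : Module.Basis (Fin d) ℝ (Fin d → ℝ) :=
    basisOfLinearIndependentOfCardEqFinrank' f hf (by simp)
  have hb : ∀ s, b s = f s := fun s => by
    simp [b]
  have hcont : ∀ s, Continuous (fun x : Fin d → ℝ => b.repr x s) := by
    intro s
    exact (LinearMap.continuous_of_finiteDimensional
      ((Finsupp.lapply s : (Fin d →₀ ℝ) →ₗ[ℝ] ℝ) ∘ₗ b.repr.toLinearMap))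
  let sgn : Fin d → ℝ := fun s => if e s then 1 else -1
  have hsgn : ∀ s, sgn s * sgn s = 1 := by
    intro s
    simp only [sgn]
    split_ifs <;> norm_num
  let U : Set (Fin d → ℝ) := ⋂ s, {x | 0 < sgn s * b.repr x s}
  have hU : IsOpen U := by
    refine isOpen_iInter_of_finite ?_
    intro s
    exact isOpen_lt continuous_const (continuous_const.mul (hcont s))
  have hUne : U.Nonempty := by
    refine ⟨∑ s, sgn s • b s, ?_⟩
    rw [Set.mem_iInter]
    intro s
    show 0 < sgn s * b.repr (∑ s, sgn s • b s) s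
    rw [b.repr_sum_self, hsgn]
    exact one_pos
  obtain ⟨u, huU, hu⟩ := hG d κ H U hU hUne
  rw [Set.mem_iInter] at huU
  refine ⟨u, hu, fun s => sgn s * b.repr u s, huU, ?_⟩
  have h1 := b.sum_repr u
  rw [← h1]
  refine Finset.sum_congr rfl ?_
  intro s _
  rw [hb s]
  congr 1
  show _ = sgn s * _ * sgn s
  rw [h1]
  calc b.repr u s = (sgn s * sgn s) * b.repr u s := by rw [hsgn, one_mul]
    _ = _ := by ring

/-- the number of the inner vertices of a cell -/
theorem inner_bound (hI : InnStatement) (hE : Eld2Statement) [Fintype ι] (T : ι → Patch d m)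
    (dir : Fin k → Fin d → ℝ) (hdir : ∀ i, ∃ j, ∃ t : ℝ, (T i).a = t • dir j) (R₀ R : ℝ)
    (hR₀ : 0 < R₀) (hR : R₀ < R) (hball : ∀ i, (T i).car ⊆ Metric.ball 0 R₀)
    (x : Fin d → ℝ) (hx : x ∉ ⋃ i, (T i).car)
    (W : Wld d (KK d m ι) ι) (hH : W.H = HH T R) (hC : W.C = cell T x ∩ Metric.ball 0 R)
    (hWI : W.I = Iv T) (hak : W.ak = Sum.inl) (hBd : W.Bd = Bdv T)
    (Q : Finset (Fin d → ℝ)) (hQ : ∀ v, Vert (HH T R) v → Bdv T v → v ∈ Q)
    (u : (Fin d → Fin k) × (Fin d → Bool) → (Fin d → ℝ))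
    (hu : ∀ q, LinearIndependent ℝ (fun s => dir (q.1 s)) → Gen (HH T R) (u q) ∧
      ∃ lam : Fin d → ℝ, (∀ s, 0 < lam s) ∧
        u q = ∑ s, (lam s * (if q.2 s then 1 else -1)) • dir (q.1 s))
    (A : Finset (Fin d → ℝ)) (hA : ∀ p ∈ A, p ∈ closure (cell T x) ∧ PV T p ∧ ¬ Bdv T p) :
    A.card ≤ (k ^ d * 2 ^ d) * (1 + ∑ v ∈ Q, (PatF W v).card) := by
  classical
  let F : (Fin d → Fin k) × (Fin d → Bool) → Finset (Fin d → ℝ) := fun q =>
    if LinearIndependent ℝ (fun s => dir (q.1 s)) then A.filter (fun p => Birth W (u q) p) else ∅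
  have hsub : A ⊆ Finset.univ.biUnion F := by
    intro p hp
    obtain ⟨h1, h2, h3⟩ := hA p hp
    obtain ⟨g, e, hli, hbirth⟩ := hI d m k ι T dir hdir R₀ R hR₀ hR hball x hx W hH hC hWI hak
      hBd p h1 h2 h3
    rw [Finset.mem_biUnion]
    refine ⟨(g, e), Finset.mem_univ _, ?_⟩
    obtain ⟨_, lam, hlam, hul⟩ := hu (g, e) hli
    simp only [F]
    rw [if_pos hli, Finset.mem_filter]
    refine ⟨hp, ?_⟩
    rw [hul]
    exact hbirth lam hlam
  refine le_trans (Finset.card_le_card hsub) ?_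
  refine le_trans (Finset.card_biUnion_le_card_mul _ _ (1 + ∑ v ∈ Q, (PatF W v).card) ?_) ?_
  · intro q _
    simp only [F]
    split_ifs with h
    · refine hE d (KK d m ι) ι W (u q) (by rw [hH]; exact (hu q h).1) _ Q ?_ ?_
      · intro p hp
        exact (Finset.mem_filter.1 hp).2
      · intro v hv hbv
        rw [hH] at hv
        rw [hBd] at hbv
        exact hQ v hv hbv
    · simp
  · refine Nat.mul_le_mul ?_ le_rfl
    rw [Finset.card_univ]
    simp

theorem pat_sub (W : Wld d (KK d m ι) ι) [Fintype ι] (T : ι → Patch d m) (hWI : W.I = Iv T)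
    (v : Fin d → ℝ) : PatF W v ⊆ (Iv T v).powerset := by
  classical
  intro S hS
  unfold PatF at hS
  rw [Finset.mem_filter, hWI] at hS
  exact hS.1

theorem mainC (hW : WldStatement) (hI : InnStatement) (hG : GenStatement) (hF : VfiStatement)
    (hQ : QctStatement) (hE : Eld2Statement) (hFac : FacStatement) (hDis : DisStatement)
    (hNcv : NcvStatement) (hLop : LopStatement) : MainCStatement := by
  intro d m k c hd
  obtain ⟨D, hD⟩ : ∃ D, D = k ^ d * 2 ^ d := ⟨_, rfl⟩
  obtain ⟨E, hEE⟩ : ∃ E, E = m * (1 + m + 2 * d) ^ (d - 2) := ⟨_, rfl⟩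
  refine ⟨3 ^ (c * (m + 1)) * (D + (D + 1) * (E * 2 ^ c)) + E * 2 ^ c, ?_⟩
  intro ι _ T dir hdir hb hc
  classical
  obtain ⟨R₀, hR₀, hball⟩ := Asmb.exists_R T hb
  obtain ⟨R, hR⟩ : ∃ R, R₀ < R := ⟨R₀ + 1, by linarith⟩
  obtain ⟨Q, hQ1, hQ2⟩ := Asmb.exists_Q hQ hd T R
  have hQ3 : Q.card ≤ E * Fintype.card ι ^ (d - 1) := by
    rcases Nat.eq_zero_or_pos (Fintype.card ι) with hn | hn
    · rw [hn, zero_mul, zero_mul] at hQ2
      exact le_trans hQ2 (Nat.zero_le _)
    · calc Q.card ≤ Fintype.card ι * m * (Fintype.card (KK d m ι)) ^ (d - 2) := hQ2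
        _ ≤ Fintype.card ι * m * (Fintype.card ι * (1 + m + 2 * d)) ^ (d - 2) :=
            Nat.mul_le_mul le_rfl (Nat.pow_le_pow_left (Asmb.card_KK hn) _)
        _ = m * (1 + m + 2 * d) ^ (d - 2) * (Fintype.card ι ^ (d - 2) * Fintype.card ι) := by
            rw [mul_pow]; ring
        _ = E * Fintype.card ι ^ (d - 1) := by
            rw [← pow_succ, hEE]
            congr 2
            omega
  -- generic functionals
  have hu0 : ∀ q : (Fin d → Fin k) × (Fin d → Bool), ∃ u : Fin d → ℝ,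
      LinearIndependent ℝ (fun s => dir (q.1 s)) → Gen (HH T R) u ∧
      ∃ lam : Fin d → ℝ, (∀ s, 0 < lam s) ∧
        u = ∑ s, (lam s * (if q.2 s then 1 else -1)) • dir (q.1 s) := by
    intro q
    by_cases h : LinearIndependent ℝ (fun s => dir (q.1 s))
    · obtain ⟨u, hu⟩ := exists_gen hG (HH T R) (fun s => dir (q.1 s)) h q.2
      exact ⟨u, fun _ => hu⟩
    · exact ⟨0, fun h' => absurd h' h⟩
  choose u hu using hu0
  -- patterns of the cells
  have hpat0 : ∀ C : Set (Fin d → ℝ), ∃ pat : (Fin d → ℝ) → Finset (Finset ι), C ∈ cells T →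
      ∃ (x : Fin d → ℝ) (W : Wld d (KK d m ι) ι), x ∉ ⋃ i, (T i).car ∧ C = cell T x ∧
        W.H = HH T R ∧ W.O = Metric.ball 0 R ∧ W.C = cell T x ∩ Metric.ball 0 R ∧
        W.I = Iv T ∧ W.ak = Sum.inl ∧ W.Bd = Bdv T ∧ pat = PatF W := by
    intro C
    by_cases hC : C ∈ cells T
    · obtain ⟨x, hx, hCx⟩ := hC
      obtain ⟨W, h1, h2, h3, h4, h5, h6⟩ := hW d m ι T R₀ R hR₀ hR hball x hx
      exact ⟨PatF W, fun _ => ⟨x, W, hx, hCx, h1, h2, h3, h4, h5, h6, rfl⟩⟩
    · exact ⟨fun _ => ∅, fun h => absurd h hC⟩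
  choose pat hpat using hpat0
  have hsubp : ∀ C ∈ cells T, ∀ v, pat C v ⊆ (Iv T v).powerset := by
    intro C hC v
    obtain ⟨x, W, -, -, -, -, -, h4, -, -, h7⟩ := hpat C hC
    rw [h7]
    exact pat_sub W T h4 v
  have hdisj : ∀ C ∈ cells T, ∀ C' ∈ cells T, ∀ v S, S ∈ pat C v → S ∈ pat C' v → C = C' := by
    intro C hC C' hC' v S hS hS'
    obtain ⟨x, W, hx, hCx, h1, h2, h3, h4, h5, h6, h7⟩ := hpat C hC
    obtain ⟨x', W', hx', hCx', h1', h2', h3', h4', h5', h6', h7'⟩ := hpat C' hC'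
    rw [h7] at hS
    rw [h7'] at hS'
    rw [hCx, hCx']
    exact hDis d m ι T R₀ R hR₀ hR hball x x' hx hx' W W' h1 h2 h3 h4 h5 h1' h2' h3' h4' h5'
      v S hS hS'
  have hpow : ∀ v, ((Iv T v).powerset).card ≤ 2 ^ c := by
    intro v
    rw [Finset.card_powerset]
    exact Nat.pow_le_pow_right (by norm_num) (Asmb.card_Iv T c hc v)
  -- one cell
  have hone : ∀ C ∈ cells T, (bdFaces T C).Finite ∧ (bdFaces T C).ncard ≤
      3 ^ (c * (m + 1)) * (D + (D + 1) * ∑ v ∈ Q, (pat C v).card) := by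
    intro C hC
    obtain ⟨x, W, hx, hCx, h1, h2, h3, h4, h5, h6, h7⟩ := hpat C hC
    rw [h7, hCx]
    have hVfin : {p | Vert (HH T R) p}.Finite := hF d (KK d m ι) (HH T R)
    set S := hVfin.toFinset.filter (fun p => p ∈ closure (cell T x) ∧ PV T p) with hS
    have hS1 : ∀ p ∈ closure (cell T x), PV T p → p ∈ S := by
      intro p hp hpv
      rw [hS, Finset.mem_filter, Set.Finite.mem_toFinset]
      exact ⟨Asmb.vert_of_pv T R hpv, hp, hpv⟩
    obtain ⟨hfin, hcard⟩ := hFac d m c ι T hb hc x hx S hS1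
    refine ⟨hfin, le_trans hcard (Nat.mul_le_mul le_rfl ?_)⟩
    have hsplit := Finset.card_filter_add_card_filter_not (s := S) (fun p => ¬ Bdv T p)
    have hin : (S.filter (fun p => ¬ Bdv T p)).card ≤
        (k ^ d * 2 ^ d) * (1 + ∑ v ∈ Q, (PatF W v).card) := by
      refine inner_bound hI hE T dir hdir R₀ R hR₀ hR hball x hx W h1 h3 h4 h5 h6 Q hQ1 u hu _ ?_
      intro p hp
      rw [Finset.mem_filter, hS, Finset.mem_filter] at hp
      exact ⟨hp.1.2.1, hp.1.2.2, hp.2⟩
    have hout : (S.filter (fun p => ¬ ¬ Bdv T p)).card ≤ ∑ v ∈ Q, (PatF W v).card := by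
      rw [Finset.card_eq_sum_ones]
      have hsubQ : S.filter (fun p => ¬ ¬ Bdv T p) ⊆ Q := by
        intro p hp
        rw [Finset.mem_filter, hS, Finset.mem_filter] at hp
        exact hQ1 p (Asmb.vert_of_pv T R hp.1.2.2) (not_not.1 hp.2)
      refine le_trans (Finset.sum_le_sum (g := fun v => (PatF W v).card) ?_)
        (Finset.sum_le_sum_of_subset hsubQ)
      intro p hp
      rw [Finset.mem_filter, hS, Finset.mem_filter] at hp
      obtain ⟨i, j, hi, hj⟩ := not_not.1 hp.2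
      have hpR : p ∈ Metric.ball (0 : Fin d → ℝ) R :=
        Metric.ball_subset_ball hR.le (hball i hi)
      exact Finset.card_pos.2 (hLop d m ι T R₀ R hR₀ hR hball x hx W h1 h2 h3 h4 h5 p
        hp.1.2.1 hpR)
    rw [← hsplit, hD]
    calc _ ≤ (k ^ d * 2 ^ d) * (1 + ∑ v ∈ Q, (PatF W v).card) + ∑ v ∈ Q, (PatF W v).card :=
          Nat.add_le_add hin hout
      _ = _ := by ring
  -- the sum over the cells
  have hsum : ∀ M : Finset (Set (Fin d → ℝ)), (∀ C ∈ M, C ∈ cells T) →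
      ∑ C ∈ M, ∑ v ∈ Q, (pat C v).card ≤ Q.card * 2 ^ c := by
    intro M hM
    rw [Finset.sum_comm, ← smul_eq_mul]
    refine Finset.sum_le_card_nsmul _ _ _ ?_
    intro v _
    rw [← Finset.card_biUnion]
    · refine le_trans (Finset.card_le_card ?_) (hpow v)
      intro S hS
      rw [Finset.mem_biUnion] at hS
      obtain ⟨C, hC, hS⟩ := hS
      exact hsubp C (hM C hC) v hS
    · intro C hC C' hC' hne
      show Disjoint (pat C v) (pat C' v)
      rw [Finset.disjoint_left]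
      intro S hS hS'
      exact hne (hdisj C (hM C hC) C' (hM C' hC') v S hS hS')
  obtain ⟨n1, hn1⟩ : ∃ n1, n1 = Fintype.card ι ^ (d - 1) := ⟨_, rfl⟩
  rw [← hn1] at hQ3
  rw [← hn1]
  refine ⟨?_, ?_⟩
  · intro M hM hMfin
    have hinc : inc T M = ⋃ C ∈ hMfin.toFinset, (Prod.mk C) '' bdFaces T C := by
      ext q
      simp only [inc, Set.mem_ofPred_eq, Set.mem_iUnion, Set.mem_image, Set.Finite.mem_toFinset]
      constructor
      · rintro ⟨h1, h2⟩
        exact ⟨q.1, h1, q.2, h2, rfl⟩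
      · rintro ⟨C, hC, f, hf, rfl⟩
        exact ⟨hC, hf⟩
    have hMc : ∀ C ∈ hMfin.toFinset, C ∈ cells T := fun C hC =>
      hM ((Set.Finite.mem_toFinset hMfin).1 hC)
    refine ⟨?_, ?_⟩
    · rw [hinc]
      refine Set.Finite.biUnion (Finset.finite_toSet _) ?_
      intro C hC
      exact (hone C (hMc C hC)).1.image _
    · rw [hinc]
      have hMn : M.ncard = hMfin.toFinset.card := Set.ncard_eq_toFinset_card _ hMfin
      rw [hMn]
      refine le_trans (Finset.set_ncard_biUnion_le _ _) ?_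
      calc ∑ C ∈ hMfin.toFinset, (Prod.mk C '' bdFaces T C).ncard
          ≤ ∑ C ∈ hMfin.toFinset,
              3 ^ (c * (m + 1)) * (D + (D + 1) * ∑ v ∈ Q, (pat C v).card) := by
            refine Finset.sum_le_sum ?_
            intro C hC
            refine le_trans (Set.ncard_image_le (hone C (hMc C hC)).1) ?_
            exact (hone C (hMc C hC)).2
        _ = 3 ^ (c * (m + 1)) * (D * hMfin.toFinset.card + (D + 1) *
              ∑ C ∈ hMfin.toFinset, ∑ v ∈ Q, (pat C v).card) := by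
            rw [← Finset.mul_sum, Finset.sum_add_distrib, ← Finset.mul_sum, Finset.sum_const,
              smul_eq_mul]
            ring
        _ ≤ 3 ^ (c * (m + 1)) * (D * hMfin.toFinset.card + (D + 1) * ((E * n1) * 2 ^ c)) := by
            refine Nat.mul_le_mul le_rfl (Nat.add_le_add le_rfl (Nat.mul_le_mul le_rfl ?_))
            exact le_trans (hsum _ hMc) (Nat.mul_le_mul hQ3 le_rfl)
        _ ≤ _ := by
            have e1 : D * hMfin.toFinset.card + (D + 1) * ((E * n1) * 2 ^ c) ≤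
                (D + (D + 1) * (E * 2 ^ c)) * (hMfin.toFinset.card + n1) := by
              have e2 : (D + (D + 1) * (E * 2 ^ c)) * (hMfin.toFinset.card + n1) =
                  (D * hMfin.toFinset.card + (D + 1) * ((E * n1) * 2 ^ c)) +
                  (D * n1 + (D + 1) * (E * 2 ^ c) * hMfin.toFinset.card) := by ring
              rw [e2]
              exact Nat.le_add_right _ _
            refine le_trans (Nat.mul_le_mul le_rfl e1) ?_
            rw [← mul_assoc]
            exact Nat.mul_le_mul (Nat.le_add_right _ _) le_rfl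
  · -- the non-convex cells
    have hnc : ∀ C ∈ {C ∈ cells T | ¬ Convex ℝ C}, ∃ q : (Fin d → ℝ) × Finset ι,
        q.1 ∈ Q ∧ q.2 ∈ pat C q.1 := by
      rintro C ⟨hC, hcv⟩
      obtain ⟨x, W, hx, hCx, h1, h2, h3, h4, h5, h6, h7⟩ := hpat C hC
      rw [hCx] at hcv
      obtain ⟨v, hv, hbv, S, hS⟩ := hNcv d m ι T R₀ R hR₀ hR hball x hx hcv W h1 h2 h3 h4 h5
      refine ⟨(v, S), hQ1 v hv hbv, ?_⟩
      rw [h7]
      exact hS
    choose! g hg using hnc
    set G : Finset ((_ : Fin d → ℝ) × Finset ι) := Q.sigma (fun v => (Iv T v).powerset) with hGdef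
    have hGcard : G.card ≤ E * 2 ^ c * n1 := by
      rw [hGdef, Finset.card_sigma]
      refine le_trans (Finset.sum_le_card_nsmul _ _ (2 ^ c) (fun v _ => hpow v)) ?_
      rw [smul_eq_mul]
      calc Q.card * 2 ^ c ≤ (E * n1) * 2 ^ c := Nat.mul_le_mul hQ3 le_rfl
        _ = _ := by ring
    let g' : Set (Fin d → ℝ) → ((_ : Fin d → ℝ) × Finset ι) := fun C => ⟨(g C).1, (g C).2⟩
    have hmaps : Set.MapsTo g' {C ∈ cells T | ¬ Convex ℝ C} (G : Set _) := by
      intro C hC
      rw [Finset.mem_coe, hGdef, Finset.mem_sigma]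
      exact ⟨(hg C hC).1, hsubp C hC.1 _ (hg C hC).2⟩
    have hinj : Set.InjOn g' {C ∈ cells T | ¬ Convex ℝ C} := by
      intro C hC C' hC' h
      have h1 : (g C).1 = (g C').1 := by
        have := congrArg Sigma.fst h
        exact this
      have h2 : (g C).2 = (g C').2 := by
        have := eq_of_heq (Sigma.mk.inj h).2
        exact this
      refine hdisj C hC.1 C' hC'.1 (g C).1 (g C).2 (hg C hC).2 ?_
      rw [h1, h2]
      exact (hg C' hC').2
    have hfin : {C ∈ cells T | ¬ Convex ℝ C}.Finite :=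
      Set.Finite.of_injOn hmaps hinj (Finset.finite_toSet G)
    refine ⟨hfin, ?_⟩
    have h1 : {C ∈ cells T | ¬ Convex ℝ C}.ncard ≤ (G : Set _).ncard :=
      Set.ncard_le_ncard_of_injOn g' (fun C hC => hmaps hC) hinj (Finset.finite_toSet G)
    rw [Set.ncard_coe_finset] at h1
    refine le_trans h1 (le_trans hGcard ?_)
    rw [add_mul]
    exact Nat.le_add_left _ _

end Pool.Agent.Lib.MP_7c3106_co.Asmc

namespace Pool.Agent.Lib.MP_7c3106_co

theorem mainC (hW : WldStatement) (hI : InnStatement) (hG : GenStatement) (hF : VfiStatement)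
    (hQ : QctStatement) (hE : Eld2Statement) (hFac : FacStatement) (hDis : DisStatement)
    (hNcv : NcvStatement) (hLop : LopStatement) : MainCStatement :=
  Asmc.mainC hW hI hG hF hQ hE hFac hDis hNcv hLop

end Pool.Agent.Lib.MP_7c3106_co
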