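import Pool.Agent.Lib.MP_7c3106_co.Iface2
import Pool.Agent.Lib.MP_7c3106_co.Asmc

/-!
MP_7c3106_co, board CELL, row ASMD: Theorem D (arbitrary hyperplanes, many cells) from the rows
WLD, BMI, BPV, GEN, VFI, QCT, ELD2, DIS, NCV, LOP.
-/

namespace Pool.Agent.Lib.MP_7c3106_co.Asmd

open Pool.Agent.Lib.MP_7c3106_co

variable {d m : ℕ} {ι : Type}

/-- strict local minima on the branches of one cell -/
theorem one_cell (hM : BmiStatement) (hV : BpvStatement) (hG : GenStatement)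
    (hF : VfiStatement) (hE : Eld2Statement) (hLop : LopStatement) [Fintype ι]
    (T : ι → Patch d m) (R₀ R : ℝ) (hR₀ : 0 < R₀) (hR : R₀ < R)
    (hball : ∀ i, (T i).car ⊆ Metric.ball 0 R₀) (x : Fin d → ℝ) (hx : x ∉ ⋃ i, (T i).car)
    (W : Wld d (KK d m ι) ι) (hH : W.H = HH T R) (hO : W.O = Metric.ball 0 R)
    (hC : W.C = cell T x ∩ Metric.ball 0 R)
    (hWI : W.I = Iv T) (hak : W.ak = Sum.inl) (hBd : W.Bd = Bdv T)
    (Q : Finset (Fin d → ℝ)) (hQ : ∀ v, Vert (HH T R) v → Bdv T v → v ∈ Q)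
    (u : Fin d → ℝ) :
    {p | BranchMin (cell T x) u p}.Finite ∧
      {p | BranchMin (cell T x) u p}.ncard ≤ 1 + 2 * ∑ v ∈ Q, (PatF W v).card := by
  classical
  have hvert : ∀ p, BranchMin (cell T x) u p → Vert (HH T R) p :=
    fun p hp => Asmb.vert_of_pv T R (hV d m ι T x hx u p hp)
  have hfin : {p | BranchMin (cell T x) u p}.Finite :=
    (hF d (KK d m ι) (HH T R)).subset (fun p hp => hvert p hp)
  refine ⟨hfin, ?_⟩
  set A := hfin.toFinset with hA
  set I := A.filter (fun p => ¬ Bdv T p) with hIdef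
  have hI1 : ∀ p ∈ I, ¬ Bdv T p ∧ BranchMin (cell T x) u p := by
    intro p hp
    obtain ⟨h1, h2⟩ := Finset.mem_filter.mp hp
    exact ⟨h2, (Set.Finite.mem_toFinset hfin).mp h1⟩
  obtain ⟨U, hU, huU, hbirth⟩ := hM d m ι T R₀ R hR₀ hR hball x hx W hH hC hWI hak hBd
    u I hI1
  obtain ⟨u', hu', hgen⟩ := hG d (KK d m ι) (HH T R) U hU ⟨u, huU⟩
  have hcardI : I.card ≤ 1 + ∑ v ∈ Q, (PatF W v).card := by
    refine hE d (KK d m ι) ι W u' (by rw [hH]; exact hgen) I Q
      (fun p hp => hbirth u' hu' p hp) ?_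
    intro v hv hbv
    rw [hH] at hv
    rw [hBd] at hbv
    exact hQ v hv hbv
  have hout : (A.filter (fun p => ¬ ¬ Bdv T p)).card ≤ ∑ v ∈ Q, (PatF W v).card := by
    rw [Finset.card_eq_sum_ones]
    have hsubQ : A.filter (fun p => ¬ ¬ Bdv T p) ⊆ Q := by
      intro p hp
      obtain ⟨h1, h2⟩ := Finset.mem_filter.mp hp
      exact hQ p (hvert p ((Set.Finite.mem_toFinset hfin).mp h1)) (not_not.mp h2)
    refine le_trans (Finset.sum_le_sum (g := fun v => (PatF W v).card) ?_)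
      (Finset.sum_le_sum_of_subset hsubQ)
    intro p hp
    obtain ⟨h1, h2⟩ := Finset.mem_filter.mp hp
    obtain ⟨i, j, hi, hj⟩ := not_not.1 h2
    have hpR : p ∈ Metric.ball (0 : Fin d → ℝ) R :=
      Metric.ball_subset_ball hR.le (hball i hi)
    obtain ⟨r, hr, y, hy, hpc, -⟩ := (Set.Finite.mem_toFinset hfin).mp h1
    have hcl : p ∈ closure (cell T x) := by
      refine closure_mono ?_ hpc
      exact (connectedComponentIn_subset _ _).trans Set.inter_subset_left
    exact Finset.card_pos.2 (hLop d m ι T R₀ R hR₀ hR hball x hx W hH hO hC hWI hak p hcl hpR)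
  have hsplit := Finset.card_filter_add_card_filter_not (s := A) (fun p => ¬ Bdv T p)
  have hA2 : {p | BranchMin (cell T x) u p}.ncard = A.card :=
    Set.ncard_eq_toFinset_card _ hfin
  rw [hA2, ← hsplit]
  calc I.card + (A.filter (fun p => ¬ ¬ Bdv T p)).card
      ≤ (1 + ∑ v ∈ Q, (PatF W v).card) + ∑ v ∈ Q, (PatF W v).card :=
        Nat.add_le_add hcardI hout
    _ = _ := by ring

theorem mainD (hW : WldStatement) (hM : BmiStatement) (hV : BpvStatement) (hG : GenStatement)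
    (hF : VfiStatement) (hQ : QctStatement) (hE : Eld2Statement) (hDis : DisStatement)
    (hNcv : NcvStatement) (hLop : LopStatement) : MainDStatement := by
  intro d m c hd
  obtain ⟨E, hEE⟩ : ∃ E, E = m * (1 + m + 2 * d) ^ (d - 2) := ⟨_, rfl⟩
  refine ⟨1 + 2 * (E * 2 ^ c), ?_⟩
  intro ι _ T hb hc
  classical
  obtain ⟨R₀, hR₀, hball⟩ := Asmb.exists_R T hb
  obtain ⟨R, hR⟩ : ∃ R, R₀ < R := ⟨R₀ + 1, by linarith⟩
  obtain ⟨Q, hQ1, hQ2⟩ := Asmb.exists_Q hQ hd T R
  have hQ3 : Q.card ≤ E * Fintype.card ι ^ (d - 1) := by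
    rcases Nat.eq_zero_or_pos (Fintype.card ι) with hn | hn
    · rw [hn, zero_mul, zero_mul] at hQ2
      exact le_trans hQ2 (Nat.zero_le _)
    · calc Q.card ≤ Fintype.card ι * m * (Fintype.card (KK d m ι)) ^ (d - 2) := hQ2
        _ ≤ Fintype.card ι * m * (Fintype.card ι * (1 + m + 2 * d)) ^ (d - 2) :=
            Nat.mul_le_mul le_rfl (Nat.pow_le_pow_left (Asmb.card_KK hn) _)
        _ = m * (1 + m + 2 * d) ^ (d - 2) * (Fintype.card ι ^ (d - 2) * Fintype.card ι) := by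
            rw [mul_pow]; ring
        _ = E * Fintype.card ι ^ (d - 1) := by
            rw [← pow_succ, hEE]
            congr 2
            omega
  -- patterns of the cells
  have hpat0 : ∀ C : Set (Fin d → ℝ), ∃ pat : (Fin d → ℝ) → Finset (Finset ι), C ∈ cells T →
      ∃ (x : Fin d → ℝ) (W : Wld d (KK d m ι) ι), x ∉ ⋃ i, (T i).car ∧ C = cell T x ∧
        W.H = HH T R ∧ W.O = Metric.ball 0 R ∧ W.C = cell T x ∩ Metric.ball 0 R ∧
        W.I = Iv T ∧ W.ak = Sum.inl ∧ W.Bd = Bdv T ∧ pat = PatF W := by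
    intro C
    by_cases hC : C ∈ cells T
    · obtain ⟨x, hx, hCx⟩ := hC
      obtain ⟨W, h1, h2, h3, h4, h5, h6⟩ := hW d m ι T R₀ R hR₀ hR hball x hx
      exact ⟨PatF W, fun _ => ⟨x, W, hx, hCx, h1, h2, h3, h4, h5, h6, rfl⟩⟩
    · exact ⟨fun _ => ∅, fun h => absurd h hC⟩
  choose pat hpat using hpat0
  have hsubp : ∀ C ∈ cells T, ∀ v, pat C v ⊆ (Iv T v).powerset := by
    intro C hC v
    obtain ⟨x, W, -, -, -, -, -, h4, -, -, h7⟩ := hpat C hC
    rw [h7]
    exact Asmc.pat_sub W T h4 v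
  have hdisj : ∀ C ∈ cells T, ∀ C' ∈ cells T, ∀ v S, S ∈ pat C v → S ∈ pat C' v → C = C' := by
    intro C hC C' hC' v S hS hS'
    obtain ⟨x, W, hx, hCx, h1, h2, h3, h4, h5, h6, h7⟩ := hpat C hC
    obtain ⟨x', W', hx', hCx', h1', h2', h3', h4', h5', h6', h7'⟩ := hpat C' hC'
    rw [h7] at hS
    rw [h7'] at hS'
    rw [hCx, hCx']
    exact hDis d m ι T R₀ R hR₀ hR hball x x' hx hx' W W' h1 h2 h3 h4 h5 h1' h2' h3' h4' h5'
      v S hS hS'
  have hpow : ∀ v, ((Iv T v).powerset).card ≤ 2 ^ c := by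
    intro v
    rw [Finset.card_powerset]
    exact Nat.pow_le_pow_right (by norm_num) (Asmb.card_Iv T c hc v)
  -- one cell
  have hone : ∀ C ∈ cells T, ∀ u : Fin d → ℝ, {p | BranchMin C u p}.Finite ∧
      {p | BranchMin C u p}.ncard ≤ 1 + 2 * ∑ v ∈ Q, (pat C v).card := by
    intro C hC u
    obtain ⟨x, W, hx, hCx, h1, h2, h3, h4, h5, h6, h7⟩ := hpat C hC
    rw [h7, hCx]
    exact one_cell hM hV hG hF hE hLop T R₀ R hR₀ hR hball x hx W h1 h2 h3 h4 h5 h6 Q hQ1 u
  -- the sum over the cells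
  have hsum : ∀ M : Finset (Set (Fin d → ℝ)), (∀ C ∈ M, C ∈ cells T) →
      ∑ C ∈ M, ∑ v ∈ Q, (pat C v).card ≤ Q.card * 2 ^ c := by
    intro M hM
    rw [Finset.sum_comm, ← smul_eq_mul]
    refine Finset.sum_le_card_nsmul _ _ _ ?_
    intro v _
    rw [← Finset.card_biUnion]
    · refine le_trans (Finset.card_le_card ?_) (hpow v)
      intro S hS
      rw [Finset.mem_biUnion] at hS
      obtain ⟨C, hC, hS⟩ := hS
      exact hsubp C (hM C hC) v hS
    · intro C hC C' hC' hne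
      show Disjoint (pat C v) (pat C' v)
      rw [Finset.disjoint_left]
      intro S hS hS'
      exact hne (hdisj C (hM C hC) C' (hM C' hC') v S hS hS')
  obtain ⟨n1, hn1⟩ : ∃ n1, n1 = Fintype.card ι ^ (d - 1) := ⟨_, rfl⟩
  rw [← hn1] at hQ3
  rw [← hn1]
  refine ⟨?_, ?_⟩
  · intro M hM hMfin u
    have hinc : {q : Set (Fin d → ℝ) × (Fin d → ℝ) | q.1 ∈ M ∧ BranchMin q.1 u q.2} =
        ⋃ C ∈ hMfin.toFinset, (Prod.mk C) '' {p | BranchMin C u p} := by
      ext q
      simp only [Set.mem_ofPred_eq, Set.mem_iUnion, Set.mem_image, Set.Finite.mem_toFinset]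
      constructor
      · rintro ⟨h1, h2⟩
        exact ⟨q.1, h1, q.2, h2, rfl⟩
      · rintro ⟨C, hC, f, hf, rfl⟩
        exact ⟨hC, hf⟩
    have hMc : ∀ C ∈ hMfin.toFinset, C ∈ cells T := fun C hC =>
      hM ((Set.Finite.mem_toFinset hMfin).1 hC)
    refine ⟨?_, ?_⟩
    · rw [hinc]
      refine Set.Finite.biUnion (Finset.finite_toSet _) ?_
      intro C hC
      exact (hone C (hMc C hC) u).1.image _
    · rw [hinc]
      have hMn : M.ncard = hMfin.toFinset.card := Set.ncard_eq_toFinset_card _ hMfin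
      rw [hMn]
      refine le_trans (Finset.set_ncard_biUnion_le _ _) ?_
      calc ∑ C ∈ hMfin.toFinset, (Prod.mk C '' {p | BranchMin C u p}).ncard
          ≤ ∑ C ∈ hMfin.toFinset, (1 + 2 * ∑ v ∈ Q, (pat C v).card) := by
            refine Finset.sum_le_sum ?_
            intro C hC
            refine le_trans (Set.ncard_image_le (hone C (hMc C hC) u).1) ?_
            exact (hone C (hMc C hC) u).2
        _ = hMfin.toFinset.card + 2 * ∑ C ∈ hMfin.toFinset, ∑ v ∈ Q, (pat C v).card := by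
            rw [Finset.sum_add_distrib, ← Finset.mul_sum, Finset.sum_const, smul_eq_mul, mul_one]
        _ ≤ hMfin.toFinset.card + 2 * ((E * n1) * 2 ^ c) := by
            refine Nat.add_le_add le_rfl (Nat.mul_le_mul le_rfl ?_)
            exact le_trans (hsum _ hMc) (Nat.mul_le_mul hQ3 le_rfl)
        _ ≤ (1 + 2 * (E * 2 ^ c)) * (hMfin.toFinset.card + n1) := by
            have e2 : (1 + 2 * (E * 2 ^ c)) * (hMfin.toFinset.card + n1) =
                (hMfin.toFinset.card + 2 * ((E * n1) * 2 ^ c)) +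
                (n1 + 2 * (E * 2 ^ c) * hMfin.toFinset.card) := by ring
            rw [e2]
            exact Nat.le_add_right _ _
  · -- the non-convex cells
    have hnc : ∀ C ∈ {C ∈ cells T | ¬ Convex ℝ C}, ∃ q : (Fin d → ℝ) × Finset ι,
        q.1 ∈ Q ∧ q.2 ∈ pat C q.1 := by
      rintro C ⟨hC, hcv⟩
      obtain ⟨x, W, hx, hCx, h1, h2, h3, h4, h5, h6, h7⟩ := hpat C hC
      rw [hCx] at hcv
      obtain ⟨v, hv, hbv, S, hS⟩ := hNcv d m ι T R₀ R hR₀ hR hball x hx hcv W h1 h2 h3 h4 h5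
      refine ⟨(v, S), hQ1 v hv hbv, ?_⟩
      rw [h7]
      exact hS
    choose! g hg using hnc
    set G : Finset ((_ : Fin d → ℝ) × Finset ι) := Q.sigma (fun v => (Iv T v).powerset) with hGdef
    have hGcard : G.card ≤ E * 2 ^ c * n1 := by
      rw [hGdef, Finset.card_sigma]
      refine le_trans (Finset.sum_le_card_nsmul _ _ (2 ^ c) (fun v _ => hpow v)) ?_
      rw [smul_eq_mul]
      calc Q.card * 2 ^ c ≤ (E * n1) * 2 ^ c := Nat.mul_le_mul hQ3 le_rfl
        _ = _ := by ring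
    let g' : Set (Fin d → ℝ) → ((_ : Fin d → ℝ) × Finset ι) := fun C => ⟨(g C).1, (g C).2⟩
    have hmaps : Set.MapsTo g' {C ∈ cells T | ¬ Convex ℝ C} (G : Set _) := by
      intro C hC
      rw [Finset.mem_coe, hGdef, Finset.mem_sigma]
      exact ⟨(hg C hC).1, hsubp C hC.1 _ (hg C hC).2⟩
    have hinj : Set.InjOn g' {C ∈ cells T | ¬ Convex ℝ C} := by
      intro C hC C' hC' h
      have h1 : (g C).1 = (g C').1 := by
        have := congrArg Sigma.fst h
        exact this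
      have h2 : (g C).2 = (g C').2 := by
        have := eq_of_heq (Sigma.mk.inj h).2
        exact this
      refine hdisj C hC.1 C' hC'.1 (g C).1 (g C).2 (hg C hC).2 ?_
      rw [h1, h2]
      exact (hg C' hC').2
    have hfin : {C ∈ cells T | ¬ Convex ℝ C}.Finite :=
      Set.Finite.of_injOn hmaps hinj (Finset.finite_toSet G)
    refine ⟨hfin, ?_⟩
    have h1 : {C ∈ cells T | ¬ Convex ℝ C}.ncard ≤ (G : Set _).ncard :=
      Set.ncard_le_ncard_of_injOn g' (fun C hC => hmaps hC) hinj (Finset.finite_toSet G)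
    rw [Set.ncard_coe_finset] at h1
    refine le_trans h1 (le_trans hGcard ?_)
    refine Nat.mul_le_mul ?_ le_rfl
    have : 0 ≤ E * 2 ^ c := Nat.zero_le _
    linarith

end Pool.Agent.Lib.MP_7c3106_co.Asmd

namespace Pool.Agent.Lib.MP_7c3106_co

theorem mainD (hW : WldStatement) (hM : BmiStatement) (hV : BpvStatement) (hG : GenStatement)
    (hF : VfiStatement) (hQ : QctStatement) (hE : Eld2Statement) (hDis : DisStatement)
    (hNcv : NcvStatement) (hLop : LopStatement) : MainDStatement :=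
  Asmd.mainD hW hM hV hG hF hQ hE hDis hNcv hLop

end Pool.Agent.Lib.MP_7c3106_co
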