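import Pool.Agent.Lib.MP_7c3106_co.Iface4
import Pool.Agent.Lib.MP_7c3106_co.Asmc

/-!
MP_7c3106_co, board CELL, row ASMF: Theorem F (arbitrary patches, many cells, flat corners) from
the rows WLD, GOO, GEN, VFI, QCT, ELD2, FAC, DIS, NCV, LOP.
-/

namespace Pool.Agent.Lib.MP_7c3106_co.Asmf2

open Pool.Agent.Lib.MP_7c3106_co

variable {d m k : ℕ} {ι : Type}

/-- the number of the births of `N` generic functionals -/
theorem birth_bound (hE : Eld2Statement) [Fintype ι] (T : ι → Patch d m) (R : ℝ)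
    (W : Wld d (KK d m ι) ι) (hH : W.H = HH T R) (hBd : W.Bd = Bdv T)
    (Q : Finset (Fin d → ℝ)) (hQ : ∀ v, Vert (HH T R) v → Bdv T v → v ∈ Q)
    (N : ℕ) (u : Fin N → (Fin d → ℝ)) (hu : ∀ j, Gen (HH T R) (u j))
    (A : Finset (Fin d → ℝ)) (hA : ∀ p ∈ A, ∃ j, Birth W (u j) p) :
    A.card ≤ N * (1 + ∑ v ∈ Q, (PatF W v).card) := by
  classical
  have hsub : A ⊆ Finset.univ.biUnion (fun j => A.filter (fun p => Birth W (u j) p)) := by
    intro p hp
    obtain ⟨j, hj⟩ := hA p hp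
    rw [Finset.mem_biUnion]
    exact ⟨j, Finset.mem_univ _, Finset.mem_filter.2 ⟨hp, hj⟩⟩
  refine le_trans (Finset.card_le_card hsub) ?_
  refine le_trans (Finset.card_biUnion_le_card_mul _ _ (1 + ∑ v ∈ Q, (PatF W v).card) ?_) ?_
  · intro j _
    refine hE d (KK d m ι) ι W (u j) (by rw [hH]; exact hu j) _ Q ?_ ?_
    · intro p hp
      exact (Finset.mem_filter.1 hp).2
    · intro v hv hbv
      rw [hH] at hv
      rw [hBd] at hbv
      exact hQ v hv hbv
  · rw [Finset.card_univ, Fintype.card_fin]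

theorem mainF2 (hW : WldStatement) (hGoo : Goo2Statement) (hG : GenStatement) (hF : VfiStatement)
    (hQ : QctStatement) (hE : Eld2Statement) (hFac : FacStatement) (hDis : DisStatement)
    (hNcv : NcvStatement) (hLop : LopStatement) : MainF2Statement := by
  intro d m k c hd ε hε
  obtain ⟨N, hN⟩ := hGoo d m k ε (by omega) hε
  obtain ⟨E, hEE⟩ : ∃ E, E = m * (1 + m + 2 * d) ^ (d - 2) := ⟨_, rfl⟩
  refine ⟨3 ^ (c * (m + 1)) * (N + 1 + (N + 1) * (E * 2 ^ c)) + E * 2 ^ c, ?_⟩
  intro ι _ T dir hb hc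
  classical
  obtain ⟨U, hU, hbirth⟩ := hN dir
  obtain ⟨R₀, hR₀, hball⟩ := Asmb.exists_R T hb
  obtain ⟨R, hR⟩ : ∃ R, R₀ < R := ⟨R₀ + 1, by linarith⟩
  obtain ⟨Q, hQ1, hQ2⟩ := Asmb.exists_Q hQ hd T R
  have hQ3 : Q.card ≤ E * Fintype.card ι ^ (d - 1) := by
    rcases Nat.eq_zero_or_pos (Fintype.card ι) with hn | hn
    · rw [hn, zero_mul, zero_mul] at hQ2
      exact le_trans hQ2 (Nat.zero_le _)
    · calc Q.card ≤ Fintype.card ι * m * (Fintype.card (KK d m ι)) ^ (d - 2) := hQ2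
        _ ≤ Fintype.card ι * m * (Fintype.card ι * (1 + m + 2 * d)) ^ (d - 2) :=
            Nat.mul_le_mul le_rfl (Nat.pow_le_pow_left (Asmb.card_KK hn) _)
        _ = m * (1 + m + 2 * d) ^ (d - 2) * (Fintype.card ι ^ (d - 2) * Fintype.card ι) := by
            rw [mul_pow]; ring
        _ = E * Fintype.card ι ^ (d - 1) := by
            rw [← pow_succ, hEE]
            congr 2
            omega
  -- generic functionals
  have hu0 : ∀ j : Fin N, ∃ u ∈ U j, Gen (HH T R) u := fun j =>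
    hG d (KK d m ι) (HH T R) (U j) (hU j).1 (hU j).2
  choose u huU hu using hu0
  -- patterns of the cells
  have hpat0 : ∀ C : Set (Fin d → ℝ), ∃ pat : (Fin d → ℝ) → Finset (Finset ι), C ∈ cells T →
      ∃ (x : Fin d → ℝ) (W : Wld d (KK d m ι) ι), x ∉ ⋃ i, (T i).car ∧ C = cell T x ∧
        W.H = HH T R ∧ W.O = Metric.ball 0 R ∧ W.C = cell T x ∩ Metric.ball 0 R ∧
        W.I = Iv T ∧ W.ak = Sum.inl ∧ W.Bd = Bdv T ∧ pat = PatF W := by
    intro C
    by_cases hC : C ∈ cells T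
    · obtain ⟨x, hx, hCx⟩ := hC
      obtain ⟨W, h1, h2, h3, h4, h5, h6⟩ := hW d m ι T R₀ R hR₀ hR hball x hx
      exact ⟨PatF W, fun _ => ⟨x, W, hx, hCx, h1, h2, h3, h4, h5, h6, rfl⟩⟩
    · exact ⟨fun _ => ∅, fun h => absurd h hC⟩
  choose pat hpat using hpat0
  have hsubp : ∀ C ∈ cells T, ∀ v, pat C v ⊆ (Iv T v).powerset := by
    intro C hC v
    obtain ⟨x, W, -, -, -, -, -, h4, -, -, h7⟩ := hpat C hC
    rw [h7]
    exact Asmc.pat_sub W T h4 v
  have hdisj : ∀ C ∈ cells T, ∀ C' ∈ cells T, ∀ v S, S ∈ pat C v → S ∈ pat C' v → C = C' := by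
    intro C hC C' hC' v S hS hS'
    obtain ⟨x, W, hx, hCx, h1, h2, h3, h4, h5, h6, h7⟩ := hpat C hC
    obtain ⟨x', W', hx', hCx', h1', h2', h3', h4', h5', h6', h7'⟩ := hpat C' hC'
    rw [h7] at hS
    rw [h7'] at hS'
    rw [hCx, hCx']
    exact hDis d m ι T R₀ R hR₀ hR hball x x' hx hx' W W' h1 h2 h3 h4 h5 h1' h2' h3' h4' h5'
      v S hS hS'
  have hpow : ∀ v, ((Iv T v).powerset).card ≤ 2 ^ c := by
    intro v
    rw [Finset.card_powerset]
    exact Nat.pow_le_pow_right (by norm_num) (Asmb.card_Iv T c hc v)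
  have hVfin : {p | Vert (HH T R) p}.Finite := hF d (KK d m ι) (HH T R)
  -- flat corners of one cell
  let fl : Set (Fin d → ℝ) → Finset (Fin d → ℝ) := fun C =>
    hVfin.toFinset.filter (fun p => p ∈ closure C ∧ PV T p ∧ ¬ Bdv T p ∧ ¬ Pointed C ε p ∧
      ¬ DirV T dir p)
  -- one cell
  have hone : ∀ C ∈ cells T, (bdFaces T C).Finite ∧ (bdFaces T C).ncard ≤
      3 ^ (c * (m + 1)) * (N + (N + 1) * ∑ v ∈ Q, (pat C v).card + (fl C).card) := by
    intro C hC
    obtain ⟨x, W, hx, hCx, h1, h2, h3, h4, h5, h6, h7⟩ := hpat C hC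
    rw [h7, hCx]
    set S := hVfin.toFinset.filter (fun p => p ∈ closure (cell T x) ∧ PV T p) with hS
    have hS1 : ∀ p ∈ closure (cell T x), PV T p → p ∈ S := by
      intro p hp hpv
      rw [hS, Finset.mem_filter, Set.Finite.mem_toFinset]
      exact ⟨Asmb.vert_of_pv T R hpv, hp, hpv⟩
    obtain ⟨hfin, hcard⟩ := hFac d m c ι T hb hc x hx S hS1
    refine ⟨hfin, le_trans hcard (Nat.mul_le_mul le_rfl ?_)⟩
    set S1 := S.filter (fun p => ¬ Bdv T p ∧ (Pointed (cell T x) ε p ∨ DirV T dir p)) with hS1def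
    set S2 := S.filter (fun p => Bdv T p) with hS2def
    have hcover : S ⊆ (S1 ∪ S2) ∪ fl (cell T x) := by
      intro p hp
      rw [Finset.mem_union, Finset.mem_union]
      by_cases hB : Bdv T p
      · exact Or.inl (Or.inr (Finset.mem_filter.2 ⟨hp, hB⟩))
      · by_cases hT : Pointed (cell T x) ε p ∨ DirV T dir p
        · exact Or.inl (Or.inl (Finset.mem_filter.2 ⟨hp, hB, hT⟩))
        · right
          rw [not_or] at hT
          rw [hS, Finset.mem_filter] at hp
          exact Finset.mem_filter.2 ⟨hp.1, hp.2.1, hp.2.2, hB, hT.1, hT.2⟩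
    have hin : S1.card ≤ N * (1 + ∑ v ∈ Q, (PatF W v).card) := by
      refine birth_bound hE T R W h1 h6 Q hQ1 N u hu _ ?_
      intro p hp
      rw [hS1def, Finset.mem_filter, hS, Finset.mem_filter] at hp
      obtain ⟨j, hj⟩ := hbirth ι T R₀ R hR₀ hR hball x hx W h1 h3 h4 h5 h6 p hp.1.2.1 hp.2.1
        hp.2.2
      exact ⟨j, hj (u j) (huU j)⟩
    have hout : S2.card ≤ ∑ v ∈ Q, (PatF W v).card := by
      rw [Finset.card_eq_sum_ones]
      have hsubQ : S2 ⊆ Q := by
        intro p hp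
        rw [hS2def, Finset.mem_filter, hS, Finset.mem_filter] at hp
        exact hQ1 p (Asmb.vert_of_pv T R hp.1.2.2) hp.2
      refine le_trans (Finset.sum_le_sum (g := fun v => (PatF W v).card) ?_)
        (Finset.sum_le_sum_of_subset hsubQ)
      intro p hp
      rw [hS2def, Finset.mem_filter, hS, Finset.mem_filter] at hp
      obtain ⟨i, j, hi, hj⟩ := hp.2
      have hpR : p ∈ Metric.ball (0 : Fin d → ℝ) R :=
        Metric.ball_subset_ball hR.le (hball i hi)
      exact Finset.card_pos.2 (hLop d m ι T R₀ R hR₀ hR hball x hx W h1 h2 h3 h4 h5 p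
        hp.1.2.1 hpR)
    calc S.card ≤ ((S1 ∪ S2) ∪ fl (cell T x)).card := Finset.card_le_card hcover
      _ ≤ (S1.card + S2.card) + (fl (cell T x)).card :=
          le_trans (Finset.card_union_le _ _)
            (Nat.add_le_add (Finset.card_union_le _ _) le_rfl)
      _ ≤ (N * (1 + ∑ v ∈ Q, (PatF W v).card) + ∑ v ∈ Q, (PatF W v).card) +
            (fl (cell T x)).card := Nat.add_le_add (Nat.add_le_add hin hout) le_rfl
      _ = _ := by ring
  -- the sum over the cells
  have hsum : ∀ M : Finset (Set (Fin d → ℝ)), (∀ C ∈ M, C ∈ cells T) →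
      ∑ C ∈ M, ∑ v ∈ Q, (pat C v).card ≤ Q.card * 2 ^ c := by
    intro M hM
    rw [Finset.sum_comm, ← smul_eq_mul]
    refine Finset.sum_le_card_nsmul _ _ _ ?_
    intro v _
    rw [← Finset.card_biUnion]
    · refine le_trans (Finset.card_le_card ?_) (hpow v)
      intro S hS
      rw [Finset.mem_biUnion] at hS
      obtain ⟨C, hC, hS⟩ := hS
      exact hsubp C (hM C hC) v hS
    · intro C hC C' hC' hne
      show Disjoint (pat C v) (pat C' v)
      rw [Finset.disjoint_left]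
      intro S hS hS'
      exact hne (hdisj C (hM C hC) C' (hM C' hC') v S hS hS')
  obtain ⟨n1, hn1⟩ : ∃ n1, n1 = Fintype.card ι ^ (d - 1) := ⟨_, rfl⟩
  rw [← hn1] at hQ3
  rw [← hn1]
  refine ⟨?_, ?_⟩
  · intro M hM hMfin
    have hinc : inc T M = ⋃ C ∈ hMfin.toFinset, (Prod.mk C) '' bdFaces T C := by
      ext q
      simp only [inc, Set.mem_ofPred_eq, Set.mem_iUnion, Set.mem_image, Set.Finite.mem_toFinset]
      constructor
      · rintro ⟨h1, h2⟩
        exact ⟨q.1, h1, q.2, h2, rfl⟩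
      · rintro ⟨C, hC, f, hf, rfl⟩
        exact ⟨hC, hf⟩
    have hMc : ∀ C ∈ hMfin.toFinset, C ∈ cells T := fun C hC =>
      hM ((Set.Finite.mem_toFinset hMfin).1 hC)
    have hflat : flatC T dir ε M = (((hMfin.toFinset ×ˢ hVfin.toFinset).filter
        (fun q : Set (Fin d → ℝ) × (Fin d → ℝ) => q.2 ∈ closure q.1 ∧ PV T q.2 ∧ ¬ Bdv T q.2 ∧
          ¬ Pointed q.1 ε q.2 ∧ ¬ DirV T dir q.2) : Finset _) : Set _) := by
      ext q
      rw [Finset.mem_coe, Finset.mem_filter, Finset.mem_product, Set.Finite.mem_toFinset,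
        Set.Finite.mem_toFinset]
      constructor
      · rintro ⟨h1, h2, h3, h4, h5, h6⟩
        exact ⟨⟨h1, Asmb.vert_of_pv T R h3⟩, h2, h3, h4, h5, h6⟩
      · rintro ⟨⟨h1, -⟩, h2, h3, h4, h5, h6⟩
        exact ⟨h1, h2, h3, h4, h5, h6⟩
    have hflcard : (flatC T dir ε M).ncard = ∑ C ∈ hMfin.toFinset, (fl C).card := by
      rw [hflat, Set.ncard_coe_finset, Finset.card_filter, Finset.sum_product]
      refine Finset.sum_congr rfl ?_
      intro C _
      rw [← Finset.card_filter]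
    refine ⟨?_, ?_, ?_⟩
    · rw [hinc]
      refine Set.Finite.biUnion (Finset.finite_toSet _) ?_
      intro C hC
      exact (hone C (hMc C hC)).1.image _
    · rw [hflat]
      exact Finset.finite_toSet _
    · rw [hinc, hflcard]
      have hMn : M.ncard = hMfin.toFinset.card := Set.ncard_eq_toFinset_card _ hMfin
      rw [hMn]
      obtain ⟨z, hz⟩ : ∃ z, z = ∑ C ∈ hMfin.toFinset, (fl C).card := ⟨_, rfl⟩
      rw [← hz]
      refine le_trans (Finset.set_ncard_biUnion_le _ _) ?_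
      calc ∑ C ∈ hMfin.toFinset, (Prod.mk C '' bdFaces T C).ncard
          ≤ ∑ C ∈ hMfin.toFinset,
              3 ^ (c * (m + 1)) * (N + (N + 1) * ∑ v ∈ Q, (pat C v).card + (fl C).card) := by
            refine Finset.sum_le_sum ?_
            intro C hC
            refine le_trans (Set.ncard_image_le (hone C (hMc C hC)).1) ?_
            exact (hone C (hMc C hC)).2
        _ = 3 ^ (c * (m + 1)) * (N * hMfin.toFinset.card + (N + 1) *
              ∑ C ∈ hMfin.toFinset, ∑ v ∈ Q, (pat C v).card + z) := by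
            rw [← Finset.mul_sum, Finset.sum_add_distrib, Finset.sum_add_distrib,
              ← Finset.mul_sum, Finset.sum_const, smul_eq_mul, ← hz]
            ring
        _ ≤ 3 ^ (c * (m + 1)) *
              (N * hMfin.toFinset.card + (N + 1) * ((E * n1) * 2 ^ c) + z) := by
            refine Nat.mul_le_mul le_rfl (Nat.add_le_add (Nat.add_le_add le_rfl
              (Nat.mul_le_mul le_rfl ?_)) le_rfl)
            exact le_trans (hsum _ hMc) (Nat.mul_le_mul hQ3 le_rfl)
        _ ≤ _ := by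
            have e1 : N * hMfin.toFinset.card + (N + 1) * ((E * n1) * 2 ^ c) + z ≤
                (N + 1 + (N + 1) * (E * 2 ^ c)) * (hMfin.toFinset.card + n1 + z) := by
              have e2 : (N + 1 + (N + 1) * (E * 2 ^ c)) * (hMfin.toFinset.card + n1 + z) =
                  (N * hMfin.toFinset.card + (N + 1) * ((E * n1) * 2 ^ c) + z) +
                  (hMfin.toFinset.card + (N + 1) * n1 + N * z +
                    (N + 1) * (E * 2 ^ c) * (hMfin.toFinset.card + z)) := by ring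
              rw [e2]
              exact Nat.le_add_right _ _
            refine le_trans (Nat.mul_le_mul le_rfl e1) ?_
            rw [← mul_assoc]
            exact Nat.mul_le_mul (Nat.le_add_right _ _) le_rfl
  · -- the non-convex cells
    have hnc : ∀ C ∈ {C ∈ cells T | ¬ Convex ℝ C}, ∃ q : (Fin d → ℝ) × Finset ι,
        q.1 ∈ Q ∧ q.2 ∈ pat C q.1 := by
      rintro C ⟨hC, hcv⟩
      obtain ⟨x, W, hx, hCx, h1, h2, h3, h4, h5, h6, h7⟩ := hpat C hC
      rw [hCx] at hcv
      obtain ⟨v, hv, hbv, S, hS⟩ := hNcv d m ι T R₀ R hR₀ hR hball x hx hcv W h1 h2 h3 h4 h5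
      refine ⟨(v, S), hQ1 v hv hbv, ?_⟩
      rw [h7]
      exact hS
    choose! g hg using hnc
    set G : Finset ((_ : Fin d → ℝ) × Finset ι) := Q.sigma (fun v => (Iv T v).powerset) with hGdef
    have hGcard : G.card ≤ E * 2 ^ c * n1 := by
      rw [hGdef, Finset.card_sigma]
      refine le_trans (Finset.sum_le_card_nsmul _ _ (2 ^ c) (fun v _ => hpow v)) ?_
      rw [smul_eq_mul]
      calc Q.card * 2 ^ c ≤ (E * n1) * 2 ^ c := Nat.mul_le_mul hQ3 le_rfl
        _ = _ := by ring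
    let g' : Set (Fin d → ℝ) → ((_ : Fin d → ℝ) × Finset ι) := fun C => ⟨(g C).1, (g C).2⟩
    have hmaps : Set.MapsTo g' {C ∈ cells T | ¬ Convex ℝ C} (G : Set _) := by
      intro C hC
      rw [Finset.mem_coe, hGdef, Finset.mem_sigma]
      exact ⟨(hg C hC).1, hsubp C hC.1 _ (hg C hC).2⟩
    have hinj : Set.InjOn g' {C ∈ cells T | ¬ Convex ℝ C} := by
      intro C hC C' hC' h
      have h1 : (g C).1 = (g C').1 := by
        have := congrArg Sigma.fst h
        exact this
      have h2 : (g C).2 = (g C').2 := by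
        have := eq_of_heq (Sigma.mk.inj h).2
        exact this
      refine hdisj C hC.1 C' hC'.1 (g C).1 (g C).2 (hg C hC).2 ?_
      rw [h1, h2]
      exact (hg C' hC').2
    have hfin : {C ∈ cells T | ¬ Convex ℝ C}.Finite :=
      Set.Finite.of_injOn hmaps hinj (Finset.finite_toSet G)
    refine ⟨hfin, ?_⟩
    have h1 : {C ∈ cells T | ¬ Convex ℝ C}.ncard ≤ (G : Set _).ncard :=
      Set.ncard_le_ncard_of_injOn g' (fun C hC => hmaps hC) hinj (Finset.finite_toSet G)
    rw [Set.ncard_coe_finset] at h1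
    refine le_trans h1 (le_trans hGcard ?_)
    rw [add_mul]
    exact Nat.le_add_left _ _

end Pool.Agent.Lib.MP_7c3106_co.Asmf2

namespace Pool.Agent.Lib.MP_7c3106_co

theorem mainF2 (hW : WldStatement) (hGoo : Goo2Statement) (hG : GenStatement) (hF : VfiStatement)
    (hQ : QctStatement) (hE : Eld2Statement) (hFac : FacStatement) (hDis : DisStatement)
    (hNcv : NcvStatement) (hLop : LopStatement) : MainF2Statement :=
  Asmf2.mainF2 hW hGoo hG hF hQ hE hFac hDis hNcv hLop

end Pool.Agent.Lib.MP_7c3106_co
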