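import Pool.Agent.Lib.MP_7c3106_co.Iface

/-!
MP_7c3106_co, row BIR: a birth vertex of the abstract situation is the minimum of a component
of the sublevel graph.
-/

namespace Pool.Agent.Lib.MP_7c3106_co.Bir

variable {d : ℕ} {κ ι : Type}

theorem le_trans' {a b c : κ → SignType} (h1 : Le a b) (h2 : Le b c) : Le a c := by
  intro k hk
  have h3 := h1 k hk
  have h4 : b k ≠ 0 := by rw [h3]; exact hk
  rw [h2 k h4, h3]

theorem cl_mono (H : Arr d κ) {a b : κ → SignType} (h : Le a b) {x : Fin d → ℝ}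
    (hx : x ∈ cl H a) : x ∈ cl H b := le_trans' hx h

theorem mul_nonneg_of_sign {a b : ℝ} (h : SignType.sign a = SignType.sign b) : 0 ≤ a * b := by
  rcases lt_trichotomy a 0 with ha | ha | ha
  · rw [sign_neg ha] at h
    have hb : b < 0 := sign_eq_neg_one_iff.1 h.symm
    exact (mul_pos_of_neg_of_neg ha hb).le
  · rw [ha, zero_mul]
  · rw [sign_pos ha] at h
    have hb : 0 < b := sign_eq_one_iff.1 h.symm
    exact (mul_pos ha hb).le

/-- the functional is larger than at `p` on the closed faces which look like `z` at `p` -/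
theorem key (W : Wld d κ ι) (u p z : Fin d → ℝ)
    (hw : ∀ w, w ≠ 0 → (∀ i ∈ W.I p, 0 ≤ ev W.H (W.ak i) z * ((W.H (W.ak i)).1 ⬝ᵥ w)) →
      0 < u ⬝ᵥ w)
    (τ : κ → SignType) (ht : ∀ i ∈ W.I p, τ (W.ak i) = sg W.H z (W.ak i))
    (x : Fin d → ℝ) (hx : x ∈ cl W.H τ) (hne : x ≠ p) : u ⬝ᵥ p < u ⬝ᵥ x := by
  have h := hw (x - p) (sub_ne_zero.2 hne) (fun i hi => by
    have h0 := W.zer p i hi
    have h1 : (W.H (W.ak i)).1 ⬝ᵥ (x - p) = ev W.H (W.ak i) x := by
      unfold ev at h0 ⊢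
      rw [dotProduct_sub]
      linarith
    rw [h1]
    by_cases h2 : sg W.H x (W.ak i) = 0
    · have h3 : ev W.H (W.ak i) x = 0 := sign_eq_zero_iff.1 h2
      rw [h3, mul_zero]
    · have h3 := hx (W.ak i) h2
      rw [ht i hi] at h3
      exact mul_nonneg_of_sign h3)
  rw [dotProduct_sub] at h
  linarith

theorem bir (h : MinStatement) : BirStatement := by
  intro d κ ι _ W u hg p hb
  obtain ⟨hnb, z, hz, hp, hw⟩ := hb
  have hmin := (h d κ ι W u hg).1
  have hnz : ∀ i ∈ W.I p, sg W.H z (W.ak i) ≠ 0 := W.nbd p hnb z hz hp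
  -- the least value on a node which looks like `z` at `p`
  have hbt : ∀ τ, Nd W τ → p ∈ cl W.H τ → (∀ i ∈ W.I p, τ (W.ak i) = sg W.H z (W.ak i)) →
      bt W.H u τ = u ⬝ᵥ p := by
    intro τ hτ hpτ ht
    obtain ⟨q, hq, -, hqb, hqm⟩ := hmin τ hτ
    by_cases hqp : q = p
    · rw [← hqb, hqp]
    · have h1 := key W u p z hw τ ht q hq hqp
      have h2 := (hqm p hpτ).1
      exact absurd h1 (not_lt.2 h2)
  refine ⟨sg W.H z, ⟨z, hz, rfl⟩, hbt _ ⟨z, hz, rfl⟩ hp (fun _ _ => rfl), hp, ?_⟩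
  intro τ hτ
  have hinv : Nd W τ ∧ p ∈ cl W.H τ ∧ ∀ i ∈ W.I p, τ (W.ak i) = sg W.H z (W.ak i) := by
    induction hτ with
    | refl => exact ⟨⟨z, hz, rfl⟩, hp, fun _ _ => rfl⟩
    | @tail τ ρ _ hr ih =>
      obtain ⟨-, hpτ, ht⟩ := ih
      obtain ⟨-, hρ, hle, -, hbρ⟩ := hr
      rcases hle with hle | hle
      · refine ⟨hρ, cl_mono W.H hle hpτ, fun i hi => ?_⟩
        have h1 : τ (W.ak i) ≠ 0 := by rw [ht i hi]; exact hnz i hi
        rw [hle (W.ak i) h1, ht i hi]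
      · obtain ⟨q, hq, -, hqb, -⟩ := hmin ρ hρ
        have hqp : q = p := by
          by_contra hqp
          have h1 := key W u p z hw τ ht q (cl_mono W.H hle hq) hqp
          rw [hqb] at h1
          exact absurd hbρ (not_le.2 h1)
        have hpρ : p ∈ cl W.H ρ := by rw [← hqp]; exact hq
        refine ⟨hρ, hpρ, fun i hi => ?_⟩
        obtain ⟨x, hx, hxρ⟩ := hρ
        have h1 : ρ (W.ak i) ≠ 0 := by
          rw [← hxρ]
          exact W.nbd p hnb x hx (by rw [hxρ]; exact hpρ) i hi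
        rw [← hle (W.ak i) h1, ht i hi]
  exact (hbt τ hinv.1 hinv.2.1 hinv.2.2).ge

end Pool.Agent.Lib.MP_7c3106_co.Bir
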