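import Pool.Agent.Lib.MP_7c3106_co.Bpv

/-!
MP_7c3106_co, board CELL, row BMI: strict local minima of an arbitrary functional on branches of a
cell give births of a generic functional.
-/

namespace Pool.Agent.Lib.MP_7c3106_co

open Filter Topology

namespace Bmi

variable {d m : ℕ} {κ ι : Type}

lemma sign_near [Finite κ] (H : Arr d κ) (p : Fin d → ℝ) :
    ∀ᶠ z in 𝓝 p, Le (sg H p) (sg H z) := by
  unfold Le
  rw [eventually_all]
  intro k
  have hc : ContinuousAt (fun z => ev H k z) p :=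
    ((Bpv.cont_dot (H k).1).sub continuous_const).continuousAt
  rcases lt_trichotomy (ev H k p) 0 with h1 | h1 | h1
  · filter_upwards [hc.eventually_lt_const h1] with z hz _
    simp only [sg, sign_neg hz, sign_neg h1]
  · exact Eventually.of_forall fun z hz => absurd (by simp only [sg, h1, sign_zero]) hz
  · filter_upwards [hc.eventually_const_lt h1] with z hz _
    simp only [sg, sign_pos hz, sign_pos h1]

/-- the key point: the closed cone at `p` is inside the closure of the branch -/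
lemma key [Finite ι] {T : ι → Patch d m} {x p y z u : Fin d → ℝ} {r ρ : ℝ} (hρ : 0 < ρ)
    (hρr : ρ ≤ r) (hB : ¬ Bdv T p)
    (hnb : ∀ q ∈ Metric.ball p ρ, (∀ i, p ∉ (T i).car → q ∉ (T i).car) ∧
      ∀ i j, (T i).c j < (T i).l j ⬝ᵥ p → (T i).c j < (T i).l j ⬝ᵥ q)
    (hz : z ∈ connectedComponentIn (cell T x ∩ Metric.ball p r) y) (hzp : z ∈ Metric.ball p ρ)
    (hmin : ∀ q ∈ closure (connectedComponentIn (cell T x ∩ Metric.ball p r) y), q ≠ p →
      u ⬝ᵥ p < u ⬝ᵥ q)
    {w : Fin d → ℝ} (hw : w ≠ 0)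
    (hc : ∀ i, p ∈ (T i).car → 0 ≤ ((T i).a ⬝ᵥ z - (T i).b) * ((T i).a ⬝ᵥ w)) :
    0 < u ⬝ᵥ w := by
  have hzC : z ∈ cell T x ∩ Metric.ball p r := connectedComponentIn_subset _ _ hz
  have hzc : z ∈ (⋃ i, (T i).car)ᶜ := connectedComponentIn_subset _ _ hzC.1
  have hin : ∀ i, p ∈ (T i).car → ∀ j, (T i).c j < (T i).l j ⬝ᵥ p := by
    intro i hi j
    refine lt_of_le_of_ne (hi.2 j) fun h => hB ⟨i, j, hi, h.symm⟩
  have hne : ∀ i, p ∈ (T i).car → (T i).a ⬝ᵥ z - (T i).b ≠ 0 := by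
    intro i hi h0
    apply hzc
    rw [Set.mem_iUnion]
    exact ⟨i, sub_eq_zero.1 h0, fun j => ((hnb z hzp).2 i j (hin i hi j)).le⟩
  obtain ⟨Y, hY⟩ : ∃ Y : Set (Fin d → ℝ), Y = {q | q ∈ Metric.ball p ρ ∧
    ∀ i, p ∈ (T i).car → 0 < ((T i).a ⬝ᵥ z - (T i).b) * ((T i).a ⬝ᵥ q - (T i).b)} := ⟨_, rfl⟩
  have hYc : Convex ℝ Y := by
    rw [hY]
    intro q1 h1 q2 h2 s t hs ht hst
    refine ⟨convex_ball p ρ h1.1 h2.1 hs ht hst, fun i hi => ?_⟩
    have e : ((T i).a ⬝ᵥ z - (T i).b) * ((T i).a ⬝ᵥ (s • q1 + t • q2) - (T i).b)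
        = s * (((T i).a ⬝ᵥ z - (T i).b) * ((T i).a ⬝ᵥ q1 - (T i).b))
          + t * (((T i).a ⬝ᵥ z - (T i).b) * ((T i).a ⬝ᵥ q2 - (T i).b)) := by
      rw [dotProduct_add, dotProduct_smul, dotProduct_smul, smul_eq_mul, smul_eq_mul]
      have : s = 1 - t := by linarith
      subst this
      ring
    rw [e]
    have a1 := h1.2 i hi
    have a2 := h2.2 i hi
    rcases hs.eq_or_lt with h | h
    · have : t = 1 := by linarith
      rw [← h, this]
      linarith
    · have := mul_pos h a1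
      have := mul_nonneg ht a2.le
      linarith
  have hYd : Y ⊆ (⋃ i, (T i).car)ᶜ := by
    rw [hY]
    intro q hq hqi
    obtain ⟨i, hi⟩ := Set.mem_iUnion.1 hqi
    by_cases hp : p ∈ (T i).car
    · have := hq.2 i hp
      rw [hi.1, sub_self, mul_zero] at this
      exact lt_irrefl _ this
    · exact (hnb q hq.1).1 i hp hi
  have hzY : z ∈ Y := by
    rw [hY]
    exact ⟨hzp, fun i hi => mul_self_pos.2 (hne i hi)⟩
  have hY2 : Y ⊆ cell T x := by
    have := hYc.isPreconnected.subset_connectedComponentIn hzY hYd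
    rwa [← connectedComponentIn_eq hzC.1] at this
  have hY3 : Y ⊆ cell T x ∩ Metric.ball p r := by
    refine Set.subset_inter hY2 ?_
    rw [hY]
    intro q hq
    exact Metric.ball_subset_ball hρr hq.1
  have hY4 := hYc.isPreconnected.subset_connectedComponentIn hzY hY3
  rw [← connectedComponentIn_eq hz] at hY4
  -- the point
  have hwn : 0 < ‖w‖ := norm_pos_iff.2 hw
  obtain ⟨s, hs⟩ : ∃ s : ℝ, s = ρ / (2 * ‖w‖) := ⟨_, rfl⟩
  have hs0 : 0 < s := by rw [hs]; positivity
  have hsw : s * ‖w‖ = ρ / 2 := by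
    rw [hs]
    field_simp
  have hpb : p + s • w ∈ Metric.ball p ρ := by
    rw [Metric.mem_ball, dist_eq_norm, add_sub_cancel_left, norm_smul, Real.norm_eq_abs,
      abs_of_pos hs0, hsw]
    linarith
  have hcl : p + s • w ∈ closure (connectedComponentIn (cell T x ∩ Metric.ball p r) y) := by
    refine closure_mono hY4 ?_
    have hlim : Tendsto (fun e : ℝ => (1 - e) • (p + s • w) + e • z) (𝓝[>] 0)
        (𝓝 (p + s • w)) := by
      have h1 : Continuous fun e : ℝ => (1 - e) • (p + s • w) + e • z := by fun_prop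
      have h2 := h1.tendsto 0
      simp only [sub_zero, one_smul, zero_smul, add_zero] at h2
      exact h2.mono_left nhdsWithin_le_nhds
    refine mem_closure_of_tendsto hlim ?_
    have h1 : ∀ᶠ e : ℝ in 𝓝[>] 0, e < 1 :=
      (eventually_lt_nhds zero_lt_one).filter_mono nhdsWithin_le_nhds
    filter_upwards [h1, self_mem_nhdsWithin] with e he1 he0
    have he0 : 0 < e := he0
    rw [hY]
    refine ⟨convex_ball p ρ hpb hzp (by linarith) he0.le (by ring), fun i hi => ?_⟩
    have e1 : ((T i).a ⬝ᵥ z - (T i).b) * ((T i).a ⬝ᵥ ((1 - e) • (p + s • w) + e • z) - (T i).b)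
        = (1 - e) * s * (((T i).a ⬝ᵥ z - (T i).b) * ((T i).a ⬝ᵥ w))
          + e * (((T i).a ⬝ᵥ z - (T i).b) * ((T i).a ⬝ᵥ z - (T i).b)) := by
      rw [dotProduct_add, dotProduct_smul, dotProduct_smul, dotProduct_add, dotProduct_smul,
        smul_eq_mul, smul_eq_mul, smul_eq_mul, hi.1]
      ring
    rw [e1]
    have a1 := hc i hi
    have a2 := mul_pos he0 (mul_self_pos.2 (hne i hi))
    have a3 : 0 ≤ (1 - e) * s := mul_nonneg (by linarith) hs0.le
    have a4 := mul_nonneg a3 a1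
    linarith
  have h1 := hmin _ hcl (by
    intro h
    have : s • w = 0 := by simpa using h
    rcases smul_eq_zero.1 this with h | h
    · exact hs0.ne' h
    · exact hw h)
  rw [dotProduct_add, dotProduct_smul, smul_eq_mul] at h1
  have h2 : 0 < s * (u ⬝ᵥ w) := by linarith
  exact (pos_iff_pos_of_mul_pos h2).1 hs0

end Bmi

open Bmi in
theorem bmi (h : BpvStatement) : BmiStatement := by
  intro d m ι _ T R₀ R hR₀ hR hT x hx W hH hC hI hak hBd u B hB
  have main : ∀ p ∈ B, ∀ᶠ u' in 𝓝 u, Birth W u' p := by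
    intro p hpB
    obtain ⟨hb, hbr⟩ := hB p hpB
    have hPV := h d m ι T x hx u p hbr
    obtain ⟨r, hr, y, hy, hpc, hmin⟩ := hbr
    -- `p` is in the box
    have hpR : p ∈ Metric.ball (0 : Fin d → ℝ) R := by
      by_cases hex : ∃ i, p ∈ (T i).car
      · obtain ⟨i, hi⟩ := hex
        exact Metric.ball_subset_ball hR.le (hT i hi)
      · have : p = 0 := hPV p fun i hi => absurd ⟨i, hi⟩ hex
        rw [this]
        exact Metric.mem_ball_self (hR₀.trans hR)
    obtain ⟨ρ, hρ, hball⟩ := Metric.eventually_nhds_iff_ball.1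
      ((Bpv.nbhd T p).and ((sign_near (HH T R) p).and (Metric.isOpen_ball.mem_nhds hpR)))
    obtain ⟨z, hz, hdz⟩ := Metric.mem_closure_iff.1 hpc (min ρ r) (lt_min hρ hr)
    have hzp : z ∈ Metric.ball p (min ρ r) := by rwa [Metric.mem_ball, dist_comm]
    have hzρ : z ∈ Metric.ball p ρ := Metric.ball_subset_ball (min_le_left _ _) hzp
    have hzC : z ∈ cell T x ∩ Metric.ball p r := connectedComponentIn_subset _ _ hz
    have hk : ∀ w : Fin d → ℝ, w ≠ 0 →
        (∀ i, p ∈ (T i).car → 0 ≤ ((T i).a ⬝ᵥ z - (T i).b) * ((T i).a ⬝ᵥ w)) → 0 < u ⬝ᵥ w := by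
      intro w hw hc
      exact key (lt_min hρ hr) (min_le_right _ _) hb
        (fun q hq => (hball q (Metric.ball_subset_ball (min_le_left _ _) hq)).1) hz hzp hmin hw hc
    obtain ⟨S, hS⟩ : ∃ S : Set (Fin d → ℝ), S = Metric.sphere 0 1 ∩
      {w | ∀ i, p ∈ (T i).car → 0 ≤ ((T i).a ⬝ᵥ z - (T i).b) * ((T i).a ⬝ᵥ w)} := ⟨_, rfl⟩
    have hSc : IsCompact S := by
      rw [hS]
      refine (isCompact_sphere _ _).inter_right ?_
      have : {w : Fin d → ℝ | ∀ i, p ∈ (T i).car →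
          0 ≤ ((T i).a ⬝ᵥ z - (T i).b) * ((T i).a ⬝ᵥ w)} = ⋂ i, ⋂ (_ : p ∈ (T i).car),
          {w | 0 ≤ ((T i).a ⬝ᵥ z - (T i).b) * ((T i).a ⬝ᵥ w)} := by
        ext w
        simp
      rw [this]
      exact isClosed_iInter fun i => isClosed_iInter fun _ =>
        isClosed_le continuous_const (continuous_const.mul (Bpv.cont_dot _))
    have hev : ∀ᶠ u' in 𝓝 u, ∀ w ∈ S, 0 < u' ⬝ᵥ w := by
      refine hSc.eventually_forall_of_forall_eventually fun w hw => ?_
      rw [hS] at hw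
      have hw0 : w ≠ 0 := by
        intro h0
        have := hw.1
        rw [h0] at this
        simp at this
      have h0 : 0 < u ⬝ᵥ w := hk w hw0 hw.2
      have hc : Continuous fun q : (Fin d → ℝ) × (Fin d → ℝ) => q.1 ⬝ᵥ q.2 :=
        Continuous.dotProduct continuous_fst continuous_snd
      exact (hc.continuousAt (x := (u, w))).eventually_const_lt h0
    filter_upwards [hev] with u' hu'
    refine ⟨by rw [hBd]; exact hb, z, ?_, ?_, ?_⟩
    · rw [hC]
      exact ⟨hzC.1, (hball z hzρ).2.2⟩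
    · rw [hH]
      exact (hball z hzρ).2.1
    · intro w hw hcw
      rw [hI, hak, hH] at hcw
      have hcw' : ∀ i, p ∈ (T i).car → 0 ≤ ((T i).a ⬝ᵥ z - (T i).b) * ((T i).a ⬝ᵥ w) := by
        intro i hi
        exact hcw i (by simp [Iv, hi])
      have hwn : 0 < ‖w‖ := norm_pos_iff.2 hw
      have h1 : ‖w‖⁻¹ • w ∈ S := by
        rw [hS]
        refine ⟨?_, fun i hi => ?_⟩
        · rw [mem_sphere_zero_iff_norm, norm_smul, norm_inv, norm_norm,
            inv_mul_cancel₀ hwn.ne']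
        · rw [dotProduct_smul, smul_eq_mul, mul_left_comm]
          exact mul_nonneg (inv_nonneg.2 hwn.le) (hcw' i hi)
      have h2 := hu' _ h1
      rw [dotProduct_smul, smul_eq_mul] at h2
      exact (pos_iff_pos_of_mul_pos h2).1 (inv_pos.2 hwn)
  have hall : ∀ᶠ u' in 𝓝 u, ∀ p ∈ B, Birth W u' p := (eventually_all_finset B).2 main
  obtain ⟨U, hU, hUo, huU⟩ := mem_nhds_iff.1 hall
  exact ⟨U, hUo, huU, hU⟩

end Pool.Agent.Lib.MP_7c3106_co
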