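import Pool.Agent.Lib.MP_7c3106_co.Iface

/-!
Row BOX: the part of a cell in a large box is connected.
-/

namespace Pool.Agent.Lib.MP_7c3106_co.Box

open Metric

variable {d m : ℕ} {ι : Type}

/-- the nearest point of the cube of radius `R` -/
def clamp (R : ℝ) (y : Fin d → ℝ) : Fin d → ℝ := fun i => max (-R) (min R (y i))

theorem continuous_clamp (R : ℝ) : Continuous (clamp (d := d) R) :=
  continuous_pi fun i => continuous_const.max (continuous_const.min (continuous_apply i))

theorem clamp_self {R : ℝ} {y : Fin d → ℝ} (h : ‖y‖ ≤ R) : clamp R y = y := by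
  funext i
  have h1 : |y i| ≤ R := (norm_le_pi_norm y i).trans h
  obtain ⟨h2, h3⟩ := abs_le.1 h1
  unfold clamp
  rw [min_eq_right h3, max_eq_right h2]

theorem norm_clamp {R : ℝ} (hR : 0 ≤ R) (y : Fin d → ℝ) : ‖clamp R y‖ ≤ R := by
  refine (pi_norm_le_iff_of_nonneg hR).2 fun i => ?_
  rw [Real.norm_eq_abs]
  exact abs_le.2 ⟨le_max_left _ _, max_le (by linarith) (min_le_left _ _)⟩

theorem norm_seg {R : ℝ} (hR : 0 ≤ R) {y z : Fin d → ℝ} (hy : R < ‖y‖)
    (hz : z ∈ segment ℝ y (clamp R y)) : R ≤ ‖z‖ := by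
  have h1 : ∃ i, R < |y i| := by
    by_contra h
    push Not at h
    exact absurd ((pi_norm_le_iff_of_nonneg hR).2 fun i => h i) (not_le_of_gt hy)
  obtain ⟨i, hi⟩ := h1
  obtain ⟨a, b, ha, hb, hab, rfl⟩ := hz
  refine le_trans ?_ (norm_le_pi_norm (a • y + b • clamp R y) i)
  rw [Real.norm_eq_abs]
  have e : (a • y + b • clamp R y) i = a * y i + b * clamp R y i := rfl
  rw [e]
  rcases lt_abs.1 hi with h | h
  · have h2 : clamp R y i = R := by
      unfold clamp
      rw [min_eq_left h.le, max_eq_right (by linarith)]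
    rw [h2]
    refine le_trans ?_ (le_abs_self _)
    have : b = 1 - a := by linarith
    subst this
    nlinarith
  · have h2 : clamp R y i = -R := by
      unfold clamp
      rw [min_eq_right (by linarith), max_eq_left (by linarith)]
    rw [h2]
    refine le_trans ?_ (neg_le_abs _)
    have : b = 1 - a := by linarith
    subst this
    nlinarith

theorem box : BoxStatement := by
  intro d m ι _ T R₀ R h0 hR hT x hx
  set F : Set (Fin d → ℝ) := (⋃ i, (T i).car)ᶜ with hF
  set R₁ : ℝ := (R₀ + R) / 2 with hR₁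
  have h1 : R₀ < R₁ := by rw [hR₁]; linarith
  have h2 : R₁ < R := by rw [hR₁]; linarith
  have h3 : 0 ≤ R₁ := by linarith
  have hout : ∀ z : Fin d → ℝ, R₁ ≤ ‖z‖ → z ∈ F := by
    intro z hz hz'
    obtain ⟨i, hi⟩ := Set.mem_iUnion.1 hz'
    have h4 := hT i hi
    rw [mem_ball_zero_iff] at h4
    linarith
  -- segments to the clamped point
  have hseg : ∀ y ∈ cell T x, segment ℝ y (clamp R₁ y) ⊆ cell T x := by
    intro y hy
    have hyF : y ∈ F := connectedComponentIn_subset _ _ hy
    have h4 : segment ℝ y (clamp R₁ y) ⊆ F := by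
      intro z hz
      rcases le_or_gt ‖y‖ R₁ with h5 | h5
      · rw [clamp_self h5, segment_same, Set.mem_singleton_iff] at hz
        rw [hz]
        exact hyF
      · exact hout z (norm_seg h3 h5 hz)
    have h6 : cell T x = connectedComponentIn F y := connectedComponentIn_eq hy
    rw [h6]
    exact (convex_segment y (clamp R₁ y)).isPreconnected.subset_connectedComponentIn
      (left_mem_segment ℝ _ _) h4
  have hcl : ∀ y ∈ cell T x, clamp R₁ y ∈ cell T x := fun y hy =>
    hseg y hy (right_mem_segment ℝ _ _)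
  have hball : ∀ y : Fin d → ℝ, clamp R₁ y ∈ ball (0 : Fin d → ℝ) R := fun y => by
    rw [mem_ball_zero_iff]
    exact (norm_clamp h3 y).trans_lt h2
  have hC : IsPreconnected (clamp R₁ '' cell T x) :=
    isPreconnected_connectedComponentIn.image _ (continuous_clamp R₁).continuousOn
  have hCs : clamp R₁ '' cell T x ⊆ cell T x ∩ ball 0 R := by
    rintro _ ⟨y, hy, rfl⟩
    exact ⟨hcl y hy, hball y⟩
  have hxC : x ∈ cell T x := mem_connectedComponentIn hx
  refine isPreconnected_of_forall (clamp R₁ x) fun y hy => ?_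
  refine ⟨clamp R₁ '' cell T x ∪ segment ℝ y (clamp R₁ y), ?_, Or.inl ⟨x, hxC, rfl⟩,
    Or.inr (left_mem_segment ℝ _ _), ?_⟩
  · refine Set.union_subset hCs fun z hz => ⟨hseg y hy.1 hz, ?_⟩
    exact (convex_ball (0 : Fin d → ℝ) R).segment_subset hy.2 (hball y) hz
  · exact IsPreconnected.union (clamp R₁ y) ⟨y, hy.1, rfl⟩ (right_mem_segment ℝ _ _) hC
      (convex_segment y (clamp R₁ y)).isPreconnected

end Pool.Agent.Lib.MP_7c3106_co.Box
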