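import Pool.Agent.Lib.MP_7c3106_co.Iface

/-!
MP_7c3106_co, board CELL, row BPV: a strict local minimum on a branch is a vertex.
-/

namespace Pool.Agent.Lib.MP_7c3106_co

open Filter Topology

namespace Bpv

variable {d m : ℕ} {ι : Type}

lemma cont_dot (v : Fin d → ℝ) : Continuous fun x : Fin d → ℝ => v ⬝ᵥ x :=
  Continuous.dotProduct continuous_const continuous_id

lemma isClosed_car (T : Patch d m) : IsClosed T.car := by
  have : T.car = {x | T.a ⬝ᵥ x = T.b} ∩ ⋂ j, {x | T.c j ≤ T.l j ⬝ᵥ x} := by
    ext x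
    simp [Patch.car]
  rw [this]
  exact (isClosed_eq (cont_dot _) continuous_const).inter
    (isClosed_iInter fun j => isClosed_le continuous_const (cont_dot _))

/-- a neighbourhood of `p` in which the patches look like cones -/
lemma nbhd [Finite ι] (T : ι → Patch d m) (p : Fin d → ℝ) :
    ∀ᶠ z in 𝓝 p, (∀ i, p ∉ (T i).car → z ∉ (T i).car) ∧
      ∀ i j, (T i).c j < (T i).l j ⬝ᵥ p → (T i).c j < (T i).l j ⬝ᵥ z := by
  apply Filter.Eventually.and
  · rw [eventually_all]
    intro i
    by_cases h : p ∈ (T i).car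
    · exact Eventually.of_forall fun z hz => absurd h hz
    · filter_upwards [(isClosed_car (T i)).isOpen_compl.mem_nhds h] with z hz _
      exact hz
  · rw [eventually_all]
    intro i
    rw [eventually_all]
    intro j
    by_cases h : (T i).c j < (T i).l j ⬝ᵥ p
    · have := (cont_dot ((T i).l j)).continuousAt.eventually_mem (Ioi_mem_nhds h) (x := p)
      filter_upwards [this] with z hz _
      exact hz
    · exact Eventually.of_forall fun z hz => absurd hz h

/-- moving a point near `p` in a direction which is killed by all forms through `p` does not hit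
the patches -/
lemma move {T : ι → Patch d m} {p z w : Fin d → ℝ} {t : ℝ}
    (hw : ∀ i, p ∈ (T i).car → (T i).a ⬝ᵥ w = 0 ∧
      ∀ j, (T i).l j ⬝ᵥ p = (T i).c j → (T i).l j ⬝ᵥ w = 0)
    (hz1 : ∀ i j, (T i).c j < (T i).l j ⬝ᵥ p → (T i).c j < (T i).l j ⬝ᵥ z)
    (hz2 : ∀ i, p ∉ (T i).car → z + t • w ∉ (T i).car)
    (hz : z ∉ ⋃ i, (T i).car) : z + t • w ∉ ⋃ i, (T i).car := by
  simp only [Set.mem_iUnion, not_exists] at hz ⊢
  intro i
  by_cases hp : p ∈ (T i).car
  · intro hm
    apply hz i
    obtain ⟨h1, h2⟩ := hw i hp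
    refine ⟨?_, ?_⟩
    · have := hm.1
      rwa [dotProduct_add, dotProduct_smul, h1, smul_zero, add_zero] at this
    · intro j
      rcases (hp.2 j).lt_or_eq with h | h
      · exact (hz1 i j h).le
      · have := hm.2 j
        rwa [dotProduct_add, dotProduct_smul, h2 j h.symm, smul_zero, add_zero] at this
  · exact hz2 i hp

end Bpv

open Bpv in
theorem bpv : BpvStatement := by
  intro d m ι _ T x hx u p hp
  obtain ⟨r, hr, y, hy, hpc, hmin⟩ := hp
  intro w hw
  by_contra hw0
  obtain ⟨ρ, hρ, hball⟩ := Metric.eventually_nhds_iff_ball.1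
    ((nbhd T p).and (Metric.ball_mem_nhds p hr))
  have hwn : 0 < ‖w‖ := norm_pos_iff.2 hw0
  obtain ⟨s, hs⟩ : ∃ s : ℝ, s = ρ / (4 * ‖w‖) := ⟨_, rfl⟩
  have hs0 : 0 < s := by rw [hs]; positivity
  have hsw : s * ‖w‖ = ρ / 4 := by
    rw [hs]
    field_simp
  -- the branch contains the moved points
  have key : ∀ t : ℝ, |t| ≤ s → p + t • w ∈
      closure (connectedComponentIn (cell T x ∩ Metric.ball p r) y) := by
    intro t ht
    rw [Metric.mem_closure_iff]
    intro ε hε
    obtain ⟨z, hz, hdz⟩ := Metric.mem_closure_iff.1 hpc (min ε (ρ / 2)) (by positivity)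
    have hz1 : dist p z < ε := lt_of_lt_of_le hdz (min_le_left _ _)
    have hz2 : dist p z < ρ / 2 := lt_of_lt_of_le hdz (min_le_right _ _)
    refine ⟨z + t • w, ?_, by rwa [dist_add_right]⟩
    have hzC : z ∈ cell T x ∩ Metric.ball p r := connectedComponentIn_subset _ _ hz
    have hzc : z ∈ (⋃ i, (T i).car)ᶜ := connectedComponentIn_subset _ _ hzC.1
    -- the segment
    obtain ⟨Sg, hSg⟩ : ∃ Sg : Set (Fin d → ℝ),
      Sg = (fun q : ℝ => z + q • w) '' Set.uIcc 0 t := ⟨_, rfl⟩
    have hq : ∀ q ∈ Set.uIcc 0 t, z + q • w ∈ Metric.ball p ρ := by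
      intro q hq
      have hq1 : |q| ≤ s := by
        refine le_trans ?_ ht
        have := Set.abs_sub_left_of_mem_uIcc hq
        simpa using this
      rw [Metric.mem_ball]
      have h1 : dist (z + q • w) p ≤ dist z p + ‖q • w‖ := by
        rw [dist_eq_norm, dist_eq_norm]
        have : z + q • w - p = (z - p) + q • w := by abel
        rw [this]
        exact norm_add_le _ _
      have h2 : ‖q • w‖ ≤ ρ / 4 := by
        rw [norm_smul, Real.norm_eq_abs, ← hsw]
        exact mul_le_mul_of_nonneg_right hq1 hwn.le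
      rw [dist_comm] at hz2
      linarith
    have hSc : IsPreconnected Sg := by
      rw [hSg]
      exact isPreconnected_uIcc.image _ (by fun_prop)
    have hzS : z ∈ Sg := by
      rw [hSg]
      exact ⟨0, Set.left_mem_uIcc, by simp⟩
    have htS : z + t • w ∈ Sg := by
      rw [hSg]
      exact ⟨t, Set.right_mem_uIcc, rfl⟩
    have hzb : z ∈ Metric.ball p ρ := by
      have := hq 0 Set.left_mem_uIcc
      simpa using this
    have hS1 : Sg ⊆ (⋃ i, (T i).car)ᶜ := by
      rw [hSg]
      rintro _ ⟨q, hqm, rfl⟩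
      have hb := (hball _ (hq q hqm)).1
      exact move hw (hball z hzb).1.2 hb.1 hzc
    have hS2 : Sg ⊆ cell T x := by
      have := hSc.subset_connectedComponentIn hzS hS1
      rwa [← connectedComponentIn_eq hzC.1] at this
    have hS3 : Sg ⊆ cell T x ∩ Metric.ball p r := by
      refine Set.subset_inter hS2 ?_
      rw [hSg]
      rintro _ ⟨q, hqm, rfl⟩
      exact (hball _ (hq q hqm)).2
    have hS4 := hSc.subset_connectedComponentIn hzS hS3
    rw [← connectedComponentIn_eq hz] at hS4
    exact hS4 htS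
  have h1 := hmin _ (key s (by rw [abs_of_pos hs0])) (by
    intro h
    have : s • w = 0 := by simpa using h
    rcases smul_eq_zero.1 this with h | h
    · exact hs0.ne' h
    · exact hw0 h)
  have h2 := hmin _ (key (-s) (by rw [abs_neg, abs_of_pos hs0])) (by
    intro h
    have : (-s) • w = 0 := by simpa using h
    rcases smul_eq_zero.1 this with h | h
    · exact hs0.ne' (by linarith)
    · exact hw0 h)
  rw [dotProduct_add, dotProduct_smul, smul_eq_mul] at h1 h2
  nlinarith

end Pool.Agent.Lib.MP_7c3106_co
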