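import Pool.Agent.Lib.MP_7c3106_co.Iface

/-!
MP_7c3106_co, row CHA: every node is below a chamber.
-/

namespace Pool.Agent.Lib.MP_7c3106_co.Cha

open Filter Topology

/-- A vector on which finitely many non-zero functionals are not zero. -/
theorem exists_vec {d : ℕ} {κ : Type} [Finite κ] (a : κ → Fin d → ℝ) (ha : ∀ k, a k ≠ 0) :
    ∃ w : Fin d → ℝ, ∀ k, a k ⬝ᵥ w ≠ 0 := by
  by_contra h
  push Not at h
  have hc : ⋃ k, ((LinearMap.ker (dotProductBilin ℝ ℝ (a k)) : Submodule ℝ (Fin d → ℝ)) :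
      Set (Fin d → ℝ)) = Set.univ := by
    ext w
    simp only [Set.mem_iUnion, SetLike.mem_coe, LinearMap.mem_ker, Set.mem_univ, iff_true]
    obtain ⟨k, hk⟩ := h w
    exact ⟨k, hk⟩
  obtain ⟨k, hk⟩ := Subspace.exists_eq_top_of_iUnion_eq_univ hc
  apply ha k
  apply dotProduct_eq_zero
  intro w
  have : w ∈ LinearMap.ker (dotProductBilin ℝ ℝ (a k)) := by rw [hk]; trivial
  exact this

/-- Row CHA. -/
theorem cha : ChaStatement := by
  intro d κ ι _ W σ hσ
  obtain ⟨x, hx, rfl⟩ := hσ
  obtain ⟨w, hw⟩ := exists_vec (fun k => (W.H k).1) W.hn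
  have hev : ∀ k (e : ℝ), ev W.H k (x + e • w) = ev W.H k x + e * ((W.H k).1 ⬝ᵥ w) := by
    intro k e
    unfold ev
    rw [dotProduct_add, dotProduct_smul, smul_eq_mul]
    ring
  have hc0 : Continuous (fun e : ℝ => x + e • w) := by fun_prop
  have h1 : ∀ᶠ e : ℝ in 𝓝[>] 0, x + e • w ∈ W.C := by
    apply nhdsWithin_le_nhds
    apply hc0.continuousAt.preimage_mem_nhds
    simp only [zero_smul, add_zero]
    exact W.opn.mem_nhds hx
  have h2 : ∀ k, ∀ᶠ e : ℝ in 𝓝[>] 0, SignType.sign (ev W.H k (x + e • w)) ≠ 0 ∧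
      (SignType.sign (ev W.H k x) ≠ 0 →
        SignType.sign (ev W.H k (x + e • w)) = SignType.sign (ev W.H k x)) := by
    intro k
    have hck : Continuous (fun e : ℝ => ev W.H k (x + e • w)) := by
      simp only [hev]
      fun_prop
    rcases lt_trichotomy (ev W.H k x) 0 with h | h | h
    · have : ∀ᶠ e : ℝ in 𝓝[>] 0, ev W.H k (x + e • w) < 0 := by
        apply nhdsWithin_le_nhds
        apply hck.continuousAt.eventually_lt continuousAt_const
        simpa using h
      filter_upwards [this] with e he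
      rw [sign_neg he, sign_neg h]
      decide
    · filter_upwards [self_mem_nhdsWithin] with e he
      rw [hev, h, zero_add]
      refine ⟨?_, fun h' => absurd sign_zero h'⟩
      exact sign_ne_zero.2 (mul_ne_zero (ne_of_gt he) (hw k))
    · have : ∀ᶠ e : ℝ in 𝓝[>] 0, 0 < ev W.H k (x + e • w) := by
        apply nhdsWithin_le_nhds
        apply continuousAt_const.eventually_lt hck.continuousAt
        simpa using h
      filter_upwards [this] with e he
      rw [sign_pos he, sign_pos h]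
      decide
  obtain ⟨e, he1, he2⟩ := (h1.and (eventually_all.2 h2)).exists
  exact ⟨sg W.H (x + e • w), ⟨_, he1, rfl⟩, fun k hk => (he2 k).2 hk, fun k => (he2 k).1⟩

end Pool.Agent.Lib.MP_7c3106_co.Cha
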