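import Pool.Agent.Lib.MP_7c3106_co.Iface

/-!
MP_7c3106_co, board CELL, row CON.
-/

namespace Pool.Agent.Lib.MP_7c3106_co.Con

open Topology

theorem continuous_ev {d : ℕ} {κ : Type} (H : Arr d κ) (k : κ) : Continuous (ev H k) := by
  unfold ev dotProduct
  fun_prop

/-- Near `x` every point `y` has `sg x ≤ sg y`. -/
theorem eventually_le {d : ℕ} {κ : Type} [Finite κ] (H : Arr d κ) (x : Fin d → ℝ) :
    ∀ᶠ y in 𝓝 x, Le (sg H x) (sg H y) := by
  have h : ∀ k : κ, ∀ᶠ y in 𝓝 x, sg H x k ≠ 0 → sg H y k = sg H x k := by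
    intro k
    rcases lt_trichotomy (ev H k x) 0 with h | h | h
    · filter_upwards [(continuous_ev H k).continuousAt.eventually_lt_const h] with y hy _
      unfold sg
      rw [sign_neg h, sign_neg hy]
    · refine Filter.Eventually.of_forall fun y hne => (hne ?_).elim
      unfold sg
      rw [h, sign_zero]
    · filter_upwards [(continuous_ev H k).continuousAt.eventually_const_lt h] with y hy _
      unfold sg
      rw [sign_pos h, sign_pos hy]
  exact Filter.eventually_all.2 h

theorem con : ConStatement := by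
  intro d κ α _ H Y hY f hf x hx y hy
  have hpre : PreconnectedSpace Y := Subtype.preconnectedSpace hY
  have hloc : IsLocallyConstant (fun z : Y => f (sg H (z : Fin d → ℝ))) := by
    rw [IsLocallyConstant.iff_eventually_eq]
    intro z
    have h1 : ∀ᶠ w : Y in 𝓝 z, Le (sg H (z : Fin d → ℝ)) (sg H (w : Fin d → ℝ)) :=
      continuous_subtype_val.continuousAt.eventually (eventually_le H (z : Fin d → ℝ))
    filter_upwards [h1] with w hw
    exact (hf z z.2 w w.2 hw).symm
  exact hloc.apply_eq_of_preconnectedSpace ⟨x, hx⟩ ⟨y, hy⟩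

end Pool.Agent.Lib.MP_7c3106_co.Con
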