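import Pool.Agent.Lib.MP_7c3106_co.Iface

/-!
MP_7c3106_co, board CELL, row WLD: a cell of an arrangement of patches gives a `Wld`.
-/

set_option linter.unusedSectionVars false

namespace Pool.Agent.Lib.MP_7c3106_co.WldRow

variable {d m : ℕ} {ι : Type}

theorem dot_cont (a : Fin d → ℝ) : Continuous (fun x : Fin d → ℝ => a ⬝ᵥ x) := by
  unfold dotProduct
  fun_prop

theorem car_closed (T : Patch d m) : IsClosed T.car := by
  have h : T.car = {x | T.a ⬝ᵥ x = T.b} ∩ ⋂ j, {x | T.c j ≤ T.l j ⬝ᵥ x} := by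
    ext x
    simp [Patch.car]
  rw [h]
  refine (isClosed_eq (dot_cont _) continuous_const).inter ?_
  exact isClosed_iInter fun j => isClosed_le continuous_const (dot_cont _)

theorem l_ne (T : Patch d m) (j : Fin m) : T.l j ≠ 0 := by
  have := (T.nd j).ne_zero 1
  simpa using this

section

variable [Fintype ι] (T : ι → Patch d m) (R : ℝ)

theorem compl_open : IsOpen (⋃ i, (T i).car)ᶜ :=
  (isClosed_iUnion_of_finite fun i => car_closed (T i)).isOpen_compl

theorem cell_open (x : Fin d → ℝ) : IsOpen (cell T x) :=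
  (compl_open T).connectedComponentIn

theorem cell_sub (x : Fin d → ℝ) : cell T x ⊆ (⋃ i, (T i).car)ᶜ :=
  connectedComponentIn_subset _ _

/-- A preconnected set in the complement which meets a cell is inside the cell. -/
theorem sub_cell {x : Fin d → ℝ} {Y : Set (Fin d → ℝ)} (hY : IsPreconnected Y)
    (h1 : Y ⊆ (⋃ i, (T i).car)ᶜ) {z : Fin d → ℝ} (hz : z ∈ Y) (hz' : z ∈ cell T x) :
    Y ⊆ cell T x := by
  have h2 : cell T x = connectedComponentIn (⋃ i, (T i).car)ᶜ z := connectedComponentIn_eq hz'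
  rw [h2]
  exact hY.subset_connectedComponentIn hz h1

/-! ### signs -/

theorem ev_a (i : ι) (y : Fin d → ℝ) : ev (HH T R) (Sum.inl i) y = (T i).a ⬝ᵥ y - (T i).b := rfl

theorem ev_l (q : ι × Fin m) (y : Fin d → ℝ) :
    ev (HH T R) (Sum.inr (Sum.inl q)) y = (T q.1).l q.2 ⬝ᵥ y - (T q.1).c q.2 := rfl

theorem ev_u (j : Fin d) (y : Fin d → ℝ) :
    ev (HH T R) (Sum.inr (Sum.inr (Sum.inl j))) y = y j - R := by
  show (Pi.single j (1 : ℝ)) ⬝ᵥ y - R = y j - R
  rw [single_dotProduct, one_mul]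

theorem ev_d (j : Fin d) (y : Fin d → ℝ) :
    ev (HH T R) (Sum.inr (Sum.inr (Sum.inr j))) y = y j + R := by
  show (Pi.single j (1 : ℝ)) ⬝ᵥ y - (-R) = y j + R
  rw [single_dotProduct, one_mul]; ring

theorem mem_car_iff (i : ι) (y : Fin d → ℝ) : y ∈ (T i).car ↔
    sg (HH T R) y (Sum.inl i) = 0 ∧ ∀ j, sg (HH T R) y (Sum.inr (Sum.inl (i, j))) ≠ -1 := by
  unfold sg
  constructor
  · rintro ⟨h1, h2⟩
    refine ⟨?_, fun j h3 => ?_⟩
    · rw [sign_eq_zero_iff, ev_a, h1, sub_self]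
    · rw [sign_eq_neg_one_iff, ev_l] at h3
      have := h2 j
      simp only at h3
      linarith
  · rintro ⟨h1, h2⟩
    rw [sign_eq_zero_iff, ev_a] at h1
    refine ⟨by linarith, fun j => ?_⟩
    by_contra h3
    apply h2 j
    rw [sign_eq_neg_one_iff, ev_l]
    simp only
    linarith [not_le.1 h3]

theorem mem_ball_iff {R : ℝ} (hR : 0 < R) (y : Fin d → ℝ) : y ∈ Metric.ball (0 : Fin d → ℝ) R ↔
    ∀ j, y j - R < 0 ∧ 0 < y j + R := by
  rw [mem_ball_zero_iff, pi_norm_lt_iff hR]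
  refine forall_congr' fun j => ?_
  rw [Real.norm_eq_abs, abs_lt]
  constructor
  · rintro ⟨h1, h2⟩; exact ⟨by linarith, by linarith⟩
  · rintro ⟨h1, h2⟩; exact ⟨by linarith, by linarith⟩

theorem sat (hR : 0 < R) (x : Fin d → ℝ) : ∀ z ∈ cell T x ∩ Metric.ball 0 R, ∀ y,
    sg (HH T R) y = sg (HH T R) z → y ∈ cell T x ∩ Metric.ball 0 R := by
  intro z hz y hy
  have hconv : Convex ℝ {w | sg (HH T R) w = sg (HH T R) z} := by
    intro u hu v hv a b ha hb hab
    have key : ∀ k, ev (HH T R) k (a • u + b • v) = a * ev (HH T R) k u + b * ev (HH T R) k v := by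
      intro k
      unfold ev
      rw [dotProduct_add, dotProduct_smul, dotProduct_smul, smul_eq_mul, smul_eq_mul]
      have : (HH T R k).2 = a * (HH T R k).2 + b * (HH T R k).2 := by rw [← add_mul, hab, one_mul]
      linarith
    funext k
    have hu' := congrFun hu k
    have hv' := congrFun hv k
    unfold sg at hu' hv' ⊢
    rw [key k]
    rcases lt_trichotomy (ev (HH T R) k z) 0 with h | h | h
    · rw [sign_neg h] at hu' hv' ⊢
      rw [sign_eq_neg_one_iff] at hu' hv' ⊢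
      rcases eq_or_lt_of_le ha with h0 | h0
      · have hb1 : b = 1 := by linarith
        rw [← h0, hb1]; linarith
      · have := mul_neg_of_pos_of_neg h0 hu'
        have := mul_nonpos_of_nonneg_of_nonpos hb hv'.le
        linarith
    · rw [h, sign_zero] at hu' hv' ⊢
      rw [sign_eq_zero_iff] at hu' hv' ⊢
      rw [hu', hv']; ring
    · rw [sign_pos h] at hu' hv' ⊢
      rw [sign_eq_one_iff] at hu' hv' ⊢
      rcases eq_or_lt_of_le ha with h0 | h0
      · have hb1 : b = 1 := by linarith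
        rw [← h0, hb1]; linarith
      · have := mul_pos h0 hu'
        have := mul_nonneg hb hv'.le
        linarith
  have h1 : {w | sg (HH T R) w = sg (HH T R) z} ⊆ (⋃ i, (T i).car)ᶜ := by
    intro w hw hw'
    obtain ⟨i, hi⟩ := Set.mem_iUnion.1 hw'
    rw [mem_car_iff T R, hw, ← mem_car_iff] at hi
    exact cell_sub T x hz.1 (Set.mem_iUnion.2 ⟨i, hi⟩)
  refine ⟨sub_cell T hconv.isPreconnected h1 (rfl : sg (HH T R) z = sg (HH T R) z) hz.1 hy, ?_⟩
  rw [mem_ball_iff hR]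
  intro j
  have hz2 := (mem_ball_iff hR z).1 hz.2 j
  have h3 := congrFun hy (Sum.inr (Sum.inr (Sum.inl j)))
  have h4 := congrFun hy (Sum.inr (Sum.inr (Sum.inr j)))
  unfold sg at h3 h4
  rw [ev_u, ev_u, sign_neg hz2.1, sign_eq_neg_one_iff] at h3
  rw [ev_d, ev_d, sign_pos hz2.2, sign_eq_one_iff] at h4
  exact ⟨h3, h4⟩

theorem bdd (hR : 0 < R) (x : Fin d → ℝ) : ∀ z ∈ cell T x ∩ Metric.ball 0 R,
    Bornology.IsBounded (cl (HH T R) (sg (HH T R) z)) := by
  intro z hz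
  refine (Metric.isBounded_closedBall (x := (0 : Fin d → ℝ)) (r := R)).subset fun y hy => ?_
  rw [mem_closedBall_zero_iff, pi_norm_le_iff_of_nonneg hR.le]
  intro j
  have hz2 := (mem_ball_iff hR z).1 hz.2 j
  rw [Real.norm_eq_abs, abs_le]
  constructor
  · by_contra h
    have h1 : y j + R < 0 := by linarith [not_le.1 h]
    have h2 : sg (HH T R) y (Sum.inr (Sum.inr (Sum.inr j))) = -1 := by
      unfold sg; rw [ev_d, sign_neg h1]
    have h3 := hy (Sum.inr (Sum.inr (Sum.inr j))) (by rw [h2]; decide)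
    rw [h2] at h3
    unfold sg at h3
    rw [ev_d, sign_pos hz2.2] at h3
    exact absurd h3 (by decide)
  · by_contra h
    have h1 : 0 < y j - R := by linarith [not_le.1 h]
    have h2 : sg (HH T R) y (Sum.inr (Sum.inr (Sum.inl j))) = 1 := by
      unfold sg; rw [ev_u, sign_pos h1]
    have h3 := hy (Sum.inr (Sum.inr (Sum.inl j))) (by rw [h2]; decide)
    rw [h2] at h3
    unfold sg at h3
    rw [ev_u, sign_neg hz2.1] at h3
    exact absurd h3 (by decide)

theorem loc (x v : Fin d → ℝ) : ∃ r > 0, ∀ Y ⊆ Metric.ball v r ∩ Metric.ball 0 R,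
    IsPreconnected Y → (∀ y ∈ Y, ∀ i ∈ Iv T v, ev (HH T R) (Sum.inl i) y ≠ 0) →
    (Y ∩ (cell T x ∩ Metric.ball 0 R)).Nonempty → Y ⊆ cell T x ∩ Metric.ball 0 R := by
  classical
  have h0 : IsOpen (⋂ i : {i // v ∉ (T i).car}, ((T i.1).car)ᶜ) :=
    isOpen_iInter_of_finite fun i => (car_closed (T i.1)).isOpen_compl
  obtain ⟨r, hr, hr2⟩ := Metric.isOpen_iff.1 h0 v (Set.mem_iInter.2 fun i => i.2)
  refine ⟨r, hr, fun Y hY hc hi ⟨z, hz, hz'⟩ => ?_⟩
  have h1 : Y ⊆ (⋃ i, (T i).car)ᶜ := by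
    intro y hy hy'
    obtain ⟨i, hyi⟩ := Set.mem_iUnion.1 hy'
    by_cases hv : v ∈ (T i).car
    · apply hi y hy i (by simp [Iv, hv])
      rw [ev_a, hyi.1, sub_self]
    · exact Set.mem_iInter.1 (hr2 (hY hy).1) ⟨i, hv⟩ hyi
  exact fun y hy => ⟨sub_cell T hc h1 hz hz'.1 hy, (hY hy).2⟩

theorem nbd (x v : Fin d → ℝ) (hv : ¬ Bdv T v) (z : Fin d → ℝ)
    (hz : z ∈ cell T x ∩ Metric.ball 0 R) (hvz : v ∈ cl (HH T R) (sg (HH T R) z)) :
    ∀ i ∈ Iv T v, sg (HH T R) z (Sum.inl i) ≠ 0 := by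
  intro i hi h0
  have hvi : v ∈ (T i).car := by simpa [Iv] using hi
  apply cell_sub T x hz.1
  refine Set.mem_iUnion.2 ⟨i, (mem_car_iff T R i z).2 ⟨h0, fun j h1 => ?_⟩⟩
  have h2 : 0 < (T i).l j ⬝ᵥ v - (T i).c j := by
    have h3 := hvi.2 j
    have h4 : (T i).l j ⬝ᵥ v ≠ (T i).c j := fun h => hv ⟨i, j, hvi, h⟩
    have := lt_of_le_of_ne h3 (Ne.symm h4)
    linarith
  have h5 : sg (HH T R) v (Sum.inr (Sum.inl (i, j))) = 1 := by
    unfold sg
    rw [ev_l, sign_eq_one_iff]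
    exact h2
  have h6 := hvz (Sum.inr (Sum.inl (i, j))) (by rw [h5]; decide)
  rw [h5, h1] at h6
  exact absurd h6 (by decide)

end

theorem wld (h : BoxStatement) : WldStatement := by
  intro d m ι _ T R₀ R h0 h1 h2 x hx
  have hR : 0 < R := h0.trans h1
  refine ⟨Wld.mk (HH T R) (Metric.ball 0 R) (cell T x ∩ Metric.ball 0 R) (Iv T) Sum.inl (Bdv T)
    ?_ (convex_ball _ _) Set.inter_subset_right ((cell_open T x).inter Metric.isOpen_ball)
    (h d m ι T R₀ R h0 h1 h2 x hx) (sat T R hR x) (bdd T R hR x) (loc T R x) (nbd T R x) ?_,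
    rfl, rfl, rfl, rfl, rfl, rfl⟩
  · rintro (i | q | j | j)
    · exact (T i).ha
    · exact l_ne (T q.1) q.2
    · show (Pi.single j (1 : ℝ) : Fin d → ℝ) ≠ 0
      intro h3
      have := congrFun h3 j
      simp at this
    · show (Pi.single j (1 : ℝ) : Fin d → ℝ) ≠ 0
      intro h3
      have := congrFun h3 j
      simp at this
  · intro v i hi
    have hvi : v ∈ (T i).car := by simpa [Iv] using hi
    rw [ev_a, hvi.1, sub_self]

end Pool.Agent.Lib.MP_7c3106_co.WldRow
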