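import Pool.Agent.Lib.MP_7c3106_co.Iface2
import Pool.Agent.Lib.MP_7c3106_co.Wld

/-!
MP_7c3106_co, row CVX: a cell whose closure contains no point of the relative boundary of a patch
is convex.
-/

namespace Pool.Agent.Lib.MP_7c3106_co.Cvx

open Pool.Agent.Lib.MP_7c3106_co

theorem cvx : CvxStatement := by
  classical
  intro d m ι _ T x hx hB
  set C := cell T x with hC
  have hCo : IsOpen C := WldRow.cell_open T x
  have hCsub : C ⊆ (⋃ i, (T i).car)ᶜ := WldRow.cell_sub T x
  have hCc : IsPreconnected C := isPreconnected_connectedComponentIn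
  -- a point of the closure which is not in a patch is in the cell
  have hcl : ∀ z ∈ closure C, z ∉ C → ∃ i, z ∈ (T i).car := by
    intro z hz hzC
    by_contra hcon
    push Not at hcon
    apply hzC
    have hz' : z ∈ (⋃ i, (T i).car)ᶜ := by
      rw [Set.mem_compl_iff, Set.mem_iUnion]
      rintro ⟨i, hi⟩
      exact hcon i hi
    have h1 : IsPreconnected (insert z C) := by
      apply hCc.subset_closure (Set.subset_insert _ _)
      intro w hw
      rcases Set.mem_insert_iff.mp hw with h | h
      · rw [h]; exact hz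
      · exact subset_closure h
    have h2 : insert z C ⊆ (⋃ i, (T i).car)ᶜ := by
      intro w hw
      rcases Set.mem_insert_iff.mp hw with h | h
      · rw [h]; exact hz'
      · exact hCsub h
    have hxC : x ∈ C := mem_connectedComponentIn hx
    exact h1.subset_connectedComponentIn (Set.mem_insert_of_mem _ hxC) h2
      (Set.mem_insert _ _)
  rw [convex_iff_segment_subset]
  intro p hp
  set S : Set (Fin d → ℝ) := {y | y ∈ C ∧ segment ℝ p y ⊆ C} with hS
  have hseg : ∀ y, segment ℝ p y = (fun t : ℝ => p + t • (y - p)) '' Set.Icc 0 1 := by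
    intro y
    rw [segment_eq_image']
  -- S is open
  have hSo : IsOpen S := by
    rw [isOpen_iff_eventually]
    rintro y ⟨hy, hyS⟩
    have hc : Continuous (fun q : (Fin d → ℝ) × ℝ => p + q.2 • (q.1 - p)) := by fun_prop
    have h1 : ∀ᶠ y' in nhds y, ∀ t ∈ Set.Icc (0 : ℝ) 1, p + t • (y' - p) ∈ C := by
      apply isCompact_Icc.eventually_forall_of_forall_eventually
      intro t ht
      have h2 : p + t • (y - p) ∈ C := by
        apply hyS
        rw [hseg]
        exact ⟨t, ht, rfl⟩
      exact hc.continuousAt.eventually (hCo.mem_nhds h2)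
    filter_upwards [h1, hCo.mem_nhds hy] with y' h2 h3
    refine ⟨h3, ?_⟩
    rw [hseg]
    rintro _ ⟨t, ht, rfl⟩
    exact h2 t ht
  -- S is closed in C
  have hScl : ∀ y ∈ C, y ∈ closure S → y ∈ S := by
    intro y hy hyS
    refine ⟨hy, ?_⟩
    have hcs : ∀ t ∈ Set.Icc (0 : ℝ) 1, p + t • (y - p) ∈ closure C := by
      intro t ht
      have hc : Continuous (fun y' : Fin d → ℝ => p + t • (y' - p)) := by fun_prop
      have h1 : (fun y' : Fin d → ℝ => p + t • (y' - p)) y ∈
          closure ((fun y' : Fin d → ℝ => p + t • (y' - p)) '' S) :=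
        image_closure_subset_closure_image hc ⟨y, hyS, rfl⟩
      refine closure_mono ?_ h1
      rintro _ ⟨y', hy', rfl⟩
      apply hy'.2
      rw [hseg]
      exact ⟨t, ht, rfl⟩
    rw [hseg]
    rintro _ ⟨t₀, ht₀, rfl⟩
    show p + t₀ • (y - p) ∈ C
    by_contra hzC
    obtain ⟨i, hi⟩ := hcl _ (hcs t₀ ht₀) hzC
    have hnB := hB _ (hcs t₀ ht₀)
    have hlpos : ∀ j, 0 < (T i).l j ⬝ᵥ (p + t₀ • (y - p)) - (T i).c j := by
      intro j
      rcases (hi.2 j).lt_or_eq with h | h
      · linarith
      · exact absurd ⟨i, j, hi, h.symm⟩ hnB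
    by_cases hw : (T i).a ⬝ᵥ (y - p) = 0
    · -- the segment is in the hyperplane
      have hin : ∀ t : ℝ, (T i).a ⬝ᵥ (p + t • (y - p)) = (T i).b := by
        intro t
        have h1 := hi.1
        rw [dotProduct_add, dotProduct_smul, hw, smul_zero] at h1 ⊢
        exact h1
      have hpre : IsPreconnected (Set.Icc (0 : ℝ) 1) := isPreconnected_Icc
      have hlc : ∀ j, Continuous (fun t : ℝ => (T i).l j ⬝ᵥ (p + t • (y - p)) - (T i).c j) := by
        intro j
        have : Continuous (fun t : ℝ => p + t • (y - p)) := by fun_prop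
        exact (continuous_const.dotProduct this).sub continuous_const
      have h := hpre {t | ∀ j, 0 < (T i).l j ⬝ᵥ (p + t • (y - p)) - (T i).c j}
        {t | ∃ j, (T i).l j ⬝ᵥ (p + t • (y - p)) - (T i).c j < 0} ?_ ?_ ?_ ?_ ?_
      · obtain ⟨t, -, h1, j, h2⟩ := h
        exact absurd (h1 j) (not_lt.mpr h2.le)
      · have : {t : ℝ | ∀ j, 0 < (T i).l j ⬝ᵥ (p + t • (y - p)) - (T i).c j} =
            ⋂ j, {t | 0 < (T i).l j ⬝ᵥ (p + t • (y - p)) - (T i).c j} := by
          ext t; simp
        rw [this]
        exact isOpen_iInter_of_finite (fun j => isOpen_lt continuous_const (hlc j))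
      · have : {t : ℝ | ∃ j, (T i).l j ⬝ᵥ (p + t • (y - p)) - (T i).c j < 0} =
            ⋃ j, {t | (T i).l j ⬝ᵥ (p + t • (y - p)) - (T i).c j < 0} := by
          ext t; simp
        rw [this]
        exact isOpen_iUnion (fun j => isOpen_lt (hlc j) continuous_const)
      · intro t ht
        by_cases hall : ∀ j, 0 ≤ (T i).l j ⬝ᵥ (p + t • (y - p)) - (T i).c j
        · left
          intro j
          rcases (hall j).lt_or_eq with h1 | h1
          · exact h1
          · exfalso
            apply hB _ (hcs t ht)
            refine ⟨i, j, ⟨hin t, fun j' => ?_⟩, ?_⟩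
            · have := hall j'
              linarith
            · linarith
        · right
          push Not at hall
          exact hall
      · exact ⟨t₀, ht₀, hlpos⟩
      · refine ⟨0, ⟨le_rfl, zero_le_one⟩, ?_⟩
        by_contra hcon
        have hcon' : ∀ j, 0 ≤ (T i).l j ⬝ᵥ (p + (0 : ℝ) • (y - p)) - (T i).c j := by
          intro j
          by_contra h1
          exact hcon ⟨j, not_le.mp h1⟩
        apply hCsub hp
        refine Set.mem_iUnion.mpr ⟨i, ?_, ?_⟩
        · have := hin 0
          rwa [zero_smul, add_zero] at this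
        · intro j
          have := hcon' j
          rw [zero_smul, add_zero] at this
          linarith
    · -- the segment is transversal
      have ht0 : 0 < t₀ := by
        rcases ht₀.1.lt_or_eq with h | h
        · exact h
        · exfalso
          apply hzC
          rw [← h, zero_smul, add_zero]
          exact hp
      have ht1 : t₀ < 1 := by
        rcases ht₀.2.lt_or_eq with h | h
        · exact h
        · exfalso
          apply hzC
          rw [h, one_smul, add_sub_cancel]
          exact hy
      -- a small interval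
      have hlc : ∀ j, Continuous (fun q : (Fin d → ℝ) × ℝ =>
          (T i).l j ⬝ᵥ (p + q.2 • (q.1 - p)) - (T i).c j) := by
        intro j
        have : Continuous (fun q : (Fin d → ℝ) × ℝ => p + q.2 • (q.1 - p)) := by fun_prop
        exact (continuous_const.dotProduct this).sub continuous_const
      have hev : ∀ᶠ t in nhds t₀, 0 < t ∧ t < 1 ∧
          ∀ j, 0 < (T i).l j ⬝ᵥ (p + t • (y - p)) - (T i).c j := by
        refine (lt_mem_nhds ht0).and ((gt_mem_nhds ht1).and ?_)
        rw [Filter.eventually_all]
        intro j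
        have : Continuous (fun t : ℝ => (T i).l j ⬝ᵥ (p + t • (y - p)) - (T i).c j) := by
          have : Continuous (fun t : ℝ => p + t • (y - p)) := by fun_prop
          exact (continuous_const.dotProduct this).sub continuous_const
        exact this.continuousAt.eventually (lt_mem_nhds (hlpos j))
      obtain ⟨δ, hδ, hball⟩ := Metric.eventually_nhds_iff_ball.mp hev
      have hmem : ∀ s : ℝ, |s - t₀| < δ → 0 < s ∧ s < 1 ∧
          ∀ j, 0 < (T i).l j ⬝ᵥ (p + s • (y - p)) - (T i).c j := by
        intro s hs
        exact hball s (by rw [Metric.mem_ball, Real.dist_eq]; exact hs)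
      set A := (T i).a ⬝ᵥ (y - p) with hA
      set s₁ := t₀ - δ / 2 with hs₁
      set s₂ := t₀ + δ / 2 with hs₂
      have hm1 := hmem s₁ (by rw [hs₁]; rw [abs_lt]; constructor <;> linarith)
      have hm2 := hmem s₂ (by rw [hs₂]; rw [abs_lt]; constructor <;> linarith)
      have hval : ∀ s : ℝ, (T i).a ⬝ᵥ (p + s • (y - p)) - (T i).b = (s - t₀) * A := by
        intro s
        have h1 := hi.1
        rw [dotProduct_add, dotProduct_smul, smul_eq_mul] at h1 ⊢
        rw [hA]
        linarith
      have hac : ∀ s : ℝ, Continuous (fun y' : Fin d → ℝ =>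
          (T i).a ⬝ᵥ (p + s • (y' - p)) - (T i).b) := by
        intro s
        have : Continuous (fun y' : Fin d → ℝ => p + s • (y' - p)) := by fun_prop
        exact (continuous_const.dotProduct this).sub continuous_const
      have hljc : ∀ (s : ℝ) (j : Fin m), Continuous (fun y' : Fin d → ℝ =>
          (T i).l j ⬝ᵥ (p + s • (y' - p)) - (T i).c j) := by
        intro s j
        have : Continuous (fun y' : Fin d → ℝ => p + s • (y' - p)) := by fun_prop
        exact (continuous_const.dotProduct this).sub continuous_const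
      have hprod : ((T i).a ⬝ᵥ (p + s₁ • (y - p)) - (T i).b) *
          ((T i).a ⬝ᵥ (p + s₂ • (y - p)) - (T i).b) < 0 := by
        rw [hval, hval, hs₁, hs₂]
        have h1 : (t₀ - δ / 2 - t₀) * A * ((t₀ + δ / 2 - t₀) * A) = - ((δ / 2) ^ 2 * A ^ 2) := by
          ring
        rw [h1]
        have h2 : 0 < A ^ 2 := by positivity
        have h3 : 0 < (δ / 2) ^ 2 * A ^ 2 := by positivity
        linarith
      have hnear : ∀ᶠ y' in nhds y, ((T i).a ⬝ᵥ (p + s₁ • (y' - p)) - (T i).b) *
          ((T i).a ⬝ᵥ (p + s₂ • (y' - p)) - (T i).b) < 0 ∧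
          (∀ j, 0 < (T i).l j ⬝ᵥ (p + s₁ • (y' - p)) - (T i).c j) ∧
          (∀ j, 0 < (T i).l j ⬝ᵥ (p + s₂ • (y' - p)) - (T i).c j) := by
        refine Filter.Eventually.and ?_ (Filter.Eventually.and ?_ ?_)
        · exact ((hac s₁).mul (hac s₂)).continuousAt.eventually (gt_mem_nhds hprod)
        · rw [Filter.eventually_all]
          intro j
          exact (hljc s₁ j).continuousAt.eventually (lt_mem_nhds (hm1.2.2 j))
        · rw [Filter.eventually_all]
          intro j
          exact (hljc s₂ j).continuousAt.eventually (lt_mem_nhds (hm2.2.2 j))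
      obtain ⟨y', ⟨hy1, hy2, hy3⟩, hy'S⟩ := mem_closure_iff_nhds.mp hyS _ hnear
      -- the zero
      set α := (T i).a ⬝ᵥ (p + s₁ • (y' - p)) - (T i).b with hα
      set β := (T i).a ⬝ᵥ (p + s₂ • (y' - p)) - (T i).b with hβ
      have hαβ : α - β ≠ 0 := by
        intro h0
        have : α = β := by linarith
        rw [this] at hy1
        nlinarith [mul_self_nonneg β]
      set r := α / (α - β) with hr
      have hr0 : 0 ≤ r ∧ r ≤ 1 := by
        rcases lt_trichotomy α 0 with h | h | h
        · have hβ0 : 0 < β := by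
            by_contra hcon
            push Not at hcon
            nlinarith [mul_nonneg_of_nonpos_of_nonpos h.le hcon]
          have h1 : α - β < 0 := by linarith
          rw [hr]
          constructor
          · exact div_nonneg_of_nonpos h.le h1.le
          · rw [div_le_one_of_neg h1]
            linarith
        · rw [h, zero_mul] at hy1
          exact absurd hy1 (lt_irrefl _)
        · have hβ0 : β < 0 := by
            by_contra hcon
            push Not at hcon
            nlinarith [mul_nonneg h.le hcon]
          have h1 : 0 < α - β := by linarith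
          rw [hr]
          constructor
          · exact div_nonneg h.le h1.le
          · rw [div_le_one h1]
            linarith
      set s := (1 - r) * s₁ + r * s₂ with hs
      have hcomb : ∀ (a : Fin d → ℝ) (b : ℝ), a ⬝ᵥ (p + s • (y' - p)) - b =
          (1 - r) * (a ⬝ᵥ (p + s₁ • (y' - p)) - b) + r * (a ⬝ᵥ (p + s₂ • (y' - p)) - b) := by
        intro a b
        rw [dotProduct_add, dotProduct_add, dotProduct_add, dotProduct_smul, dotProduct_smul,
          dotProduct_smul, smul_eq_mul, smul_eq_mul, smul_eq_mul, hs]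
        ring
      have hzero : (T i).a ⬝ᵥ (p + s • (y' - p)) - (T i).b = 0 := by
        rw [hcomb, ← hα, ← hβ, hr]
        field_simp
        ring
      have hsI : s ∈ Set.Icc (0 : ℝ) 1 := by
        rw [hs]
        constructor
        · nlinarith [hm1.1, hm2.1, hr0.1, hr0.2]
        · nlinarith [hm1.2.1, hm2.2.1, hr0.1, hr0.2]
      have hinC : p + s • (y' - p) ∈ C := by
        apply hy'S.2
        rw [hseg]
        exact ⟨s, hsI, rfl⟩
      apply hCsub hinC
      refine Set.mem_iUnion.mpr ⟨i, by linarith, ?_⟩
      intro j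
      have h1 := hcomb ((T i).l j) ((T i).c j)
      have h2 : 0 ≤ (1 - r) * ((T i).l j ⬝ᵥ (p + s₁ • (y' - p)) - (T i).c j) :=
        mul_nonneg (by linarith [hr0.2]) (hy2 j).le
      have h3 : 0 ≤ r * ((T i).l j ⬝ᵥ (p + s₂ • (y' - p)) - (T i).c j) :=
        mul_nonneg hr0.1 (hy3 j).le
      linarith
  -- connectedness
  have hpS : p ∈ S := ⟨hp, by rw [segment_same]; exact Set.singleton_subset_iff.mpr hp⟩
  have hall : C ⊆ S := by
    intro y hy
    by_contra hyS
    have hyc : y ∉ closure S := fun h => hyS (hScl y hy h)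
    have h := hCc S (C ∩ (closure S)ᶜ) hSo (hCo.inter isClosed_closure.isOpen_compl) (by
      intro z hz
      by_cases h1 : z ∈ closure S
      · exact Or.inl (hScl z hz h1)
      · exact Or.inr ⟨hz, h1⟩) ⟨p, hp, hpS⟩ ⟨y, hy, hy, hyc⟩
    obtain ⟨z, -, h1, -, h2⟩ := h
    exact h2 (subset_closure h1)
  intro y hy
  exact (hall hy).2

end Pool.Agent.Lib.MP_7c3106_co.Cvx
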