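import Mathlib

/-!
MP_7c3106_co: arrangements of polytopal patches in `ℝ^d`, cells, faces on the boundary of a cell.
Definitions used by the statement.
-/

namespace Pool.Agent.Lib.MP_7c3106_co

/-- The data of a convex patch of a hyperplane of `ℝ^d` with `m` facets (some of them may be
redundant): the hyperplane `a x = b` and the half spaces `c j ≤ l j x`. -/
structure Patch (d m : ℕ) where
  a : Fin d → ℝ
  b : ℝ
  l : Fin m → (Fin d → ℝ)
  c : Fin m → ℝ
  ha : a ≠ 0
  nd : ∀ j, LinearIndependent ℝ ![a, l j]

/-- The set of points of a patch. -/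
def Patch.car {d m : ℕ} (T : Patch d m) : Set (Fin d → ℝ) :=
  {x | T.a ⬝ᵥ x = T.b ∧ ∀ j, T.c j ≤ T.l j ⬝ᵥ x}

/-- The cell of the arrangement of the patches `T i` which contains `x`: the connected component
of `x` in the complement of the union. -/
def cell {d m : ℕ} {ι : Type} (T : ι → Patch d m) (x : Fin d → ℝ) : Set (Fin d → ℝ) :=
  connectedComponentIn (⋃ i, (T i).car)ᶜ x

/-- The type of a point: the patches through the point, and the bounding half spaces of these
patches which have the point on their boundary. -/
def tp {d m : ℕ} {ι : Type} (T : ι → Patch d m) (y : Fin d → ℝ) : Set ι × Set (ι × Fin m) :=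
  ({i | y ∈ (T i).car}, {q | y ∈ (T q.1).car ∧ (T q.1).l q.2 ⬝ᵥ y = (T q.1).c q.2})

/-- The face of the arrangement which contains `y`: the connected component of `y` in the set of
all points of the same type. -/
def face {d m : ℕ} {ι : Type} (T : ι → Patch d m) (y : Fin d → ℝ) : Set (Fin d → ℝ) :=
  connectedComponentIn {z | tp T z = tp T y} y

/-- The faces of all dimensions of the arrangement which contain a boundary point of `C`. -/
def bdFaces {d m : ℕ} {ι : Type} (T : ι → Patch d m) (C : Set (Fin d → ℝ)) :
    Set (Set (Fin d → ℝ)) :=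
  {f | ∃ y ∈ frontier C, f = face T y}

/-- `u` has a strict local minimum at `p` on a branch of `C`: a component of the intersection of
`C` with a ball around `p`. -/
def BranchMin {d : ℕ} (C : Set (Fin d → ℝ)) (u p : Fin d → ℝ) : Prop :=
  ∃ r > 0, ∃ y ∈ C ∩ Metric.ball p r,
    p ∈ closure (connectedComponentIn (C ∩ Metric.ball p r) y) ∧
    ∀ x ∈ closure (connectedComponentIn (C ∩ Metric.ball p r) y), x ≠ p → u ⬝ᵥ p < u ⬝ᵥ x

end Pool.Agent.Lib.MP_7c3106_co
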