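import Pool.Agent.Lib.MP_7c3106_co.Iface

/-!
MP_7c3106_co, board CELL, row LOC: the local lemma. Two nodes with `v` on their closed faces, born
before `u v`, and with the same non-zero signs at the patches through `v`, are connected by nodes
born before `u v`.
-/

namespace Pool.Agent.Lib.MP_7c3106_co.Loc

open Pool.Agent.Lib.MP_7c3106_co

variable {d : ℕ} {κ ι : Type}

theorem convex_sign (H : Arr d κ) (k : κ) (s : SignType) (hs : s ≠ 0) :
    Convex ℝ {x : Fin d → ℝ | sg H x k = s} := by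
  intro x hx y hy a b ha hb hab
  simp only [Set.mem_setOf_eq, sg] at hx hy ⊢
  have e : ev H k (a • x + b • y) = a * ev H k x + b * ev H k y := by
    simp only [ev, dotProduct_add, dotProduct_smul, smul_eq_mul]
    have : (H k).2 = (a + b) * (H k).2 := by rw [hab, one_mul]
    linear_combination -this
  rw [e]
  rcases SignType.trichotomy s with h | h | h
  · subst h
    rw [sign_eq_neg_one_iff] at hx hy ⊢
    rcases ha.eq_or_lt with h0 | h0
    · have : b = 1 := by linarith
      subst this; rw [← h0]; linarith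
    · have := mul_neg_of_pos_of_neg h0 hx
      have := mul_nonpos_of_nonneg_of_nonpos hb hy.le
      linarith
  · exact absurd h hs
  · subst h
    rw [sign_eq_one_iff] at hx hy ⊢
    rcases ha.eq_or_lt with h0 | h0
    · have : b = 1 := by linarith
      subst this; rw [← h0]; linarith
    · have := mul_pos h0 hx
      have := mul_nonneg hb hy.le
      linarith

theorem loc (h1 : ConStatement) (h2 : MinStatement) : LocStatement := by
  intro d κ ι _ W u hG v y z hy hz hvy hvz hby hbz hI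
  obtain ⟨m1, -, m3⟩ := h2 d κ ι W u hG
  obtain ⟨r, hr, hloc⟩ := W.loc v
  set Y : Set (Fin d → ℝ) := Metric.ball v r ∩ W.O ∩
    ((⋂ i ∈ W.I v, {x | sg W.H x (W.ak i) = y (W.ak i)}) ∩ {x | u ⬝ᵥ x < u ⬝ᵥ v}) with hYdef
  have hYconv : Convex ℝ Y := by
    refine ((convex_ball v r).inter W.convex).inter (Convex.inter ?_ ?_)
    · exact convex_iInter₂ fun i hi => convex_sign W.H _ _ (hI i hi).1
    · intro a ha b hb s t hs ht hst
      simp only [Set.mem_setOf_eq, dotProduct_add, dotProduct_smul, smul_eq_mul] at ha hb ⊢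
      rcases hs.eq_or_lt with h0 | h0
      · have : t = 1 := by linarith
        subst this; rw [← h0]; linarith
      · have e : u ⬝ᵥ v = s * (u ⬝ᵥ v) + t * (u ⬝ᵥ v) := by rw [← add_mul, hst, one_mul]
        have := mul_lt_mul_of_pos_left ha h0
        have := mul_le_mul_of_nonneg_left hb.le ht
        linarith
  obtain ⟨x1, hx1C, hx1s, hx1b, hx1u⟩ := m3 y hy v hvy hby r hr
  obtain ⟨x2, hx2C, hx2s, hx2b, hx2u⟩ := m3 z hz v hvz hbz r hr
  have hx1Y : x1 ∈ Y := by
    refine ⟨⟨hx1b, W.sub hx1C⟩, ?_, hx1u⟩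
    simp only [Set.mem_iInter, Set.mem_setOf_eq]
    intro i _
    rw [hx1s]
  have hx2Y : x2 ∈ Y := by
    refine ⟨⟨hx2b, W.sub hx2C⟩, ?_, hx2u⟩
    simp only [Set.mem_iInter, Set.mem_setOf_eq]
    intro i hi
    rw [hx2s, (hI i hi).2]
  have hYC : Y ⊆ W.C := by
    refine hloc Y Set.inter_subset_left hYconv.isPreconnected ?_ ⟨x1, hx1Y, hx1C⟩
    intro x hx i hi h0
    have hx' := hx.2.1
    simp only [Set.mem_iInter, Set.mem_setOf_eq] at hx'
    have := hx' i hi
    rw [sg, h0, sign_zero] at this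
    exact (hI i hi).1 this.symm
  have hself : ∀ x, x ∈ cl W.H (sg W.H x) := fun x k _ => rfl
  have hbt : ∀ x ∈ Y, bt W.H u (sg W.H x) < u ⬝ᵥ v := by
    intro x hx
    obtain ⟨p, -, -, hp, hmin⟩ := m1 (sg W.H x) ⟨x, hYC hx, rfl⟩
    rw [← hp]
    exact lt_of_le_of_lt (hmin x (hself x)).1 hx.2.2
  have key := h1 d κ Prop W.H Y hYconv.isPreconnected
    (fun s => Relation.ReflTransGen (RelLt W u (u ⬝ᵥ v)) y s) (by
      intro a ha b hb hab
      apply propext
      constructor
      · intro h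
        exact h.tail ⟨⟨a, hYC ha, rfl⟩, ⟨b, hYC hb, rfl⟩, Or.inl hab, hbt a ha, hbt b hb⟩
      · intro h
        exact h.tail ⟨⟨b, hYC hb, rfl⟩, ⟨a, hYC ha, rfl⟩, Or.inr hab, hbt b hb, hbt a ha⟩)
    x1 hx1Y x2 hx2Y
  have key' : Relation.ReflTransGen (RelLt W u (u ⬝ᵥ v)) y (sg W.H x1) =
    Relation.ReflTransGen (RelLt W u (u ⬝ᵥ v)) y (sg W.H x2) := key
  rw [hx1s, hx2s] at key'
  rw [← key']

end Pool.Agent.Lib.MP_7c3106_co.Loc
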