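import Pool.Agent.Lib.MP_7c3106_co.Iface

/-!
MP_7c3106_co, board CELL, row MIN: minimizers of a generic functional on closed faces.
-/

namespace Pool.Agent.Lib.MP_7c3106_co.Min

open Filter Topology

variable {d : ℕ} {κ ι : Type}

theorem ev_line (H : Arr d κ) (k : κ) (p w : Fin d → ℝ) (e : ℝ) :
    ev H k (p + e • w) = ev H k p + e * ((H k).1 ⬝ᵥ w) := by
  simp only [ev, dotProduct_add, dotProduct_smul, smul_eq_mul]
  ring

theorem ev_comb (H : Arr d κ) (k : κ) (p y : Fin d → ℝ) (e : ℝ) :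
    ev H k ((1 - e) • p + e • y) = (1 - e) * ev H k p + e * ev H k y := by
  simp only [ev, dotProduct_add, dotProduct_smul, smul_eq_mul]
  ring

theorem ev_cont (H : Arr d κ) (k : κ) : Continuous (ev H k) := by
  unfold ev
  simp only [dotProduct]
  fun_prop

theorem dot_cont (u : Fin d → ℝ) : Continuous (fun x : Fin d → ℝ => u ⬝ᵥ x) := by
  simp only [dotProduct]
  fun_prop

theorem mem_cl_zero {H : Arr d κ} {σ : κ → SignType} {x : Fin d → ℝ} (hx : x ∈ cl H σ) {k : κ}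
    (hk : σ k = 0) : ev H k x = 0 := by
  by_contra h
  have h1 : sg H x k ≠ 0 := by
    simpa [sg, sign_eq_zero_iff] using h
  have h2 := hx k h1
  rw [hk] at h2
  exact h1 h2.symm

theorem mem_cl_pos {H : Arr d κ} {σ : κ → SignType} {x : Fin d → ℝ} (hx : x ∈ cl H σ) {k : κ}
    (hk : σ k = 1) : 0 ≤ ev H k x := by
  by_contra h
  push Not at h
  have h1 : sg H x k = -1 := by
    simp [sg, h]
  have h2 := hx k (by rw [h1]; decide)
  rw [hk, h1] at h2
  exact absurd h2 (by decide)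

theorem mem_cl_neg {H : Arr d κ} {σ : κ → SignType} {x : Fin d → ℝ} (hx : x ∈ cl H σ) {k : κ}
    (hk : σ k = -1) : ev H k x ≤ 0 := by
  by_contra h
  push Not at h
  have h1 : sg H x k = 1 := by
    simp [sg, h]
  have h2 := hx k (by rw [h1]; decide)
  rw [hk, h1] at h2
  exact absurd h2 (by decide)

theorem sg_cases (s : SignType) : s = 0 ∨ s = 1 ∨ s = -1 := by
  cases s <;> decide

theorem mem_cl_iff (H : Arr d κ) (σ : κ → SignType) (x : Fin d → ℝ) :
    x ∈ cl H σ ↔ ∀ k, (σ k = 0 → ev H k x = 0) ∧ (σ k = 1 → 0 ≤ ev H k x) ∧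
      (σ k = -1 → ev H k x ≤ 0) := by
  constructor
  · intro hx k
    exact ⟨fun h => mem_cl_zero hx h, fun h => mem_cl_pos hx h, fun h => mem_cl_neg hx h⟩
  · intro h k hk
    obtain ⟨h0, h1, h2⟩ := h k
    have hk' : ev H k x ≠ 0 := by
      simpa [sg, sign_eq_zero_iff] using hk
    rcases sg_cases (σ k) with hs | hs | hs
    · exact absurd (h0 hs) hk'
    · have h3 : 0 < ev H k x := lt_of_le_of_ne (h1 hs) (Ne.symm hk')
      rw [hs]
      simp [sg, sign_pos h3]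
    · have h3 : ev H k x < 0 := lt_of_le_of_ne (h2 hs) hk'
      rw [hs]
      simp [sg, sign_neg h3]

theorem isClosed_cl (H : Arr d κ) (σ : κ → SignType) : IsClosed (cl H σ) := by
  have e : cl H σ = ⋂ k, {x | (σ k = 0 → ev H k x = 0) ∧ (σ k = 1 → 0 ≤ ev H k x) ∧
      (σ k = -1 → ev H k x ≤ 0)} := by
    ext x
    rw [mem_cl_iff, Set.mem_iInter]
    rfl
  rw [e]
  refine isClosed_iInter fun k => ?_
  rcases sg_cases (σ k) with hs | hs | hs
  · have h1 : ¬ (0 : SignType) = 1 := by decide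
    have h2 : ¬ (0 : SignType) = -1 := by decide
    have : {x : Fin d → ℝ | (σ k = 0 → ev H k x = 0) ∧ (σ k = 1 → 0 ≤ ev H k x) ∧
        (σ k = -1 → ev H k x ≤ 0)} = {x | ev H k x = 0} := by
      ext x
      simp [hs, h1, h2]
    rw [this]
    exact isClosed_eq (ev_cont H k) continuous_const
  · have h1 : ¬ (1 : SignType) = 0 := by decide
    have h2 : ¬ (1 : SignType) = -1 := by decide
    have : {x : Fin d → ℝ | (σ k = 0 → ev H k x = 0) ∧ (σ k = 1 → 0 ≤ ev H k x) ∧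
        (σ k = -1 → ev H k x ≤ 0)} = {x | 0 ≤ ev H k x} := by
      ext x
      simp [hs, h1, h2]
    rw [this]
    exact isClosed_le continuous_const (ev_cont H k)
  · have h1 : ¬ (-1 : SignType) = 0 := by decide
    have h2 : ¬ (-1 : SignType) = 1 := by decide
    have : {x : Fin d → ℝ | (σ k = 0 → ev H k x = 0) ∧ (σ k = 1 → 0 ≤ ev H k x) ∧
        (σ k = -1 → ev H k x ≤ 0)} = {x | ev H k x ≤ 0} := by
      ext x
      simp [hs, h1, h2]
    rw [this]
    exact isClosed_le (ev_cont H k) continuous_const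

theorem self_mem (H : Arr d κ) (x : Fin d → ℝ) : x ∈ cl H (sg H x) := fun _ _ => rfl

theorem cl_mono {H : Arr d κ} {σ τ : κ → SignType} (h : Le σ τ) : cl H σ ⊆ cl H τ := by
  intro x hx k hk
  have h1 := hx k hk
  have h2 : σ k ≠ 0 := by rw [h1]; exact hk
  rw [h k h2, h1]

/-- segment fact -/
theorem seg {H : Arr d κ} {p y : Fin d → ℝ} (hp : p ∈ cl H (sg H y)) {e : ℝ} (he : 0 < e)
    (he1 : e ≤ 1) : sg H ((1 - e) • p + e • y) = sg H y := by
  funext k
  rcases sg_cases (sg H y k) with hs | hs | hs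
  · have h1 : ev H k p = 0 := mem_cl_zero hp hs
    have h2 : ev H k y = 0 := mem_cl_zero (self_mem H y) hs
    rw [hs]
    simp [sg, ev_comb, h1, h2]
  · have h1 : 0 ≤ ev H k p := mem_cl_pos hp hs
    have h2 : 0 < ev H k y := by
      have h3 : SignType.sign (ev H k y) = 1 := hs
      exact sign_eq_one_iff.mp h3
    rw [hs]
    have h4 : 0 < ev H k ((1 - e) • p + e • y) := by
      rw [ev_comb]
      have : 0 ≤ (1 - e) * ev H k p := mul_nonneg (by linarith) h1
      have : 0 < e * ev H k y := mul_pos he h2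
      linarith
    simp [sg, sign_pos h4]
  · have h1 : ev H k p ≤ 0 := mem_cl_neg hp hs
    have h2 : ev H k y < 0 := by
      have h3 : SignType.sign (ev H k y) = -1 := hs
      exact sign_eq_neg_one_iff.mp h3
    rw [hs]
    have h4 : ev H k ((1 - e) • p + e • y) < 0 := by
      rw [ev_comb]
      have h5 : (1 - e) * ev H k p ≤ 0 := mul_nonpos_of_nonneg_of_nonpos (by linarith) h1
      have h6 : e * ev H k y < 0 := mul_neg_of_pos_of_neg he h2
      linarith
    simp [sg, sign_neg h4]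

theorem sign_ev [Finite κ] (H : Arr d κ) (p w : Fin d → ℝ)
    (hw : ∀ k, ev H k p = 0 → (H k).1 ⬝ᵥ w = 0) :
    ∀ᶠ e : ℝ in 𝓝 0, sg H (p + e • w) = sg H p := by
  have h : ∀ k, ∀ᶠ e : ℝ in 𝓝 0, sg H (p + e • w) k = sg H p k := by
    intro k
    by_cases h0 : ev H k p = 0
    · refine Eventually.of_forall fun e => ?_
      simp [sg, ev_line, hw k h0]
    · have hc : Tendsto (fun e : ℝ => ev H k (p + e • w)) (𝓝 0) (𝓝 (ev H k p)) := by
        have : Continuous (fun e : ℝ => ev H k (p + e • w)) := by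
          simp only [ev_line]
          fun_prop
        have h2 := this.tendsto 0
        simpa using h2
      rcases lt_or_gt_of_ne h0 with h1 | h1
      · filter_upwards [hc.eventually (gt_mem_nhds h1)] with e he
        simp [sg, sign_neg he, sign_neg h1]
      · filter_upwards [hc.eventually (lt_mem_nhds h1)] with e he
        simp [sg, sign_pos he, sign_pos h1]
  filter_upwards [eventually_all.mpr h] with e he
  funext k
  exact he k

theorem vert_of_min [Finite κ] {H : Arr d κ} {u : Fin d → ℝ} (hg : Gen H u)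
    {σ : κ → SignType} {p : Fin d → ℝ} (hp : p ∈ cl H σ) (hm : ∀ x ∈ cl H σ, u ⬝ᵥ p ≤ u ⬝ᵥ x) :
    Vert H p := by
  intro w hw
  by_contra hw0
  obtain ⟨w', h1, h2⟩ := hg.g1 {k | ev H k p = 0} ⟨w, hw0, fun k hk => hw k hk⟩
  have h3 := sign_ev H p w' (fun k hk => h1 k hk)
  have h4 : ∀ᶠ e : ℝ in 𝓝 0, sg H (p + (-e) • w') = sg H p := by
    have : Tendsto (fun e : ℝ => -e) (𝓝 0) (𝓝 0) := by
      have := (continuous_neg (G := ℝ)).tendsto 0
      simpa using this
    exact this.eventually h3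
  have h5 : ∀ᶠ e : ℝ in 𝓝[>] 0, sg H (p + e • w') = sg H p ∧ sg H (p + (-e) • w') = sg H p :=
    (h3.and h4).filter_mono nhdsWithin_le_nhds
  obtain ⟨e, ⟨h6, h7⟩, he⟩ := (h5.and self_mem_nhdsWithin).exists
  have he' : 0 < e := he
  have h8 : p + e • w' ∈ cl H σ := by
    intro k hk
    rw [h6] at hk ⊢
    exact hp k hk
  have h9 : p + (-e) • w' ∈ cl H σ := by
    intro k hk
    rw [h7] at hk ⊢
    exact hp k hk
  have h10 := hm _ h8
  have h11 := hm _ h9
  rw [dotProduct_add, dotProduct_smul, smul_eq_mul] at h10 h11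
  have h12 : e * (u ⬝ᵥ w') = 0 := by linarith
  rcases mul_eq_zero.mp h12 with h | h
  · exact absurd h (ne_of_gt he')
  · exact h2 h

theorem part1 [Finite κ] (W : Wld d κ ι) (u : Fin d → ℝ) (hg : Gen W.H u) (σ : κ → SignType)
    (hσ : Nd W σ) : ∃ p ∈ cl W.H σ, Vert W.H p ∧ u ⬝ᵥ p = bt W.H u σ ∧
      ∀ x ∈ cl W.H σ, u ⬝ᵥ p ≤ u ⬝ᵥ x ∧ (u ⬝ᵥ x = u ⬝ᵥ p → x = p) := by
  obtain ⟨y, hy, rfl⟩ := hσ
  have hcpt : IsCompact (cl W.H (sg W.H y)) :=
    Metric.isCompact_of_isClosed_isBounded (isClosed_cl _ _) (W.bdd y hy)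
  obtain ⟨p, hp, hm⟩ := hcpt.exists_isMinOn ⟨y, self_mem W.H y⟩ (dot_cont u).continuousOn
  have hm' : ∀ x ∈ cl W.H (sg W.H y), u ⬝ᵥ p ≤ u ⬝ᵥ x := fun x hx => hm hx
  refine ⟨p, hp, vert_of_min hg hp hm', ?_, ?_⟩
  · have hl : IsLeast ((fun x => u ⬝ᵥ x) '' cl W.H (sg W.H y)) (u ⬝ᵥ p) := by
      refine ⟨⟨p, hp, rfl⟩, ?_⟩
      rintro _ ⟨x, hx, rfl⟩
      exact hm' x hx
    exact hl.csInf_eq.symm
  · intro x hx
    refine ⟨hm' x hx, fun hxp => ?_⟩
    have hv : Vert W.H x := vert_of_min hg hx (fun z hz => hxp ▸ hm' z hz)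
    exact hg.g2 x p hv (vert_of_min hg hp hm') hxp

theorem min_ : MinStatement := by
  intro d κ ι _ W u hg
  refine ⟨fun σ hσ => part1 W u hg σ hσ, ?_, ?_⟩
  · intro σ τ hσ hτ hle
    obtain ⟨p, hp, _, hpb, hpm⟩ := part1 W u hg σ hσ
    obtain ⟨q, hq, _, hqb, hqm⟩ := part1 W u hg τ hτ
    have hpτ : p ∈ cl W.H τ := cl_mono hle hp
    refine ⟨?_, ?_⟩
    · rw [← hpb, ← hqb]
      exact (hqm p hpτ).1
    · intro heq x hx hxb
      have h1 : x = q := (hqm x hx).2 (by rw [hxb, hqb])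
      have h2 : p = q := (hqm p hpτ).2 (by rw [hpb, hqb, heq])
      rw [h1, ← h2]
      exact hp
  · intro σ hσ v hv hlt r hr
    obtain ⟨p, hp, _, hpb, _⟩ := part1 W u hg σ hσ
    obtain ⟨y, hy, rfl⟩ := hσ
    rw [← hpb] at hlt
    -- the point q
    have hq : ∃ e : ℝ, 0 < e ∧ e ≤ 1 ∧ u ⬝ᵥ ((1 - e) • p + e • y) < u ⬝ᵥ v := by
      have hc : Tendsto (fun e : ℝ => u ⬝ᵥ ((1 - e) • p + e • y)) (𝓝 0) (𝓝 (u ⬝ᵥ p)) := by
        have : Continuous (fun e : ℝ => u ⬝ᵥ ((1 - e) • p + e • y)) := by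
          simp only [dotProduct_add, dotProduct_smul, smul_eq_mul]
          fun_prop
        have h2 := this.tendsto 0
        simpa using h2
      have h1 : ∀ᶠ e : ℝ in 𝓝[>] 0, u ⬝ᵥ ((1 - e) • p + e • y) < u ⬝ᵥ v :=
        (hc.eventually (gt_mem_nhds hlt)).filter_mono nhdsWithin_le_nhds
      have h2 : ∀ᶠ e : ℝ in 𝓝[>] 0, e ≤ 1 :=
        Eventually.filter_mono nhdsWithin_le_nhds (Iic_mem_nhds (zero_lt_one' ℝ))
      obtain ⟨e, ⟨h3, h4⟩, h5⟩ := ((h1.and h2).and self_mem_nhdsWithin).exists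
      exact ⟨e, h5, h4, h3⟩
    obtain ⟨e, he, he1, hqlt⟩ := hq
    set q := (1 - e) • p + e • y with hqdef
    have hsq : sg W.H q = sg W.H y := seg hp he he1
    have hx : ∃ e' : ℝ, 0 < e' ∧ e' ≤ 1 ∧ (1 - e') • v + e' • q ∈ Metric.ball v r := by
      have hc : Tendsto (fun e' : ℝ => (1 - e') • v + e' • q) (𝓝 0) (𝓝 v) := by
        have : Continuous (fun e' : ℝ => (1 - e') • v + e' • q) := by fun_prop
        have h2 := this.tendsto 0
        simpa using h2
      have h1 : ∀ᶠ e' : ℝ in 𝓝[>] 0, (1 - e') • v + e' • q ∈ Metric.ball v r :=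
        (hc.eventually (Metric.ball_mem_nhds v hr)).filter_mono nhdsWithin_le_nhds
      have h2 : ∀ᶠ e : ℝ in 𝓝[>] 0, e ≤ 1 :=
        Eventually.filter_mono nhdsWithin_le_nhds (Iic_mem_nhds (zero_lt_one' ℝ))
      obtain ⟨e', ⟨h3, h4⟩, h5⟩ := ((h1.and h2).and self_mem_nhdsWithin).exists
      exact ⟨e', h5, h4, h3⟩
    obtain ⟨e', he', he1', hball⟩ := hx
    have hvq : v ∈ cl W.H (sg W.H q) := by rw [hsq]; exact hv
    have hsx : sg W.H ((1 - e') • v + e' • q) = sg W.H y := by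
      rw [seg hvq he' he1', hsq]
    refine ⟨(1 - e') • v + e' • q, W.sat y hy _ hsx, hsx, hball, ?_⟩
    rw [dotProduct_add, dotProduct_smul, dotProduct_smul, smul_eq_mul, smul_eq_mul]
    nlinarith

end Pool.Agent.Lib.MP_7c3106_co.Min
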