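import Pool.Agent.Lib.MP_7c3106_co.Iface2
import Pool.Agent.Lib.MP_7c3106_co.Min
import Pool.Agent.Lib.MP_7c3106_co.Loc

/-!
MP_7c3106_co, board CELL, row DIS: two cells with a common pattern are equal.
-/

namespace Pool.Agent.Lib.MP_7c3106_co.Dis

open Pool.Agent.Lib.MP_7c3106_co

theorem sign_eq' : ∀ {a b : SignType}, a ≠ 0 → b ≠ 0 → (a = 1 ↔ b = 1) → b = a := by decide

theorem near {d : ℕ} {κ : Type} (H : Arr d κ) {v x : Fin d → ℝ} (hv : v ∈ cl H (sg H x)) {r : ℝ}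
    (hr : 0 < r) : ∃ p ∈ Metric.ball v r, sg H p = sg H x := by
  have hn := norm_nonneg (x - v)
  have he0 : 0 < r / (2 * (‖x - v‖ + 1)) := by positivity
  refine ⟨(1 - min 1 (r / (2 * (‖x - v‖ + 1)))) • v + min 1 (r / (2 * (‖x - v‖ + 1))) • x, ?_,
    Min.seg hv (lt_min one_pos he0) (min_le_left _ _)⟩
  set e := min 1 (r / (2 * (‖x - v‖ + 1))) with he
  have he1 : 0 < e := lt_min one_pos he0
  have he2 : e ≤ r / (2 * (‖x - v‖ + 1)) := min_le_right _ _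
  rw [Metric.mem_ball, dist_eq_norm]
  have h1 : (1 - e) • v + e • x - v = e • (x - v) := by
    rw [sub_smul, one_smul, smul_sub]; abel
  rw [h1, norm_smul, Real.norm_eq_abs, abs_of_pos he1]
  calc e * ‖x - v‖ ≤ (r / (2 * (‖x - v‖ + 1))) * ‖x - v‖ := mul_le_mul_of_nonneg_right he2 hn
    _ < r := by
      rw [div_mul_eq_mul_div, div_lt_iff₀ (by positivity)]
      nlinarith

theorem dis : DisStatement := by
  intro d m ι _ T R₀ R _ _ _ x y _ _ W W' hH hO hC hI hak hH' _ hC' hI' hak' v S hS hS'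
  classical
  unfold PatF at hS hS'
  rw [Finset.mem_filter] at hS hS'
  obtain ⟨-, c, ⟨x1, hx1, rfl⟩, hc0, hvc, hSc⟩ := hS
  obtain ⟨-, c', ⟨x2, hx2, rfl⟩, hc0', hvc', hSc'⟩ := hS'
  obtain ⟨r, hr, hloc⟩ := W.loc v
  obtain ⟨p1, hp1b, hp1⟩ := near W.H hvc hr
  obtain ⟨p2, hp2b, hp2⟩ := near W'.H hvc' hr
  have hp1C : p1 ∈ W.C := W.sat x1 hx1 p1 hp1
  have hp2C : p2 ∈ W'.C := W'.sat x2 hx2 p2 hp2
  rw [hH] at hp1 hc0 hSc
  rw [hH'] at hp2 hc0' hSc'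
  rw [hI, hak] at hSc
  rw [hI', hak'] at hSc'
  have hsame : ∀ i ∈ Iv T v, sg (HH T R) x2 (Sum.inl i) = sg (HH T R) x1 (Sum.inl i) := by
    intro i hi
    refine sign_eq' (hc0 _) (hc0' _) ?_
    have h1 : i ∈ S ↔ sg (HH T R) x1 (Sum.inl i) = 1 := by
      rw [hSc, Finset.mem_filter]
      exact ⟨fun h => h.2, fun h => ⟨hi, h⟩⟩
    have h2 : i ∈ S ↔ sg (HH T R) x2 (Sum.inl i) = 1 := by
      rw [hSc', Finset.mem_filter]
      exact ⟨fun h => h.2, fun h => ⟨hi, h⟩⟩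
    rw [← h1, ← h2]
  obtain ⟨Y, hY⟩ : ∃ Y : Set (Fin d → ℝ), Y = (Metric.ball v r ∩ Metric.ball 0 R) ∩
    ⋂ i ∈ Iv T v, {z | sg (HH T R) z (Sum.inl i) = sg (HH T R) x1 (Sum.inl i)} := ⟨_, rfl⟩
  have hYc : Convex ℝ Y := by
    rw [hY]
    exact ((convex_ball _ _).inter (convex_ball _ _)).inter
      (convex_iInter₂ fun i _ => Loc.convex_sign (HH T R) (Sum.inl i) _ (hc0 _))
  have hp1R : p1 ∈ Metric.ball (0 : Fin d → ℝ) R := by
    rw [hC] at hp1C; exact hp1C.2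
  have hp2R : p2 ∈ Metric.ball (0 : Fin d → ℝ) R := by
    rw [hC'] at hp2C; exact hp2C.2
  have hp1Y : p1 ∈ Y := by
    rw [hY]
    refine ⟨⟨hp1b, hp1R⟩, Set.mem_iInter₂.2 fun i _ => ?_⟩
    show sg (HH T R) p1 (Sum.inl i) = _
    rw [hp1]
  have hp2Y : p2 ∈ Y := by
    rw [hY]
    refine ⟨⟨hp2b, hp2R⟩, Set.mem_iInter₂.2 fun i hi => ?_⟩
    show sg (HH T R) p2 (Sum.inl i) = _
    rw [hp2, hsame i hi]
  have hsub : Y ⊆ W.C := by
    refine hloc Y ?_ hYc.isPreconnected ?_ ⟨p1, hp1Y, hp1C⟩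
    · rw [hO, hY]; exact Set.inter_subset_left
    · intro z hz i hi
      rw [hH, hak]
      rw [hI] at hi
      rw [hY] at hz
      have h1 : sg (HH T R) z (Sum.inl i) = sg (HH T R) x1 (Sum.inl i) :=
        Set.mem_iInter₂.1 hz.2 i hi
      intro h0
      apply hc0 (Sum.inl i)
      rw [← h1]
      show SignType.sign (ev (HH T R) (Sum.inl i) z) = 0
      rw [h0, sign_zero]
  have h1 : p2 ∈ cell T x := by
    have := hsub hp2Y
    rw [hC] at this; exact this.1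
  have h2 : p2 ∈ cell T y := by
    rw [hC'] at hp2C; exact hp2C.1
  unfold cell at h1 h2 ⊢
  rw [connectedComponentIn_eq h1, connectedComponentIn_eq h2]

end Pool.Agent.Lib.MP_7c3106_co.Dis
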