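import Pool.Agent.Lib.MP_7c3106_co.Iface

/-!
MP_7c3106_co, row ELD: the elder rule.
-/

namespace Pool.Agent.Lib.MP_7c3106_co.Eld

open Relation

variable {d : ℕ} {κ ι : Type}

lemma sign_eq : ∀ {a b : SignType}, a ≠ 0 → b ≠ 0 → (a = 1 ↔ b = 1) → b = a := by
  decide

lemma Le.trans {a b c : κ → SignType} (h1 : Le a b) (h2 : Le b c) : Le a c := by
  intro k hk
  have h3 := h1 k hk
  have h4 : b k ≠ 0 := by rw [h3]; exact hk
  rw [h2 k h4, h3]

lemma cl_mono {H : Arr d κ} {a b : κ → SignType} (h : Le a b) : cl H a ⊆ cl H b :=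
  fun _ hx => Le.trans hx h

lemma relLt_symm (W : Wld d κ ι) (u : Fin d → ℝ) (t : ℝ) {a b : κ → SignType}
    (h : RelLt W u t a b) : RelLt W u t b a := by
  obtain ⟨h1, h2, h3, h4, h5⟩ := h
  exact ⟨h2, h1, h3.symm, h5, h4⟩

lemma rmono {α : Type} {r q : α → α → Prop} (hrq : ∀ a b, r a b → q a b) {a b : α}
    (h : ReflTransGen r a b) : ReflTransGen q a b := by
  induction h with
  | refl => exact ReflTransGen.refl
  | tail _ h2 ih => exact ih.tail (hrq _ _ h2)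

lemma clt_symm {W : Wld d κ ι} {u : Fin d → ℝ} {t : ℝ} {a b : κ → SignType}
    (h : ReflTransGen (RelLt W u t) a b) : ReflTransGen (RelLt W u t) b a := by
  induction h with
  | refl => exact ReflTransGen.refl
  | tail _ h2 ih => exact ReflTransGen.head (relLt_symm W u t h2) ih

lemma cle_mono {W : Wld d κ ι} {u : Fin d → ℝ} {s t : ℝ} (hst : s ≤ t) {a b : κ → SignType}
    (h : ReflTransGen (RelLe W u s) a b) : ReflTransGen (RelLe W u t) a b := by
  refine rmono ?_ h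
  rintro x y ⟨h1, h2, h3, h4, h5⟩
  exact ⟨h1, h2, h3, h4.trans hst, h5.trans hst⟩

lemma exit_step {α : Type} {r : α → α → Prop} {a b : α} (h : ReflTransGen r a b) (P : α → Prop)
    (ha : P a) (hb : ¬ P b) : ∃ c e, P c ∧ ¬ P e ∧ r c e := by
  induction h with
  | refl => exact absurd ha hb
  | @tail c e _ h2 ih =>
    by_cases hc : P c
    · exact ⟨c, e, hc, hb, h2⟩
    · exact ih hc

lemma clt_lt {W : Wld d κ ι} {u : Fin d → ℝ} {t : ℝ} {a b : κ → SignType}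
    (ha : bt W.H u a < t) (h : ReflTransGen (RelLt W u t) a b) : bt W.H u b < t := by
  rcases ReflTransGen.cases_tail h with h | ⟨c, _, h2⟩
  · rw [h]; exact ha
  · exact h2.2.2.2.2

lemma clt_nd {W : Wld d κ ι} {u : Fin d → ℝ} {t : ℝ} {a b : κ → SignType}
    (ha : Nd W a) (h : ReflTransGen (RelLt W u t) a b) : Nd W b := by
  rcases ReflTransGen.cases_tail h with h | ⟨c, _, h2⟩
  · rw [h]; exact ha
  · exact h2.2.1

/-- global connectedness -/
lemma glob (h1 : ConStatement) [Finite κ] (W : Wld d κ ι) (u : Fin d → ℝ) {σ τ : κ → SignType}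
    (hσ : Nd W σ) (hτ : Nd W τ) : ∃ t, ReflTransGen (RelLe W u t) σ τ := by
  obtain ⟨x, hx, rfl⟩ := hσ
  obtain ⟨y, hy, rfl⟩ := hτ
  have key : ∀ a ∈ W.C, ∀ b ∈ W.C, (Le (sg W.H a) (sg W.H b) ∨ Le (sg W.H b) (sg W.H a)) →
      (∃ t, ReflTransGen (RelLe W u t) (sg W.H x) (sg W.H a)) →
      ∃ t, ReflTransGen (RelLe W u t) (sg W.H x) (sg W.H b) := by
    rintro a ha b hb hab ⟨t, ht⟩
    refine ⟨max t (max (bt W.H u (sg W.H a)) (bt W.H u (sg W.H b))), ?_⟩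
    refine (cle_mono (le_max_left _ _) ht).tail ⟨⟨a, ha, rfl⟩, ⟨b, hb, rfl⟩, hab, ?_, ?_⟩
    · exact (le_max_left _ _).trans (le_max_right _ _)
    · exact (le_max_right _ _).trans (le_max_right _ _)
  have h := h1 d κ Prop W.H W.C W.conn
    (fun s => ∃ t, ReflTransGen (RelLe W u t) (sg W.H x) s)
    (fun a ha b hb hab => by
      apply propext
      exact ⟨key a ha b hb (Or.inl hab), key b hb a ha (Or.inr hab)⟩) x hx y hy
  rw [← h]
  exact ⟨0, ReflTransGen.refl⟩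

/-- The merging event. -/
lemma merge (h1 : ConStatement) (h2 : MinStatement) (h3 : LocStatement) (h5 : ChaStatement)
    [Finite κ] (W : Wld d κ ι) (u : Fin d → ℝ) (hg : Gen W.H u) (p : Fin d → ℝ)
    (σ : κ → SignType) (hσ : Nd W σ) (hσp : bt W.H u σ = u ⬝ᵥ p)
    (hmin : ∀ τ, ReflTransGen (RelLe W u (u ⬝ᵥ p)) σ τ → u ⬝ᵥ p ≤ bt W.H u τ)
    (hold : ∃ ρ, Nd W ρ ∧ bt W.H u ρ < u ⬝ᵥ p) :
    ∃ v, Vert W.H v ∧ W.Bd v ∧ ∃ c, Nd W c ∧ (∀ k, c k ≠ 0) ∧ v ∈ cl W.H c ∧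
      bt W.H u c < u ⬝ᵥ v ∧ ReflTransGen (RelLt W u (u ⬝ᵥ v)) σ c ∧
      ∀ ρ, ReflTransGen (RelLt W u (u ⬝ᵥ v)) σ ρ → u ⬝ᵥ p ≤ bt W.H u ρ := by
  classical
  obtain ⟨hM1, hM2, hM3⟩ := h2 d κ ι W u hg
  set Vals : Set ℝ := Set.range (fun s : κ → SignType => bt W.H u s) with hVals
  have hVfin : Vals.Finite := Set.finite_range _
  set T : Set ℝ := {t | t ∈ Vals ∧ ∃ ρ, Nd W ρ ∧ bt W.H u ρ < u ⬝ᵥ p ∧
    ReflTransGen (RelLe W u t) σ ρ} with hT
  have hTfin : T.Finite := hVfin.subset (fun t ht => ht.1)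
  have hVne : Vals.Nonempty := ⟨_, σ, rfl⟩
  have hTne : T.Nonempty := by
    obtain ⟨ρ, hρ, hρp⟩ := hold
    obtain ⟨t, ht⟩ := glob h1 W u hσ hρ
    obtain ⟨tm, htm, hmax⟩ := Set.exists_max_image Vals id hVfin hVne
    refine ⟨tm, htm, ρ, hρ, hρp, ?_⟩
    refine rmono ?_ ht
    rintro a b ⟨ha, hb, hab, -, -⟩
    exact ⟨ha, hb, hab, hmax _ ⟨a, rfl⟩, hmax _ ⟨b, rfl⟩⟩
  obtain ⟨t, ⟨htV, ρ, hρ, hρp, hρt⟩, htmin⟩ := Set.exists_min_image T id hTfin hTne
  have hpt : u ⬝ᵥ p < t := by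
    by_contra hcon
    rw [not_lt] at hcon
    exact absurd (hmin ρ (cle_mono hcon hρt)) (not_le.mpr hρp)
  have hσt : bt W.H u σ < t := by rw [hσp]; exact hpt
  -- (a)
  have hA : ∀ τ, ReflTransGen (RelLt W u t) σ τ → u ⬝ᵥ p ≤ bt W.H u τ := by
    intro τ hτ
    by_contra hcon
    rw [not_le] at hcon
    set V' : Set ℝ := Vals ∩ Set.Iio t with hV'
    have hV'fin : V'.Finite := hVfin.subset Set.inter_subset_left
    have hV'ne : V'.Nonempty := ⟨_, ⟨σ, rfl⟩, hσt⟩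
    obtain ⟨t', ⟨ht'V, ht't⟩, ht'max⟩ := Set.exists_max_image V' id hV'fin hV'ne
    have : t' ∈ T := by
      refine ⟨ht'V, τ, clt_nd hσ hτ, hcon, ?_⟩
      refine rmono ?_ hτ
      rintro a b ⟨ha, hb, hab, hat, hbt⟩
      exact ⟨ha, hb, hab, ht'max _ ⟨⟨a, rfl⟩, hat⟩, ht'max _ ⟨⟨b, rfl⟩, hbt⟩⟩
    exact absurd (htmin t' this) (not_le.mpr ht't)
  -- (b)
  have hnρ : ¬ ReflTransGen (RelLt W u t) σ ρ := fun h => absurd (hA ρ h) (not_le.mpr hρp)
  obtain ⟨a, b, hPa, hnb, hab⟩ := exit_step hρt (fun y => ReflTransGen (RelLt W u t) σ y)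
    ReflTransGen.refl hnρ
  have hat : bt W.H u a < t := clt_lt hσt hPa
  have hbt : bt W.H u b = t := by
    refine le_antisymm hab.2.2.2.2 ?_
    by_contra hcon
    rw [not_le] at hcon
    exact hnb (hPa.tail ⟨hab.1, hab.2.1, hab.2.2.1, hat, hcon⟩)
  have hdown : ∀ y z, Nd W y → Nd W z → (Le y z ∨ Le z y) → bt W.H u y < t →
      bt W.H u z = t → Le z y := by
    intro y z hy hz hyz hyt hzt
    rcases hyz with h | h
    · have := (hM2 y z hy hz h).1
      rw [hzt] at this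
      exact absurd this (not_le.mpr hyt)
    · exact h
  have hba : Le b a := hdown a b hab.1 hab.2.1 hab.2.2.1 hat hbt
  obtain ⟨v, hvb, hvV, hvt, -⟩ := hM1 b hab.2.1
  rw [hbt] at hvt
  have hva : v ∈ cl W.H a := cl_mono hba hvb
  -- every node born at time t has v in its closed face
  have hnew : ∀ y, Nd W y → bt W.H u y = t → v ∈ cl W.H y := by
    intro y hy hyt
    obtain ⟨v', hv'y, hv'V, hv't, -⟩ := hM1 y hy
    have : v' = v := hg.g2 v' v hv'V hvV (by rw [hv't, hyt, hvt])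
    rw [← this]; exact hv'y
  -- (c)
  have hBd : W.Bd v := by
    by_contra hnBd
    have hne : ∀ y, Nd W y → v ∈ cl W.H y → ∀ i ∈ W.I v, y (W.ak i) ≠ 0 := by
      rintro y ⟨x, hx, rfl⟩ hvy i hi
      exact W.nbd v hnBd x hx hvy i hi
    set P : (κ → SignType) → Prop := fun y => ReflTransGen (RelLt W u t) σ y with hP
    set K : (κ → SignType) → Prop := fun y => P y ∨ (Nd W y ∧ bt W.H u y = t ∧ v ∈ cl W.H y ∧
      ∃ z, P z ∧ v ∈ cl W.H z ∧ ∀ i ∈ W.I v, z (W.ak i) = y (W.ak i)) with hK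
    have hKσ : K σ := Or.inl ReflTransGen.refl
    have hKρ : ¬ K ρ := by
      rintro (h | ⟨-, h, -⟩)
      · exact hnρ h
      · rw [h] at hρp
        exact absurd hpt (not_lt.mpr hρp.le)
    obtain ⟨y, y', hKy, hnKy', hr⟩ := exit_step hρt K hKσ hKρ
    apply hnKy'
    have hy : Nd W y := hr.1
    have hy' : Nd W y' := hr.2.1
    have hcomp : ∀ z z', Nd W z → Nd W z' → v ∈ cl W.H z → v ∈ cl W.H z' →
        (Le z z' ∨ Le z' z) → ∀ i ∈ W.I v, z (W.ak i) = z' (W.ak i) := by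
      intro z z' hz hz' hvz hvz' hzz i hi
      rcases hzz with h | h
      · exact (h _ (hne z hz hvz i hi)).symm
      · exact h _ (hne z' hz' hvz' i hi)
    rcases hKy with hPy | ⟨-, hyt, hvy, z, hPz, hvz, hzy⟩
    · have hyt : bt W.H u y < t := clt_lt hσt hPy
      rcases lt_or_eq_of_le hr.2.2.2.2 with hlt | heq
      · exact Or.inl (hPy.tail ⟨hy, hy', hr.2.2.1, hyt, hlt⟩)
      · have hvy' := hnew y' hy' heq
        have hvy := cl_mono (hdown y y' hy hy' hr.2.2.1 hyt heq) hvy'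
        exact Or.inr ⟨hy', heq, hvy', y, hPy, hvy, hcomp y y' hy hy' hvy hvy' hr.2.2.1⟩
    · rcases lt_or_eq_of_le hr.2.2.2.2 with hlt | heq
      · have hle : Le y y' := hdown y' y hy' hy hr.2.2.1.symm hlt hyt
        have hvy' := cl_mono hle hvy
        refine Or.inl ?_
        have hz : Nd W z := clt_nd hσ hPz
        have hzt : bt W.H u z < t := clt_lt hσt hPz
        have hloc := h3 d κ ι W u hg v z y' hz hy' hvz hvy' (by rw [hvt]; exact hzt)
          (by rw [hvt]; exact hlt) (fun i hi => ⟨hne z hz hvz i hi, by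
            rw [hzy i hi]; exact (hcomp y y' hy hy' hvy hvy' hr.2.2.1 i hi).symm⟩)
        rw [hvt] at hloc
        exact hPz.trans hloc
      · have hvy' := hnew y' hy' heq
        refine Or.inr ⟨hy', heq, hvy', z, hPz, hvz, fun i hi => ?_⟩
        rw [hzy i hi]
        exact hcomp y y' hy hy' hvy hvy' hr.2.2.1 i hi
  -- (d)
  obtain ⟨c, hc, hac, hc0⟩ := h5 d κ ι W a hab.1
  have hct : bt W.H u c < t := lt_of_le_of_lt (hM2 a c hab.1 hc hac).1 hat
  refine ⟨v, hvV, hBd, c, hc, hc0, cl_mono hac hva, by rw [hvt]; exact hct, ?_, ?_⟩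
  · rw [hvt]
    exact hPa.tail ⟨hab.1, hc, Or.inl hac, hat, hct⟩
  · intro τ hτ
    rw [hvt] at hτ
    exact hA τ hτ

theorem eld (h1 : ConStatement) (h2 : MinStatement) (h3 : LocStatement) (h4 : BirStatement)
    (h5 : ChaStatement) : EldStatement := by
  classical
  intro d κ ι _ W u hg B Q hB hQ
  obtain ⟨hM1, hM2, hM3⟩ := h2 d κ ι W u hg
  have hσ : ∀ p : B, ∃ σ, Nd W σ ∧ bt W.H u σ = u ⬝ᵥ p.1 ∧ p.1 ∈ cl W.H σ ∧
      ∀ τ, ReflTransGen (RelLe W u (u ⬝ᵥ p.1)) σ τ → u ⬝ᵥ p.1 ≤ bt W.H u τ :=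
    fun p => h4 d κ ι W u hg p.1 (hB p.1 p.2)
  choose σ hσ1 hσ2 hσ3 hσ4 using hσ
  have hinj : ∀ p q : B, u ⬝ᵥ p.1 = u ⬝ᵥ q.1 → p = q := by
    intro p q hpq
    have hV : ∀ p : B, Vert W.H p.1 := by
      intro p
      obtain ⟨p', hp', hV', he', hmin'⟩ := hM1 (σ p) (hσ1 p)
      have := (hmin' p.1 (hσ3 p)).2 (by rw [he', hσ2 p])
      rw [this]; exact hV'
    exact Subtype.ext (hg.g2 _ _ (hV p) (hV q) hpq)
  -- the set of non-oldest births
  set B' : Finset B := Finset.univ.filter (fun p => ∃ ρ, Nd W ρ ∧ bt W.H u ρ < u ⬝ᵥ p.1) with hB'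
  have hrest : (Finset.univ.filter
      (fun p : B => ¬ ∃ ρ, Nd W ρ ∧ bt W.H u ρ < u ⬝ᵥ p.1)).card ≤ 1 := by
    rw [Finset.card_le_one]
    intro p hp q hq
    rw [Finset.mem_filter] at hp hq
    apply hinj
    apply le_antisymm
    · by_contra hcon
      rw [not_le] at hcon
      exact hp.2 ⟨σ q, hσ1 q, by rw [hσ2 q]; exact hcon⟩
    · by_contra hcon
      rw [not_le] at hcon
      exact hq.2 ⟨σ p, hσ1 p, by rw [hσ2 p]; exact hcon⟩
  have hcard : B.card ≤ 1 + B'.card := by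
    have h := Finset.card_filter_add_card_filter_not (s := (Finset.univ : Finset B))
      (fun p => ∃ ρ, Nd W ρ ∧ bt W.H u ρ < u ⬝ᵥ p.1)
    rw [Finset.card_univ, Fintype.card_coe] at h
    have h0 : B'.card = (Finset.univ.filter
      (fun p : B => ∃ ρ, Nd W ρ ∧ bt W.H u ρ < u ⬝ᵥ p.1)).card := rfl
    rw [← h, ← h0, add_comm]
    exact Nat.add_le_add_right hrest _
  refine hcard.trans (Nat.add_le_add_left ?_ 1)
  have hm : ∀ p : B', ∃ v, Vert W.H v ∧ W.Bd v ∧ ∃ c, Nd W c ∧ (∀ k, c k ≠ 0) ∧ v ∈ cl W.H c ∧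
      bt W.H u c < u ⬝ᵥ v ∧ ReflTransGen (RelLt W u (u ⬝ᵥ v)) (σ p.1) c ∧
      ∀ ρ, ReflTransGen (RelLt W u (u ⬝ᵥ v)) (σ p.1) ρ → u ⬝ᵥ p.1.1 ≤ bt W.H u ρ := by
    intro p
    have hp := (Finset.mem_filter.mp p.2).2
    exact merge h1 h2 h3 h5 W u hg p.1.1 (σ p.1) (hσ1 p.1) (hσ2 p.1) (hσ4 p.1) hp
  choose v hv1 hv2 c hc1 hc2 hc3 hc4 hc5 hc6 using hm
  set F : B' → (Σ _ : (Fin d → ℝ), Finset ι) :=
    fun p => ⟨v p, (W.I (v p)).filter (fun i => c p (W.ak i) = 1)⟩ with hF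
  have hmaps : ∀ p ∈ (Finset.univ : Finset B'), F p ∈ Q.sigma (fun v => (W.I v).powerset) := by
    intro p _
    rw [Finset.mem_sigma]
    exact ⟨hQ _ (hv1 p) (hv2 p), Finset.mem_powerset.mpr (Finset.filter_subset _ _)⟩
  have hFinj : Set.InjOn F (Finset.univ : Finset B') := by
    intro p _ q _ hpq
    have e1 : v p = v q := congrArg Sigma.fst hpq
    have e2 : (W.I (v p)).filter (fun i => c p (W.ak i) = 1) =
        (W.I (v q)).filter (fun i => c q (W.ak i) = 1) := by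
      have := congrArg Sigma.snd hpq
      exact this
    have hsign : ∀ i ∈ W.I (v p), c q (W.ak i) = c p (W.ak i) := by
      intro i hi
      have hiq : i ∈ W.I (v q) := by rw [← e1]; exact hi
      have h := Finset.ext_iff.mp e2 i
      rw [Finset.mem_filter, Finset.mem_filter] at h
      have h' : c p (W.ak i) = 1 ↔ c q (W.ak i) = 1 := by
        constructor
        · intro h0; exact (h.mp ⟨hi, h0⟩).2
        · intro h0; exact (h.mpr ⟨hiq, h0⟩).2
      exact sign_eq (hc2 p (W.ak i)) (hc2 q (W.ak i)) h'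
    have hloc := h3 d κ ι W u hg (v p) (c p) (c q) (hc1 p) (hc1 q) (hc3 p)
      (by rw [e1]; exact hc3 q) (hc4 p) (by rw [e1]; exact hc4 q)
      (fun i hi => ⟨hc2 p _, hsign i hi⟩)
    have hcq := hc5 q
    rw [← e1] at hcq
    have h12 : ReflTransGen (RelLt W u (u ⬝ᵥ v p)) (σ p.1) (σ q.1) :=
      ((hc5 p).trans hloc).trans (clt_symm hcq)
    have i1 := hc6 p _ h12
    rw [hσ2] at i1
    have i2 := hc6 q (σ p.1) (by rw [← e1]; exact clt_symm h12)
    rw [hσ2] at i2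
    exact Subtype.ext (hinj _ _ (le_antisymm i1 i2))
  have h := Finset.card_le_card_of_injOn F hmaps hFinj
  rw [Finset.card_univ, Fintype.card_coe, Finset.card_sigma] at h
  refine h.trans (le_of_eq ?_)
  apply Finset.sum_congr rfl
  intro w _
  rw [Finset.card_powerset]

end Pool.Agent.Lib.MP_7c3106_co.Eld
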