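import Pool.Agent.Lib.MP_7c3106_co.Iface

/-!
MP_7c3106_co, board CELL, second part: several cells at once, non-convex cells.
-/

namespace Pool.Agent.Lib.MP_7c3106_co

variable {d m : ℕ} {κ ι : Type}

/-- The cells of the arrangement. -/
def cells (T : ι → Patch d m) : Set (Set (Fin d → ℝ)) :=
  {C | ∃ x, x ∉ ⋃ i, (T i).car ∧ C = cell T x}

/-- The pairs (cell of `M`, face on the boundary of the cell). -/
def inc (T : ι → Patch d m) (M : Set (Set (Fin d → ℝ))) :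
    Set (Set (Fin d → ℝ) × Set (Fin d → ℝ)) :=
  {q | q.1 ∈ M ∧ q.2 ∈ bdFaces T q.1}

open Classical in
/-- the local branches of `C` at `v`: patterns of the chambers of `C` around `v` -/
noncomputable def PatF (W : Wld d κ ι) (v : Fin d → ℝ) : Finset (Finset ι) :=
  (W.I v).powerset.filter (fun S => ∃ c, Nd W c ∧ (∀ k, c k ≠ 0) ∧ v ∈ cl W.H c ∧
    S = (W.I v).filter (fun i => c (W.ak i) = 1))

/-- row ELD2 -/
def Eld2Statement : Prop :=
  ∀ (d : ℕ) (κ ι : Type) [Finite κ] (W : Wld d κ ι) (u : Fin d → ℝ), Gen W.H u →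
    ∀ B Q : Finset (Fin d → ℝ), (∀ p ∈ B, Birth W u p) →
    (∀ v, Vert W.H v → W.Bd v → v ∈ Q) →
    B.card ≤ 1 + ∑ v ∈ Q, (PatF W v).card

/-- row DIS: two cells with a common pattern are equal -/
def DisStatement : Prop :=
  ∀ (d m : ℕ) (ι : Type) [Fintype ι] (T : ι → Patch d m) (R₀ R : ℝ), 0 < R₀ → R₀ < R →
    (∀ i, (T i).car ⊆ Metric.ball 0 R₀) → ∀ x y, x ∉ ⋃ i, (T i).car → y ∉ ⋃ i, (T i).car →
    ∀ W W' : Wld d (KK d m ι) ι, W.H = HH T R → W.O = Metric.ball 0 R →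
      W.C = cell T x ∩ Metric.ball 0 R → W.I = Iv T → W.ak = Sum.inl → W'.H = HH T R →
      W'.O = Metric.ball 0 R → W'.C = cell T y ∩ Metric.ball 0 R → W'.I = Iv T →
      W'.ak = Sum.inl →
    ∀ v S, S ∈ PatF W v → S ∈ PatF W' v → cell T x = cell T y

/-- row CVX: a cell whose closure contains no point of the relative boundary of a patch is
convex -/
def CvxStatement : Prop :=
  ∀ (d m : ℕ) (ι : Type) [Fintype ι] (T : ι → Patch d m) (x : Fin d → ℝ),
    x ∉ ⋃ i, (T i).car → (∀ v ∈ closure (cell T x), ¬ Bdv T v) → Convex ℝ (cell T x)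

/-- row NCV: a non-convex cell has a pattern at a vertex on the relative boundary of a patch -/
def NcvStatement : Prop :=
  ∀ (d m : ℕ) (ι : Type) [Fintype ι] (T : ι → Patch d m) (R₀ R : ℝ), 0 < R₀ → R₀ < R →
    (∀ i, (T i).car ⊆ Metric.ball 0 R₀) → ∀ x, x ∉ ⋃ i, (T i).car → ¬ Convex ℝ (cell T x) →
    ∀ W : Wld d (KK d m ι) ι, W.H = HH T R → W.O = Metric.ball 0 R →
      W.C = cell T x ∩ Metric.ball 0 R → W.I = Iv T → W.ak = Sum.inl →
    ∃ v, Vert (HH T R) v ∧ Bdv T v ∧ (PatF W v).Nonempty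

/-- row LOP: at a point `p` of the closure of a cell there is a pattern of the cell (used to
count the outer vertices with multiplicity) -/
def LopStatement : Prop :=
  ∀ (d m : ℕ) (ι : Type) [Fintype ι] (T : ι → Patch d m) (R₀ R : ℝ), 0 < R₀ → R₀ < R →
    (∀ i, (T i).car ⊆ Metric.ball 0 R₀) → ∀ x, x ∉ ⋃ i, (T i).car →
    ∀ W : Wld d (KK d m ι) ι, W.H = HH T R → W.O = Metric.ball 0 R →
      W.C = cell T x ∩ Metric.ball 0 R → W.I = Iv T → W.ak = Sum.inl →
    ∀ p ∈ closure (cell T x), p ∈ Metric.ball 0 R → (PatF W p).Nonempty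

/-- THEOREM C (`k` directions, many cells): any `M` cells have total complexity
`O(M + n^(d-1))`, and all but `O(n^(d-1))` cells are convex. -/
def MainCStatement : Prop :=
  ∀ d m k c : ℕ, 2 ≤ d → ∃ K : ℕ, ∀ (ι : Type) [Fintype ι] (T : ι → Patch d m)
    (dir : Fin k → Fin d → ℝ), (∀ i, ∃ j, ∃ t : ℝ, (T i).a = t • dir j) →
    (∀ i, Bornology.IsBounded (T i).car) → (∀ y, {i | y ∈ (T i).car}.ncard ≤ c) →
    (∀ M ⊆ cells T, M.Finite → (inc T M).Finite ∧
      (inc T M).ncard ≤ K * (M.ncard + Fintype.card ι ^ (d - 1))) ∧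
    {C ∈ cells T | ¬ Convex ℝ C}.Finite ∧
      {C ∈ cells T | ¬ Convex ℝ C}.ncard ≤ K * Fintype.card ι ^ (d - 1)

/-- THEOREM D (arbitrary hyperplanes, many cells): the total number of strict local minima of a
functional on the branches of any `M` cells is `O(M + n^(d-1))`, and all but `O(n^(d-1))` cells
are convex. -/
def MainDStatement : Prop :=
  ∀ d m c : ℕ, 2 ≤ d → ∃ K : ℕ, ∀ (ι : Type) [Fintype ι] (T : ι → Patch d m),
    (∀ i, Bornology.IsBounded (T i).car) → (∀ y, {i | y ∈ (T i).car}.ncard ≤ c) →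
    (∀ M ⊆ cells T, M.Finite → ∀ u : Fin d → ℝ,
      {q : Set (Fin d → ℝ) × (Fin d → ℝ) | q.1 ∈ M ∧ BranchMin q.1 u q.2}.Finite ∧
      {q : Set (Fin d → ℝ) × (Fin d → ℝ) | q.1 ∈ M ∧ BranchMin q.1 u q.2}.ncard ≤
        K * (M.ncard + Fintype.card ι ^ (d - 1))) ∧
    {C ∈ cells T | ¬ Convex ℝ C}.Finite ∧
      {C ∈ cells T | ¬ Convex ℝ C}.ncard ≤ K * Fintype.card ι ^ (d - 1)

end Pool.Agent.Lib.MP_7c3106_co
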