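import Pool.Agent.Lib.MP_7c3106_co.Eld
import Pool.Agent.Lib.MP_7c3106_co.Iface2

/-!
MP_7c3106_co, row ELD2: the elder rule, with the number of patterns of the cell.
-/

namespace Pool.Agent.Lib.MP_7c3106_co.Eld2

open Relation
open Pool.Agent.Lib.MP_7c3106_co.Eld

variable {d : ℕ} {κ ι : Type}

theorem eld2 (h1 : ConStatement) (h2 : MinStatement) (h3 : LocStatement) (h4 : BirStatement)
    (h5 : ChaStatement) : Eld2Statement := by
  classical
  intro d κ ι _ W u hg B Q hB hQ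
  obtain ⟨hM1, hM2, hM3⟩ := h2 d κ ι W u hg
  have hσ : ∀ p : B, ∃ σ, Nd W σ ∧ bt W.H u σ = u ⬝ᵥ p.1 ∧ p.1 ∈ cl W.H σ ∧
      ∀ τ, ReflTransGen (RelLe W u (u ⬝ᵥ p.1)) σ τ → u ⬝ᵥ p.1 ≤ bt W.H u τ :=
    fun p => h4 d κ ι W u hg p.1 (hB p.1 p.2)
  choose σ hσ1 hσ2 hσ3 hσ4 using hσ
  have hinj : ∀ p q : B, u ⬝ᵥ p.1 = u ⬝ᵥ q.1 → p = q := by
    intro p q hpq
    have hV : ∀ p : B, Vert W.H p.1 := by
      intro p
      obtain ⟨p', hp', hV', he', hmin'⟩ := hM1 (σ p) (hσ1 p)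
      have := (hmin' p.1 (hσ3 p)).2 (by rw [he', hσ2 p])
      rw [this]; exact hV'
    exact Subtype.ext (hg.g2 _ _ (hV p) (hV q) hpq)
  -- the set of non-oldest births
  set B' : Finset B := Finset.univ.filter (fun p => ∃ ρ, Nd W ρ ∧ bt W.H u ρ < u ⬝ᵥ p.1) with hB'
  have hrest : (Finset.univ.filter
      (fun p : B => ¬ ∃ ρ, Nd W ρ ∧ bt W.H u ρ < u ⬝ᵥ p.1)).card ≤ 1 := by
    rw [Finset.card_le_one]
    intro p hp q hq
    rw [Finset.mem_filter] at hp hq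
    apply hinj
    apply le_antisymm
    · by_contra hcon
      rw [not_le] at hcon
      exact hp.2 ⟨σ q, hσ1 q, by rw [hσ2 q]; exact hcon⟩
    · by_contra hcon
      rw [not_le] at hcon
      exact hq.2 ⟨σ p, hσ1 p, by rw [hσ2 p]; exact hcon⟩
  have hcard : B.card ≤ 1 + B'.card := by
    have h := Finset.card_filter_add_card_filter_not (s := (Finset.univ : Finset B))
      (fun p => ∃ ρ, Nd W ρ ∧ bt W.H u ρ < u ⬝ᵥ p.1)
    rw [Finset.card_univ, Fintype.card_coe] at h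
    have h0 : B'.card = (Finset.univ.filter
      (fun p : B => ∃ ρ, Nd W ρ ∧ bt W.H u ρ < u ⬝ᵥ p.1)).card := rfl
    rw [← h, ← h0, add_comm]
    exact Nat.add_le_add_right hrest _
  refine hcard.trans (Nat.add_le_add_left ?_ 1)
  have hm : ∀ p : B', ∃ v, Vert W.H v ∧ W.Bd v ∧ ∃ c, Nd W c ∧ (∀ k, c k ≠ 0) ∧ v ∈ cl W.H c ∧
      bt W.H u c < u ⬝ᵥ v ∧ ReflTransGen (RelLt W u (u ⬝ᵥ v)) (σ p.1) c ∧
      ∀ ρ, ReflTransGen (RelLt W u (u ⬝ᵥ v)) (σ p.1) ρ → u ⬝ᵥ p.1.1 ≤ bt W.H u ρ := by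
    intro p
    have hp := (Finset.mem_filter.mp p.2).2
    exact merge h1 h2 h3 h5 W u hg p.1.1 (σ p.1) (hσ1 p.1) (hσ2 p.1) (hσ4 p.1) hp
  choose v hv1 hv2 c hc1 hc2 hc3 hc4 hc5 hc6 using hm
  set F : B' → (Σ _ : (Fin d → ℝ), Finset ι) :=
    fun p => ⟨v p, (W.I (v p)).filter (fun i => c p (W.ak i) = 1)⟩ with hF
  have hmaps : ∀ p ∈ (Finset.univ : Finset B'), F p ∈ Q.sigma (fun v => PatF W v) := by
    intro p _
    rw [Finset.mem_sigma]
    refine ⟨hQ _ (hv1 p) (hv2 p), ?_⟩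
    unfold PatF
    rw [Finset.mem_filter]
    refine ⟨Finset.mem_powerset.mpr (Finset.filter_subset _ _), c p, hc1 p, hc2 p, hc3 p, ?_⟩
    ext i
    simp only [hF, Finset.mem_filter]
  have hFinj : Set.InjOn F (Finset.univ : Finset B') := by
    intro p _ q _ hpq
    have e1 : v p = v q := congrArg Sigma.fst hpq
    have e2 : (W.I (v p)).filter (fun i => c p (W.ak i) = 1) =
        (W.I (v q)).filter (fun i => c q (W.ak i) = 1) := by
      have := congrArg Sigma.snd hpq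
      exact this
    have hsign : ∀ i ∈ W.I (v p), c q (W.ak i) = c p (W.ak i) := by
      intro i hi
      have hiq : i ∈ W.I (v q) := by rw [← e1]; exact hi
      have h := Finset.ext_iff.mp e2 i
      rw [Finset.mem_filter, Finset.mem_filter] at h
      have h' : c p (W.ak i) = 1 ↔ c q (W.ak i) = 1 := by
        constructor
        · intro h0; exact (h.mp ⟨hi, h0⟩).2
        · intro h0; exact (h.mpr ⟨hiq, h0⟩).2
      exact sign_eq (hc2 p (W.ak i)) (hc2 q (W.ak i)) h'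
    have hloc := h3 d κ ι W u hg (v p) (c p) (c q) (hc1 p) (hc1 q) (hc3 p)
      (by rw [e1]; exact hc3 q) (hc4 p) (by rw [e1]; exact hc4 q)
      (fun i hi => ⟨hc2 p _, hsign i hi⟩)
    have hcq := hc5 q
    rw [← e1] at hcq
    have h12 : ReflTransGen (RelLt W u (u ⬝ᵥ v p)) (σ p.1) (σ q.1) :=
      ((hc5 p).trans hloc).trans (clt_symm hcq)
    have i1 := hc6 p _ h12
    rw [hσ2] at i1
    have i2 := hc6 q (σ p.1) (by rw [← e1]; exact clt_symm h12)
    rw [hσ2] at i2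
    exact Subtype.ext (hinj _ _ (le_antisymm i1 i2))
  have h := Finset.card_le_card_of_injOn F hmaps hFinj
  rw [Finset.card_univ, Fintype.card_coe, Finset.card_sigma] at h
  exact h

end Pool.Agent.Lib.MP_7c3106_co.Eld2
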