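import Pool.Agent.Lib.MP_7c3106_co.Iface
import Pool.Agent.Lib.MP_7c3106_co.Bpv
import Pool.Agent.Lib.MP_7c3106_co.Wld

/-!
MP_7c3106_co, board CELL, row FAC: from vertices to faces of all dimensions.
-/

namespace Pool.Agent.Lib.MP_7c3106_co

open Filter Topology

namespace Fac

variable {d m : ℕ} {ι : Type}

/-- the signs at `z` of the forms of the patch `P` -/
noncomputable def ps (P : Patch d m) (z : Fin d → ℝ) : Option (Fin m) → SignType
  | none => SignType.sign (P.a ⬝ᵥ z - P.b)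
  | some j => SignType.sign (P.l j ⬝ᵥ z - P.c j)

lemma mem_car_iff (P : Patch d m) (z : Fin d → ℝ) :
    z ∈ P.car ↔ ps P z none = 0 ∧ ∀ j, ps P z (some j) ≠ -1 := by
  constructor
  · rintro ⟨h1, h2⟩
    refine ⟨?_, fun j h => ?_⟩
    · simp only [ps]
      rw [sign_eq_zero_iff, h1, sub_self]
    · simp only [ps] at h
      rw [sign_eq_neg_one_iff] at h
      have := h2 j
      linarith
  · rintro ⟨h1, h2⟩
    simp only [ps] at h1 h2
    rw [sign_eq_zero_iff] at h1
    refine ⟨by linarith, fun j => ?_⟩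
    by_contra h
    apply h2 j
    rw [sign_eq_neg_one_iff]
    linarith [not_le.1 h]

lemma act_iff (P : Patch d m) (z : Fin d → ℝ) (j : Fin m) :
    P.l j ⬝ᵥ z = P.c j ↔ ps P z (some j) = 0 := by
  simp only [ps]
  rw [sign_eq_zero_iff, sub_eq_zero]

/-- the sign of an affine function is constant on a segment if it is the same at the ends -/
lemma sign_seg (a : Fin d → ℝ) (b : ℝ) {z z' : Fin d → ℝ} {t : ℝ} (h0 : 0 ≤ t) (h1 : t ≤ 1)
    (h : SignType.sign (a ⬝ᵥ z' - b) = SignType.sign (a ⬝ᵥ z - b)) :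
    SignType.sign (a ⬝ᵥ (z + t • (z' - z)) - b) = SignType.sign (a ⬝ᵥ z - b) := by
  have key : a ⬝ᵥ (z + t • (z' - z)) - b = (1 - t) * (a ⬝ᵥ z - b) + t * (a ⬝ᵥ z' - b) := by
    rw [dotProduct_add, dotProduct_smul, dotProduct_sub, smul_eq_mul]
    ring
  rw [key]
  have ht : 0 ≤ 1 - t := by linarith
  rcases lt_trichotomy (a ⬝ᵥ z - b) 0 with hs | hs | hs
  · rw [sign_neg hs] at h ⊢
    rw [sign_eq_neg_one_iff] at h ⊢
    rcases eq_or_lt_of_le h0 with h2 | h2
    · rw [← h2]; linarith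
    · have := mul_neg_of_pos_of_neg h2 h
      have := mul_nonpos_of_nonneg_of_nonpos ht hs.le
      linarith
  · rw [hs, sign_zero] at h ⊢
    rw [sign_eq_zero_iff] at h ⊢
    rw [h]; ring
  · rw [sign_pos hs] at h ⊢
    rw [sign_eq_one_iff] at h ⊢
    rcases eq_or_lt_of_le h0 with h2 | h2
    · rw [← h2]; linarith
    · have := mul_pos h2 h
      have := mul_nonneg ht hs.le
      linarith

lemma ps_seg (P : Patch d m) {z z' : Fin d → ℝ} {t : ℝ} (h0 : 0 ≤ t) (h1 : t ≤ 1)
    (h : ps P z' = ps P z) : ps P (z + t • (z' - z)) = ps P z := by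
  funext o
  have := congrFun h o
  cases o with
  | none => exact sign_seg _ _ h0 h1 this
  | some j => exact sign_seg _ _ h0 h1 this

/-- the points near `p` have the same type if they have the same signs for the patches
through `p` -/
lemma tp_eq (T : ι → Patch d m) {p z z' : Fin d → ℝ}
    (hz : ∀ i, p ∉ (T i).car → z ∉ (T i).car) (hz' : ∀ i, p ∉ (T i).car → z' ∉ (T i).car)
    (h : ∀ i, p ∈ (T i).car → ps (T i) z' = ps (T i) z) : tp T z' = tp T z := by
  have h1 : ∀ i, z' ∈ (T i).car ↔ z ∈ (T i).car := by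
    intro i
    by_cases hp : p ∈ (T i).car
    · rw [mem_car_iff, mem_car_iff, h i hp]
    · exact ⟨fun hh => absurd hh (hz' i hp), fun hh => absurd hh (hz i hp)⟩
  refine Prod.ext (Set.ext fun i => h1 i) (Set.ext fun q => ?_)
  show (z' ∈ (T q.1).car ∧ (T q.1).l q.2 ⬝ᵥ z' = (T q.1).c q.2) ↔
    (z ∈ (T q.1).car ∧ (T q.1).l q.2 ⬝ᵥ z = (T q.1).c q.2)
  by_cases hp : p ∈ (T q.1).car
  · rw [h1, act_iff, act_iff, h _ hp]
  · exact ⟨fun hh => absurd hh.1 (hz' _ hp), fun hh => absurd hh.1 (hz _ hp)⟩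

lemma mem_face (T : ι → Patch d m) (y : Fin d → ℝ) : y ∈ face T y :=
  mem_connectedComponentIn rfl

lemma tp_of_mem_face {T : ι → Patch d m} {y z : Fin d → ℝ} (hz : z ∈ face T y) :
    tp T z = tp T y := by
  have h : z ∈ {z | tp T z = tp T y} := connectedComponentIn_subset _ _ hz
  exact h

lemma face_eq {T : ι → Patch d m} {y z : Fin d → ℝ} (hz : z ∈ face T y) :
    face T z = face T y := by
  have h := tp_of_mem_face hz
  unfold face at hz ⊢
  rw [h]
  exact (connectedComponentIn_eq hz).symm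

/-- points near `p` with the same signs are in the same face -/
lemma face_seg (T : ι → Patch d m) {p z z' : Fin d → ℝ} {ρ : ℝ}
    (hρ : ∀ y ∈ Metric.ball p ρ, ∀ i, p ∉ (T i).car → y ∉ (T i).car)
    (hz : z ∈ Metric.ball p ρ) (hz' : z' ∈ Metric.ball p ρ)
    (h : ∀ i, p ∈ (T i).car → ps (T i) z' = ps (T i) z) : face T z' = face T z := by
  apply face_eq
  obtain ⟨Sg, hSg⟩ : ∃ Sg : Set (Fin d → ℝ),
      Sg = (fun q : ℝ => z + q • (z' - z)) '' Set.Icc 0 1 := ⟨_, rfl⟩
  have hc : IsPreconnected Sg := by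
    rw [hSg]
    exact isPreconnected_Icc.image _ (by fun_prop)
  have h1 : z ∈ Sg := by
    rw [hSg]
    exact ⟨0, by simp, by simp⟩
  have h2 : z' ∈ Sg := by
    rw [hSg]
    exact ⟨1, by simp, by simp⟩
  refine hc.subset_connectedComponentIn h1 ?_ h2
  rw [hSg]
  rintro _ ⟨q, hq, rfl⟩
  refine tp_eq T (hρ z hz) (hρ _ ?_) fun i hi => ps_seg _ hq.1 hq.2 (h i hi)
  have := (convex_ball p ρ).add_smul_sub_mem hz hz' hq
  exact this

/-- moving in a direction which is killed by all forms through `p` does not change the face -/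
lemma face_trans (T : ι → Patch d m) {p z w : Fin d → ℝ} {ρ : ℝ}
    (hρ : ∀ y ∈ Metric.ball p ρ, (∀ i, p ∉ (T i).car → y ∉ (T i).car) ∧
      ∀ i j, (T i).c j < (T i).l j ⬝ᵥ p → (T i).c j < (T i).l j ⬝ᵥ y)
    (hw : ∀ i, p ∈ (T i).car → (T i).a ⬝ᵥ w = 0 ∧
      ∀ j, (T i).l j ⬝ᵥ p = (T i).c j → (T i).l j ⬝ᵥ w = 0)
    (hz : z ∈ Metric.ball p ρ) (hz' : z + w ∈ Metric.ball p ρ) : face T (z + w) = face T z := by
  refine face_seg T (fun y hy => (hρ y hy).1) hz hz' fun i hi => ?_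
  obtain ⟨h1, h2⟩ := hw i hi
  funext o
  cases o with
  | none =>
    simp only [ps]
    rw [dotProduct_add, h1, add_zero]
  | some j =>
    simp only [ps]
    rcases (hi.2 j).lt_or_eq with h | h
    · have e1 := (hρ z hz).2 i j h
      have e2 := (hρ _ hz').2 i j h
      rw [sign_pos (by linarith), sign_pos (by linarith)]
    · rw [dotProduct_add, h2 j h.symm, add_zero]

lemma exists_ball [Finite ι] (T : ι → Patch d m) (p : Fin d → ℝ) : ∃ ρ > 0,
    ∀ y ∈ Metric.ball p ρ, (∀ i, p ∉ (T i).car → y ∉ (T i).car) ∧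
      ∀ i j, (T i).c j < (T i).l j ⬝ᵥ p → (T i).c j < (T i).l j ⬝ᵥ y :=
  Metric.eventually_nhds_iff_ball.1 (Bpv.nbhd T p)

/-- near a point of the closure of a cell, the points of the same type are in the closure -/
lemma loc_closure [Fintype ι] (T : ι → Patch d m) (x y : Fin d → ℝ)
    (hy : y ∈ closure (cell T x)) : ∃ ρ > 0, ∀ z ∈ Metric.ball y ρ, tp T z = tp T y →
      z ∈ closure (cell T x) := by
  obtain ⟨ρ, hρ, hball⟩ := exists_ball T y
  refine ⟨ρ / 2, by positivity, fun z hz htp => ?_⟩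
  rw [Metric.mem_closure_iff]
  intro ε hε
  obtain ⟨q, hq, hdq⟩ := Metric.mem_closure_iff.1 hy (min ε (ρ / 2)) (by positivity)
  have hq1 : dist y q < ε := lt_of_lt_of_le hdq (min_le_left _ _)
  have hq2 : dist y q < ρ / 2 := lt_of_lt_of_le hdq (min_le_right _ _)
  obtain ⟨w, hwd⟩ : ∃ w, w = z - y := ⟨_, rfl⟩
  have hw : ∀ i, y ∈ (T i).car → (T i).a ⬝ᵥ w = 0 ∧
      ∀ j, (T i).l j ⬝ᵥ y = (T i).c j → (T i).l j ⬝ᵥ w = 0 := by
    intro i hi
    have h1 : ∀ i, z ∈ (T i).car ↔ y ∈ (T i).car := fun i =>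
      Set.ext_iff.1 (congrArg Prod.fst htp) i
    have h2 : ∀ i j, (z ∈ (T i).car ∧ (T i).l j ⬝ᵥ z = (T i).c j) ↔
        (y ∈ (T i).car ∧ (T i).l j ⬝ᵥ y = (T i).c j) := fun i j =>
      Set.ext_iff.1 (congrArg Prod.snd htp) (i, j)
    refine ⟨?_, fun j hj => ?_⟩
    · rw [hwd, dotProduct_sub, ((h1 i).2 hi).1, hi.1, sub_self]
    · rw [hwd, dotProduct_sub, ((h2 i j).2 ⟨hi, hj⟩).2, hj, sub_self]
  refine ⟨q + w, ?_, ?_⟩
  · obtain ⟨Sg, hSg⟩ : ∃ Sg : Set (Fin d → ℝ),
      Sg = (fun t : ℝ => q + t • w) '' Set.Icc 0 1 := ⟨_, rfl⟩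
    have hc : IsPreconnected Sg := by
      rw [hSg]
      exact isPreconnected_Icc.image _ (by fun_prop)
    have h1 : q ∈ Sg := by
      rw [hSg]
      exact ⟨0, by simp, by simp⟩
    have h2 : q + w ∈ Sg := by
      rw [hSg]
      exact ⟨1, by simp, by simp⟩
    refine WldRow.sub_cell T hc ?_ h1 hq h2
    rw [hSg]
    rintro _ ⟨t, ht, rfl⟩
    have hb : q + t • w ∈ Metric.ball y ρ := by
      rw [Metric.mem_ball, dist_eq_norm]
      have e1 : q + t • w - y = (q - y) + t • w := by abel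
      rw [e1]
      have e2 : ‖t • w‖ ≤ ‖w‖ := by
        rw [norm_smul, Real.norm_eq_abs, abs_of_nonneg ht.1]
        exact mul_le_of_le_one_left (norm_nonneg _) ht.2
      have e3 : ‖w‖ < ρ / 2 := by
        rw [hwd, ← dist_eq_norm]
        exact hz
      have e4 : ‖q - y‖ < ρ / 2 := by
        rw [← dist_eq_norm, dist_comm]
        exact hq2
      calc ‖q - y + t • w‖ ≤ ‖q - y‖ + ‖t • w‖ := norm_add_le _ _
        _ < ρ := by linarith
    have hqb : q ∈ Metric.ball y ρ := by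
      rw [Metric.mem_ball, dist_comm]
      linarith
    exact Bpv.move hw (hball q hqb).2 (hball _ hb).1 (WldRow.cell_sub T x hq)
  · have : z = y + w := by rw [hwd]; abel
    rw [this, dist_add_right]
    exact hq1

/-- a face through a point of the closure of a cell is in the closure -/
lemma face_sub_closure [Fintype ι] (T : ι → Patch d m) (x y : Fin d → ℝ)
    (hy : y ∈ closure (cell T x)) : face T y ⊆ closure (cell T x) := by
  by_contra hcon
  obtain ⟨z, hz, hzn⟩ := Set.not_subset.1 hcon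
  choose ρ hρ hρ2 using fun q : closure (cell T x) => loc_closure T x q.1 q.2
  have hc : IsPreconnected (face T y) := isPreconnected_connectedComponentIn
  obtain ⟨V, hV⟩ : ∃ V : Set (Fin d → ℝ), V = ⋃ q : {q : closure (cell T x) // q.1 ∈ face T y},
    Metric.ball q.1.1 (ρ q.1) := ⟨_, rfl⟩
  have hVo : IsOpen V := by
    rw [hV]
    exact isOpen_iUnion fun _ => Metric.isOpen_ball
  have hcov : face T y ⊆ V ∪ (closure (cell T x))ᶜ := by
    intro q hq
    by_cases h : q ∈ closure (cell T x)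
    · left
      rw [hV]
      exact Set.mem_iUnion.2 ⟨⟨⟨q, h⟩, hq⟩, Metric.mem_ball_self (hρ _)⟩
    · exact Or.inr h
  have hyV : y ∈ V := by
    rcases hcov (mem_face T y) with h | h
    · exact h
    · exact absurd hy h
  obtain ⟨q, hq, hqV, hqc⟩ := hc V (closure (cell T x))ᶜ hVo isClosed_closure.isOpen_compl hcov
    ⟨y, mem_face T y, hyV⟩ ⟨z, hz, hzn⟩
  rw [hV] at hqV
  obtain ⟨⟨s, hs⟩, hqs⟩ := Set.mem_iUnion.1 hqV
  apply hqc
  exact hρ2 s q hqs ((tp_of_mem_face hq).trans (tp_of_mem_face hs).symm)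

/-- a frontier point of a cell is on a patch -/
lemma exists_car [Fintype ι] (T : ι → Patch d m) {x y : Fin d → ℝ}
    (hy : y ∈ frontier (cell T x)) : ∃ i, y ∈ (T i).car := by
  by_contra hcon
  have hyc : y ∈ (⋃ i, (T i).car)ᶜ := by
    intro h
    exact hcon (Set.mem_iUnion.1 h)
  rw [(WldRow.cell_open T x).frontier_eq] at hy
  obtain ⟨z, hz1, hz2⟩ := mem_closure_iff.1 hy.1 (cell T y) (WldRow.cell_open T y)
    (mem_connectedComponentIn hyc)
  apply hy.2
  exact WldRow.sub_cell T isPreconnected_connectedComponentIn (WldRow.cell_sub T y) hz1 hz2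
    (mem_connectedComponentIn hyc)

/-- the hyperplanes of the patches and of their facets -/
def HF (T : ι → Patch d m) : Arr d (ι ⊕ (ι × Fin m)) :=
  Sum.elim (fun i => ((T i).a, (T i).b)) (fun q => ((T q.1).l q.2, (T q.1).c q.2))

/-- every bounded face has a vertex in its closure -/
lemma exists_vertex [Finite ι] (T : ι → Patch d m) {u : Fin d → ℝ} (hu : Gen (HF T) u)
    (y : Fin d → ℝ) (hb : Bornology.IsBounded (face T y)) : ∃ p ∈ closure (face T y), PV T p := by
  have hcomp : IsCompact (closure (face T y)) := hb.isCompact_closure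
  obtain ⟨p, hp, hmin⟩ := hcomp.exists_isMinOn ⟨y, subset_closure (mem_face T y)⟩
    (Bpv.cont_dot u).continuousOn
  refine ⟨p, hp, ?_⟩
  intro w hw
  by_contra hw0
  obtain ⟨w', hw', hne⟩ := hu.g1
    {k | Sum.elim (fun i => p ∈ (T i).car)
      (fun q : ι × Fin m => p ∈ (T q.1).car ∧ (T q.1).l q.2 ⬝ᵥ p = (T q.1).c q.2) k}
    ⟨w, hw0, by
      rintro (i | q) hk
      · exact (hw i hk).1
      · exact (hw q.1 hk.1).2 q.2 hk.2⟩
  have hw2 : ∀ i, p ∈ (T i).car → (T i).a ⬝ᵥ w' = 0 ∧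
      ∀ j, (T i).l j ⬝ᵥ p = (T i).c j → (T i).l j ⬝ᵥ w' = 0 := fun i hi =>
    ⟨hw' (Sum.inl i) hi, fun j hj => hw' (Sum.inr (i, j)) ⟨hi, hj⟩⟩
  obtain ⟨ρ, hρ, hball⟩ := exists_ball T p
  have hwn : 0 < ‖w'‖ := norm_pos_iff.2 (by
    rintro rfl
    exact hne (dotProduct_zero u))
  obtain ⟨s, hs⟩ : ∃ s : ℝ, s = ρ / (2 * ‖w'‖) := ⟨_, rfl⟩
  have hs0 : 0 < s := by rw [hs]; positivity
  have hsw : s * ‖w'‖ = ρ / 2 := by
    rw [hs]
    field_simp
  have key : ∀ t : ℝ, |t| = s → p + t • w' ∈ closure (face T y) := by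
    intro t ht
    rw [Metric.mem_closure_iff]
    intro ε hε
    obtain ⟨z, hz, hdz⟩ := Metric.mem_closure_iff.1 hp (min ε (ρ / 2)) (by positivity)
    have hz1 : dist p z < ε := lt_of_lt_of_le hdz (min_le_left _ _)
    have hz2 : dist p z < ρ / 2 := lt_of_lt_of_le hdz (min_le_right _ _)
    refine ⟨z + t • w', ?_, by rwa [dist_add_right]⟩
    have hzb : z ∈ Metric.ball p ρ := by
      rw [Metric.mem_ball, dist_comm]
      linarith
    have hzb' : z + t • w' ∈ Metric.ball p ρ := by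
      rw [Metric.mem_ball, dist_eq_norm]
      have e1 : z + t • w' - p = (z - p) + t • w' := by abel
      rw [e1]
      have e2 : ‖t • w'‖ = ρ / 2 := by
        rw [norm_smul, Real.norm_eq_abs, ht, hsw]
      have e4 : ‖z - p‖ < ρ / 2 := by
        rw [← dist_eq_norm, dist_comm]
        exact hz2
      calc ‖z - p + t • w'‖ ≤ ‖z - p‖ + ‖t • w'‖ := norm_add_le _ _
        _ < ρ := by linarith
    have h1 : face T (z + t • w') = face T z := by
      refine face_trans T hball (fun i hi => ⟨?_, fun j hj => ?_⟩) hzb hzb'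
      · rw [dotProduct_smul, (hw2 i hi).1, smul_zero]
      · rw [dotProduct_smul, (hw2 i hi).2 j hj, smul_zero]
    rw [← face_eq hz, ← h1]
    exact mem_face T _
  have h1 := hmin (key s (abs_of_pos hs0))
  have h2 := hmin (key (-s) (by rw [abs_neg, abs_of_pos hs0]))
  simp only [Set.mem_ofPred_eq, dotProduct_add, dotProduct_smul, smul_eq_mul] at h1 h2
  have h3 : s * (u ⬝ᵥ w') = 0 := by linarith
  rcases mul_eq_zero.1 h3 with h | h
  · exact hs0.ne' h
  · exact hne h

/-- the number of the faces with the point `p` in the closure -/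
lemma local_count [Fintype ι] (T : ι → Patch d m) (p : Fin d → ℝ) :
    {f | ∃ y, f = face T y ∧ p ∈ closure f}.Finite ∧
    {f | ∃ y, f = face T y ∧ p ∈ closure f}.ncard ≤
      3 ^ ({i | p ∈ (T i).car}.ncard * (m + 1)) := by
  classical
  obtain ⟨ρ, hρ, hball⟩ := exists_ball T p
  have hex : ∀ f ∈ {f | ∃ y, f = face T y ∧ p ∈ closure f}, ∃ z, z ∈ f ∧ z ∈ Metric.ball p ρ := by
    rintro f ⟨y, rfl, hp⟩
    obtain ⟨z, hz, hd⟩ := Metric.mem_closure_iff.1 hp ρ hρ
    exact ⟨z, hz, by rwa [Metric.mem_ball, dist_comm]⟩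
  choose! zf hzf hzb using hex
  obtain ⟨Φ, hΦ⟩ : ∃ Φ : Set (Fin d → ℝ) → ({i // p ∈ (T i).car} × Option (Fin m)) → SignType,
    Φ = fun f q => ps (T q.1.1) (zf f) q.2 := ⟨_, rfl⟩
  have hinj : Set.InjOn Φ {f | ∃ y, f = face T y ∧ p ∈ closure f} := by
    intro f hf g hg hfg
    have h1 := hzf f hf
    have h2 := hzf g hg
    have h3 := face_seg T (fun y hy => (hball y hy).1) (hzb f hf) (hzb g hg) (fun i hi => by
      funext o
      have := congrFun hfg (⟨i, hi⟩, o)
      rw [hΦ] at this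
      exact this.symm)
    obtain ⟨y, hy, -⟩ := hf
    obtain ⟨y', hy', -⟩ := hg
    have h4 : face T (zf f) = f := by
      rw [hy] at h1 ⊢
      exact face_eq h1
    have h5 : face T (zf g) = g := by
      rw [hy'] at h2 ⊢
      exact face_eq h2
    rw [← h4, ← h5]
    exact h3.symm
  refine ⟨Set.Finite.of_injOn (Set.mapsTo_univ _ _) hinj Set.finite_univ, ?_⟩
  refine (Set.ncard_le_ncard_of_injOn Φ (fun _ _ => Set.mem_univ _) hinj
    Set.finite_univ).trans ?_
  rw [Set.ncard_univ, Nat.card_eq_fintype_card, Fintype.card_fun, Fintype.card_prod,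
    Fintype.card_option, Fintype.card_fin]
  have h3 : Fintype.card SignType = 3 := by decide
  have h4 : Fintype.card {i // p ∈ (T i).car} = {i | p ∈ (T i).car}.ncard := by
    rw [← Nat.card_eq_fintype_card]
    rfl
  rw [h3, h4]

end Fac

theorem fac (h : GenStatement) : FacStatement := by
  classical
  intro d m c ι _ T hb hc x hx S hS
  obtain ⟨u, -, hu⟩ := h d _ (Fac.HF T) Set.univ isOpen_univ Set.univ_nonempty
  have hfin : ∀ p, {f | ∃ y, f = face T y ∧ p ∈ closure f}.Finite := fun p =>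
    (Fac.local_count T p).1
  have hsub : bdFaces T (cell T x) ⊆ (S.biUnion fun p => (hfin p).toFinset : Finset _) := by
    rintro f ⟨y, hy, rfl⟩
    obtain ⟨i, hi⟩ := Fac.exists_car T hy
    have hsubc : face T y ⊆ (T i).car := by
      intro z hz
      exact (Set.ext_iff.1 (congrArg Prod.fst (Fac.tp_of_mem_face hz)) i).2 hi
    obtain ⟨p, hp, hv⟩ := Fac.exists_vertex T hu y ((hb i).subset hsubc)
    have hpc : p ∈ closure (cell T x) := by
      have h1 := Fac.face_sub_closure T x y (frontier_subset_closure hy)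
      exact closure_minimal h1 isClosed_closure hp
    rw [Finset.mem_coe, Finset.mem_biUnion]
    refine ⟨p, hS p hpc hv, ?_⟩
    rw [Set.Finite.mem_toFinset]
    exact ⟨y, rfl, hp⟩
  refine ⟨(Finset.finite_toSet _).subset hsub, ?_⟩
  refine (Set.ncard_le_ncard hsub (Finset.finite_toSet _)).trans ?_
  rw [Set.ncard_coe_finset, mul_comm]
  refine Finset.card_biUnion_le_card_mul _ _ _ fun p _ => ?_
  rw [← Set.ncard_eq_toFinset_card _ (hfin p)]
  refine (Fac.local_count T p).2.trans ?_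
  exact Nat.pow_le_pow_right (by norm_num) (Nat.mul_le_mul_right _ (hc p))

end Pool.Agent.Lib.MP_7c3106_co
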