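import Pool.Agent.Lib.MP_7c3106_co.Iface

/-!
MP_7c3106_co, board CELL, row GEN: generic functionals are dense.
-/

namespace Pool.Agent.Lib.MP_7c3106_co.Gen

open Pool.Agent.Lib.MP_7c3106_co

theorem dot_continuous {d : ℕ} (v : Fin d → ℝ) : Continuous (fun u : Fin d → ℝ => u ⬝ᵥ v) := by
  unfold dotProduct
  fun_prop

theorem one {d : ℕ} {U : Set (Fin d → ℝ)} (hU : IsOpen U) (hne : U.Nonempty) {v : Fin d → ℝ}
    (hv : v ≠ 0) : ∃ u ∈ U, u ⬝ᵥ v ≠ 0 := by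
  obtain ⟨a, ha⟩ := hne
  by_cases h : a ⬝ᵥ v = 0
  · have hc : Continuous (fun t : ℝ => a + t • v) := by fun_prop
    have h0 : (fun t : ℝ => a + t • v) 0 ∈ U := by simpa using ha
    have hnb : (fun t : ℝ => a + t • v) ⁻¹' U ∈ nhds (0 : ℝ) :=
      (hU.preimage hc).mem_nhds h0
    obtain ⟨ε, hε, hb⟩ := Metric.mem_nhds_iff.1 hnb
    have hm : (ε / 2) ∈ Metric.ball (0 : ℝ) ε := by
      rw [Metric.mem_ball, Real.dist_eq, sub_zero, abs_of_pos (by linarith)]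
      linarith
    refine ⟨a + (ε / 2) • v, hb hm, ?_⟩
    · rw [add_dotProduct, h, zero_add, smul_dotProduct, smul_eq_mul]
      refine mul_ne_zero (by linarith) ?_
      rwa [Ne, dotProduct_self_eq_zero]
  · exact ⟨a, ha, h⟩

theorem many {d : ℕ} {F : Set (Fin d → ℝ)} (hF : F.Finite) :
    (∀ v ∈ F, v ≠ 0) → ∀ U : Set (Fin d → ℝ), IsOpen U → U.Nonempty →
      ∃ u ∈ U, ∀ v ∈ F, u ⬝ᵥ v ≠ 0 := by
  induction F, hF using Set.Finite.induction_on with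
  | empty =>
    intro _ U _ hne
    obtain ⟨a, ha⟩ := hne
    exact ⟨a, ha, fun v hv => absurd hv (Set.notMem_empty v)⟩
  | @insert v F _ _ ih =>
    intro h U hU hne
    have hU' : IsOpen (U ∩ {u | u ⬝ᵥ v ≠ 0}) :=
      hU.inter (isOpen_ne_fun (dot_continuous v) continuous_const)
    obtain ⟨a, ha, ha'⟩ := one hU hne (h v (Set.mem_insert v F))
    obtain ⟨u, hu, hF⟩ := ih (fun x hx => h x (Set.mem_insert_of_mem v hx)) _ hU' ⟨a, ha, ha'⟩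
    refine ⟨u, hu.1, fun x hx => ?_⟩
    rcases Set.mem_insert_iff.1 hx with rfl | hx
    · exact hu.2
    · exact hF x hx

theorem gen (h : VfiStatement) : GenStatement := by
  intro d κ _ H U hU hne
  have hfin := h d κ H
  classical
  let f : Set κ → (Fin d → ℝ) := fun S =>
    if hS : ∃ w, w ≠ 0 ∧ ∀ k ∈ S, (H k).1 ⬝ᵥ w = 0 then hS.choose else 0
  have hf : ∀ S, (∃ w, w ≠ 0 ∧ ∀ k ∈ S, (H k).1 ⬝ᵥ w = 0) →
      f S ≠ 0 ∧ ∀ k ∈ S, (H k).1 ⬝ᵥ f S = 0 := by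
    intro S hS
    have e : f S = hS.choose := dif_pos hS
    rw [e]
    exact hS.choose_spec
  have hF : ((Set.range f ∪ (fun q : (Fin d → ℝ) × (Fin d → ℝ) => q.1 - q.2) ''
      ({p | Vert H p} ×ˢ {p | Vert H p})) \ {0}).Finite :=
    ((Set.finite_range f).union ((hfin.prod hfin).image _)).sdiff
  obtain ⟨u, hu, hn⟩ := many hF (fun v hv => hv.2) U hU hne
  refine ⟨u, hu, ?_, ?_⟩
  · intro S hS
    obtain ⟨h0, h1⟩ := hf S hS
    exact ⟨f S, h1, hn _ ⟨Or.inl ⟨S, rfl⟩, h0⟩⟩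
  · intro p q hp hq e
    by_contra hpq
    refine hn (p - q) ⟨Or.inr ⟨(p, q), ⟨hp, hq⟩, rfl⟩, sub_ne_zero.2 hpq⟩ ?_
    rw [dotProduct_sub, e, sub_self]

end Pool.Agent.Lib.MP_7c3106_co.Gen
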