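import Pool.Agent.Lib.MP_7c3106_co.Iface4

/-!
MP_7c3106_co, row GOO2: finitely many open sets of functionals for all inner vertices which are
not flat.
-/

namespace Pool.Agent.Lib.MP_7c3106_co.Goo2

/-- an open simplicial cone -/
theorem cone {d : ℕ} (f : Fin d → Fin d → ℝ) (hf : LinearIndependent ℝ f) (e : Fin d → Bool) :
    ∃ U : Set (Fin d → ℝ), IsOpen U ∧ U.Nonempty ∧ ∀ u ∈ U, ∃ lam : Fin d → ℝ,
      (∀ s, 0 < lam s) ∧ u = ∑ s, (lam s * (if e s then 1 else -1)) • f s := by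
  classical
  let b : Module.Basis (Fin d) ℝ (Fin d → ℝ) :=
    basisOfLinearIndependentOfCardEqFinrank' f hf (by simp)
  have hb : ∀ s, b s = f s := fun s => by
    simp [b]
  have hcont : ∀ s, Continuous (fun x : Fin d → ℝ => b.repr x s) := by
    intro s
    exact (LinearMap.continuous_of_finiteDimensional
      ((Finsupp.lapply s : (Fin d →₀ ℝ) →ₗ[ℝ] ℝ) ∘ₗ b.repr.toLinearMap))
  let sgn : Fin d → ℝ := fun s => if e s then 1 else -1
  have hsgn : ∀ s, sgn s * sgn s = 1 := by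
    intro s
    simp only [sgn]
    split_ifs <;> norm_num
  let U : Set (Fin d → ℝ) := ⋂ s, {x | 0 < sgn s * b.repr x s}
  have hU : IsOpen U := by
    refine isOpen_iInter_of_finite ?_
    intro s
    exact isOpen_lt continuous_const (continuous_const.mul (hcont s))
  have hUne : U.Nonempty := by
    refine ⟨∑ s, sgn s • b s, ?_⟩
    rw [Set.mem_iInter]
    intro s
    show 0 < sgn s * b.repr (∑ s, sgn s • b s) s
    rw [b.repr_sum_self, hsgn]
    exact one_pos
  refine ⟨U, hU, hUne, ?_⟩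
  intro u huU
  rw [Set.mem_iInter] at huU
  refine ⟨fun s => sgn s * b.repr u s, huU, ?_⟩
  have h1 := b.sum_repr u
  rw [← h1]
  refine Finset.sum_congr rfl ?_
  intro s _
  rw [hb s]
  congr 1
  show _ = sgn s * _ * sgn s
  rw [h1]
  calc b.repr u s = (sgn s * sgn s) * b.repr u s := by rw [hsgn, one_mul]
    _ = _ := by ring

/-- finitely many balls of functionals for all pointed branches -/
theorem net (d : ℕ) (ε : ℝ) (hε : 0 < ε) : ∃ (N : ℕ) (U : Fin N → Set (Fin d → ℝ)),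
    (∀ j, IsOpen (U j) ∧ (U j).Nonempty) ∧
    ∀ (C : Set (Fin d → ℝ)) (p : Fin d → ℝ), Pointed C ε p → ∃ j, ∀ u ∈ U j, BranchMin C u p := by
  classical
  obtain ⟨δ, hδ0, hδ⟩ : ∃ δ : ℝ, 0 < δ ∧ d * δ < ε := by
    refine ⟨ε / (2 * (d + 1)), by positivity, ?_⟩
    have h1 : (0 : ℝ) ≤ d := Nat.cast_nonneg d
    have h2 : (d : ℝ) * (ε / (2 * (d + 1))) = ε * (d / (2 * (d + 1))) := by ring
    rw [h2]
    have h3 : (d : ℝ) / (2 * (d + 1)) < 1 := by
      rw [div_lt_one (by positivity)]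
      linarith
    nlinarith
  have hcomp : IsCompact (Metric.closedBall (0 : Fin d → ℝ) 1) := isCompact_closedBall _ _
  obtain ⟨t, ht, hcov⟩ := hcomp.elim_nhds_subcover (fun v => Metric.ball v (δ / 2))
    (fun v _ => Metric.ball_mem_nhds v (half_pos hδ0))
  let e := t.equivFin
  refine ⟨t.card, fun j => Metric.ball (e.symm j).1 (δ / 2), fun j =>
    ⟨Metric.isOpen_ball, Metric.nonempty_ball.mpr (half_pos hδ0)⟩, ?_⟩
  rintro C p ⟨r, hr, y, hy, hpy, u, hu, hmin⟩
  have hu' : u ∈ Metric.closedBall (0 : Fin d → ℝ) 1 := by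
    rw [mem_closedBall_zero_iff]; exact hu
  obtain ⟨v, hv⟩ := Set.mem_iUnion.mp (hcov hu')
  obtain ⟨hvt, huv⟩ := Set.mem_iUnion.mp hv
  refine ⟨e ⟨v, hvt⟩, ?_⟩
  intro u' hu'
  have hu'' : u' ∈ Metric.ball v (δ / 2) := by
    have h1 : (e.symm (e ⟨v, hvt⟩)).1 = v := by rw [Equiv.symm_apply_apply]
    have h2 : u' ∈ Metric.ball (e.symm (e ⟨v, hvt⟩)).1 (δ / 2) := hu'
    rwa [h1] at h2
  refine ⟨r, hr, y, hy, hpy, ?_⟩
  intro x hx hxp
  have hdist : ‖u - u'‖ < δ := by
    rw [← dist_eq_norm]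
    calc dist u u' ≤ dist u v + dist v u' := dist_triangle _ _ _
      _ = dist u v + dist u' v := by rw [dist_comm v u']
      _ < δ / 2 + δ / 2 := add_lt_add (Metric.mem_ball.mp huv) (Metric.mem_ball.mp hu'')
      _ = δ := by ring
  have hdot : |(u - u') ⬝ᵥ (x - p)| ≤ d * (‖u - u'‖ * ‖x - p‖) := by
    unfold dotProduct
    calc |∑ i, (u - u') i * (x - p) i| ≤ ∑ i, |(u - u') i * (x - p) i| :=
          Finset.abs_sum_le_sum_abs _ _
      _ ≤ ∑ _i : Fin d, (‖u - u'‖ * ‖x - p‖) := by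
          apply Finset.sum_le_sum
          intro i _
          rw [abs_mul]
          exact mul_le_mul (norm_le_pi_norm (u - u') i) (norm_le_pi_norm (x - p) i)
            (abs_nonneg _) (norm_nonneg _)
      _ = d * (‖u - u'‖ * ‖x - p‖) := by
          rw [Finset.sum_const, Finset.card_univ, Fintype.card_fin, nsmul_eq_mul]
  have hpos : 0 < ‖x - p‖ := norm_pos_iff.mpr (sub_ne_zero.mpr hxp)
  have h1 := hmin x hx
  have h2 : u' ⬝ᵥ (x - p) = u ⬝ᵥ (x - p) - (u - u') ⬝ᵥ (x - p) := by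
    rw [sub_dotProduct]; ring
  have h3 : (u - u') ⬝ᵥ (x - p) ≤ d * (‖u - u'‖ * ‖x - p‖) := (le_abs_self _).trans hdot
  have h4 : (d : ℝ) * (‖u - u'‖ * ‖x - p‖) ≤ d * δ * ‖x - p‖ := by
    have h5 : ‖u - u'‖ * ‖x - p‖ ≤ δ * ‖x - p‖ :=
      mul_le_mul_of_nonneg_right hdist.le hpos.le
    calc (d : ℝ) * (‖u - u'‖ * ‖x - p‖) ≤ d * (δ * ‖x - p‖) :=
          mul_le_mul_of_nonneg_left h5 (Nat.cast_nonneg d)
      _ = d * δ * ‖x - p‖ := by ring
  have h5 : d * δ * ‖x - p‖ < ε * ‖x - p‖ := mul_lt_mul_of_pos_right hδ hpos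
  have h6 : 0 < u' ⬝ᵥ (x - p) := by
    rw [h2]; linarith
  rw [dotProduct_sub] at h6
  linarith

theorem goo2 (h1 : BmiStatement) (h2 : InbStatement) : Goo2Statement := by
  classical
  intro d m k ε hd hε
  obtain ⟨N₁, U₁, hU₁, hTr⟩ := net d ε hε
  refine ⟨Fintype.card (Fin N₁ ⊕ ((Fin d → Fin k) × (Fin d → Bool))), ?_⟩
  intro dir
  have hcone : ∀ q : (Fin d → Fin k) × (Fin d → Bool), ∃ U : Set (Fin d → ℝ), IsOpen U ∧
      U.Nonempty ∧ (LinearIndependent ℝ (fun s => dir (q.1 s)) → ∀ u ∈ U,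
        ∃ lam : Fin d → ℝ, (∀ s, 0 < lam s) ∧
          u = ∑ s, (lam s * (if q.2 s then 1 else -1)) • dir (q.1 s)) := by
    intro q
    by_cases h : LinearIndependent ℝ (fun s => dir (q.1 s))
    · obtain ⟨U, a1, a2, a3⟩ := cone (fun s => dir (q.1 s)) h q.2
      exact ⟨U, a1, a2, fun _ => a3⟩
    · exact ⟨Set.univ, isOpen_univ, ⟨0, trivial⟩, fun h' => absurd h' h⟩
  choose U₂ hU₂a hU₂b hU₂c using hcone
  set F : Fin N₁ ⊕ ((Fin d → Fin k) × (Fin d → Bool)) → Set (Fin d → ℝ) :=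
    Sum.elim U₁ U₂ with hF
  let E := Fintype.equivFin (Fin N₁ ⊕ ((Fin d → Fin k) × (Fin d → Bool)))
  refine ⟨fun j => F (E.symm j), ?_, ?_⟩
  · intro j
    show IsOpen (F (E.symm j)) ∧ (F (E.symm j)).Nonempty
    rcases E.symm j with j' | q
    · exact hU₁ j'
    · exact ⟨hU₂a q, hU₂b q⟩
  intro ι _ T R₀ R hR₀ hR hball x hx W hH hC hI hak hBd p hp hnB hgood
  have key : ∀ o : Fin N₁ ⊕ ((Fin d → Fin k) × (Fin d → Bool)), (∀ u ∈ F o, Birth W u p) →
      ∃ j, ∀ u ∈ (fun j => F (E.symm j)) j, Birth W u p := by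
    intro o ho
    refine ⟨E o, ?_⟩
    intro u hu
    have hu' : u ∈ F (E.symm (E o)) := hu
    rw [Equiv.symm_apply_apply] at hu'
    exact ho u hu'
  have hane : ∀ i, (T i).a ≠ 0 := fun i => (T i).ha
  rcases hgood with hpt | ⟨g, hg, hli, hdir⟩
  · obtain ⟨j, hj⟩ := hTr (cell T x) p hpt
    refine key (Sum.inl j) ?_
    intro u hu
    obtain ⟨V, -, huV, hV⟩ := h1 d m ι T R₀ R hR₀ hR hball x hx W hH hC hI hak hBd u {p}
      (by
        intro q hq
        rw [Finset.mem_singleton] at hq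
        rw [hq]
        exact ⟨hnB, hj u hu⟩)
    exact hV u huV p (Finset.mem_singleton_self p)
  · obtain ⟨e, he⟩ := h2 d m ι T R₀ R hd hR₀ hR hball x hx W hH hC hI hak hBd p hp hnB g hg hli
    choose J t ht using hdir
    have htn : ∀ s, t s ≠ 0 := by
      intro s h0
      apply hane (g s)
      rw [ht s, h0, zero_smul]
    have hli' : LinearIndependent ℝ (fun s => dir (J s)) := by
      have h3 : (fun s => (T (g s)).a) =
          (fun s => Units.mk0 (t s) (htn _)) • (fun s => dir (J s)) := by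
        funext s
        show (T (g s)).a = Units.mk0 (t s) (htn _) • dir (J s)
        rw [Units.smul_mk0]
        exact ht _
      rw [h3] at hli
      exact (LinearIndependent.units_smul_iff _ _).mp hli
    set e' : Fin d → Bool := fun s => if 0 < t s then e s else !(e s) with he'
    refine key (Sum.inr (J, e')) ?_
    intro u hu
    obtain ⟨lam, hlam, hul⟩ := hU₂c (J, e') hli' u hu
    have hb := he (fun s => lam s * |t s|⁻¹) (fun s =>
      mul_pos (hlam s) (inv_pos.mpr (abs_pos.mpr (htn s))))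
    have : u = ∑ s, ((fun s => lam s * |t s|⁻¹) s * (if e s then 1 else -1)) •
        (T (g s)).a := by
      rw [hul]
      apply Finset.sum_congr rfl
      intro s _
      show (lam s * (if e' s then 1 else -1)) • dir (J s) =
        (lam s * |t s|⁻¹ * (if e s then 1 else -1)) • (T (g s)).a
      rw [ht s, smul_smul]
      congr 1
      rw [he']
      rcases lt_or_gt_of_ne (htn s) with h | h
      · rw [abs_of_neg h]
        have h5 : ¬ (0 < t s) := not_lt.mpr h.le
        have h6 : (-t s)⁻¹ * t s = -1 := by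
          rw [inv_neg, neg_mul, inv_mul_cancel₀ (htn s)]
        simp only [h5, if_false]
        have h7 : lam s * (-t s)⁻¹ * (if e s = true then (1 : ℝ) else -1) * t s =
            lam s * ((-t s)⁻¹ * t s) * (if e s = true then (1 : ℝ) else -1) := by ring
        rw [h7, h6]
        cases e s <;> simp
      · rw [abs_of_pos h]
        have h6 : (t s)⁻¹ * t s = 1 := inv_mul_cancel₀ (htn s)
        simp only [h, if_true]
        have h7 : lam s * (t s)⁻¹ * (if e s = true then (1 : ℝ) else -1) * t s =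
            lam s * ((t s)⁻¹ * t s) * (if e s = true then (1 : ℝ) else -1) := by ring
        rw [h7, h6, mul_one]
    rw [this]
    exact hb

end Pool.Agent.Lib.MP_7c3106_co.Goo2
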