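import Pool.Agent.Lib.MP_7c3106_co.Iface

/-!
MP_7c3106_co, board CELL, row INN: inner vertices are minima of one of `(2k)^d` families of
functionals.
-/

namespace Pool.Agent.Lib.MP_7c3106_co.InnRow

open Pool.Agent.Lib.MP_7c3106_co

/-- a family of vectors with trivial common kernel contains a basis -/
theorem exists_basis {d : ℕ} {α : Type} (v : α → Fin d → ℝ)
    (h : ∀ w : Fin d → ℝ, (∀ i, v i ⬝ᵥ w = 0) → w = 0) :
    ∃ f : Fin d → α, LinearIndependent ℝ (fun s => v (f s)) := by
  classical
  have hspan : Submodule.span ℝ (Set.range v) = ⊤ := by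
    by_contra hne
    obtain ⟨φ, hφ, hle⟩ := Submodule.exists_le_ker_of_lt_top _ (lt_top_iff_ne_top.mpr hne)
    apply hφ
    have hw : (fun j => φ (Pi.single j 1)) = (0 : Fin d → ℝ) := by
      apply h
      intro i
      have h1 : φ (v i) = 0 := hle (Submodule.subset_span ⟨i, rfl⟩)
      have h2 : v i = ∑ j, v i j • (Pi.single j (1 : ℝ) : Fin d → ℝ) := by
        funext l
        simp [Finset.sum_apply, Pi.single_apply]
      rw [h2, map_sum] at h1
      rw [← h1]
      unfold dotProduct
      apply Finset.sum_congr rfl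
      intro j _
      rw [map_smul, smul_eq_mul]
    apply LinearMap.pi_ext'
    intro j
    apply LinearMap.ext_ring
    simpa using congrFun hw j
  obtain ⟨b, hb, hbspan, hbli⟩ := exists_linearIndependent ℝ (Set.range v)
  have hbasis : Submodule.span ℝ (Set.range (Subtype.val : b → Fin d → ℝ)) = ⊤ := by
    rw [Subtype.range_coe, hbspan, hspan]
  let B : Module.Basis b ℝ (Fin d → ℝ) := Module.Basis.mk hbli hbasis.ge
  have : Finite b := Module.Finite.finite_basis B
  let _ : Fintype b := Fintype.ofFinite b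
  have hcard : Fintype.card b = d := by
    rw [← Module.finrank_eq_card_basis B, Module.finrank_fin_fun]
  let E : Fin d ≃ b := (Fintype.equivFinOfCardEq hcard).symm
  have hch : ∀ s : Fin d, ∃ i, v i = (E s : Fin d → ℝ) := fun s => hb (E s).2
  choose f hf using hch
  refine ⟨f, ?_⟩
  have : (fun s => v (f s)) = (Subtype.val : b → Fin d → ℝ) ∘ E := by
    funext s
    exact hf s
  rw [this]
  exact hbli.comp E E.injective

/-- a basis has trivial common kernel -/
theorem kernel_basis {d : ℕ} (v : Fin d → Fin d → ℝ) (h : LinearIndependent ℝ v)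
    (w : Fin d → ℝ) (hw : ∀ s, v s ⬝ᵥ w = 0) : w = 0 := by
  have hspan : Submodule.span ℝ (Set.range v) = ⊤ :=
    h.span_eq_top_of_card_eq_finrank' (by simp)
  have h1 : ∀ y : Fin d → ℝ, y ⬝ᵥ w = 0 := by
    intro y
    have hy : y ∈ Submodule.span ℝ (Set.range v) := by rw [hspan]; trivial
    induction hy using Submodule.span_induction with
    | mem x hx =>
      obtain ⟨s, rfl⟩ := hx
      exact hw s
    | zero => simp
    | add x y _ _ hx hy => rw [add_dotProduct, hx, hy, add_zero]
    | smul a x _ hx => rw [smul_dotProduct, hx, smul_zero]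
  exact dotProduct_self_eq_zero.mp (h1 w)

/-- close to a point the non-zero signs do not change -/
theorem near {d : ℕ} {κ : Type} [Finite κ] (H : Arr d κ) (p : Fin d → ℝ) :
    ∀ᶠ z in nhds p, Le (sg H p) (sg H z) := by
  have h1 : ∀ k : κ, ∀ᶠ z in nhds p, sg H p k ≠ 0 → sg H z k = sg H p k := by
    intro k
    have hc : Continuous (ev H k) := by
      unfold ev
      exact (continuous_const.dotProduct continuous_id).sub continuous_const
    rcases lt_trichotomy (ev H k p) 0 with h | h | h
    · filter_upwards [hc.continuousAt.eventually (gt_mem_nhds h)] with z hz _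
      unfold sg
      rw [sign_neg h, sign_neg hz]
    · refine Filter.Eventually.of_forall ?_
      intro z hz
      exact absurd (by unfold sg; rw [h, sign_zero]) hz
    · filter_upwards [hc.continuousAt.eventually (lt_mem_nhds h)] with z hz _
      unfold sg
      rw [sign_pos h, sign_pos hz]
  exact Filter.eventually_all.mpr h1

theorem inn : InnStatement := by
  intro d m k ι _ T dir hdir R₀ R hR₀ hR hball x hx W hH hC hI hak hBd p hp hPV hnB
  classical
  -- the interior conditions
  have hker : ∀ w : Fin d → ℝ, (∀ i : {i // p ∈ (T i).car}, (T i.1).a ⬝ᵥ w = 0) → w = 0 := by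
    intro w hw
    apply hPV
    intro i hi
    refine ⟨hw ⟨i, hi⟩, ?_⟩
    intro j hj
    exact absurd ⟨i, j, hi, hj⟩ hnB
  obtain ⟨f, hf⟩ := exists_basis (fun i : {i // p ∈ (T i).car} => (T i.1).a) hker
  have hpR : p ∈ Metric.ball (0 : Fin d → ℝ) R := by
    by_cases hne : ∃ i, p ∈ (T i).car
    · obtain ⟨i, hi⟩ := hne
      exact Metric.ball_subset_ball hR.le (hball i hi)
    · have h0 : p = 0 := hker p (fun i => absurd ⟨i.1, i.2⟩ hne)
      rw [h0]
      exact Metric.mem_ball_self (hR₀.trans hR)
  -- the point `z`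
  have hev : ∀ᶠ z in nhds p, Le (sg (HH T R) p) (sg (HH T R) z) ∧ z ∈ Metric.ball 0 R :=
    (near (HH T R) p).and (Metric.isOpen_ball.mem_nhds hpR)
  obtain ⟨z, ⟨hz1, hzR⟩, hzC⟩ := (mem_closure_iff_nhds.mp hp) _ hev
  have hzcell : z ∉ ⋃ i, (T i).car := by
    have : cell T x ⊆ (⋃ i, (T i).car)ᶜ := connectedComponentIn_subset _ _
    exact this hzC
  have hznz : ∀ i, p ∈ (T i).car → ev (HH T R) (Sum.inl i) z ≠ 0 := by
    intro i hi h0
    apply hzcell
    refine Set.mem_iUnion.mpr ⟨i, ?_, ?_⟩
    · have h1 : (T i).a ⬝ᵥ z - (T i).b = 0 := h0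
      linarith
    · intro j
      have h1 : ev (HH T R) (Sum.inr (Sum.inl (i, j))) p = (T i).l j ⬝ᵥ p - (T i).c j := rfl
      have h2 : ev (HH T R) (Sum.inr (Sum.inl (i, j))) z = (T i).l j ⬝ᵥ z - (T i).c j := rfl
      have h3 : 0 < (T i).l j ⬝ᵥ p - (T i).c j := by
        rcases (hi.2 j).lt_or_eq with h | h
        · linarith
        · exact absurd ⟨i, j, hi, h.symm⟩ hnB
      have h4 : sg (HH T R) p (Sum.inr (Sum.inl (i, j))) = 1 := by
        unfold sg
        rw [h1, sign_pos h3]
      have h5 := hz1 (Sum.inr (Sum.inl (i, j))) (by rw [h4]; decide)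
      rw [h4] at h5
      unfold sg at h5
      rw [h2, sign_eq_one_iff] at h5
      linarith
  -- the directions
  choose J t ht using hdir
  have htn : ∀ i, t i ≠ 0 := by
    intro i h0
    apply (T i).ha
    rw [ht i, h0, zero_smul]
  have hli : LinearIndependent ℝ (fun s => dir (J (f s).1)) := by
    have h1 : (fun s => (T (f s).1).a) =
        (fun s => Units.mk0 (t (f s).1) (htn _)) • (fun s => dir (J (f s).1)) := by
      funext s
      show (T (f s).1).a = Units.mk0 (t (f s).1) (htn _) • dir (J (f s).1)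
      rw [Units.smul_mk0]
      exact ht _
    rw [h1] at hf
    exact (LinearIndependent.units_smul_iff _ _).mp hf
  refine ⟨fun s => J (f s).1, fun s => decide (0 < t (f s).1 * ev (HH T R) (Sum.inl (f s).1) z),
    hli, ?_⟩
  intro lam hlam
  refine ⟨by rw [hBd]; exact hnB, z, by rw [hC]; exact ⟨hzC, hzR⟩, ?_, ?_⟩
  · rw [hH]
    exact hz1
  · intro w hw hcone
    rw [hH, hI, hak] at hcone
    have hterm : ∀ s : Fin d, 0 ≤ (lam s * (if decide (0 < t (f s).1 *
        ev (HH T R) (Sum.inl (f s).1) z) = true then (1 : ℝ) else -1)) *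
          (dir (J (f s).1) ⬝ᵥ w) := by
      intro s
      have h1 := hcone (f s).1 (by unfold Iv; simp [(f s).2])
      have h2 : ((HH T R) (Sum.inl (f s).1)).1 ⬝ᵥ w = t (f s).1 * (dir (J (f s).1) ⬝ᵥ w) := by
        show (T (f s).1).a ⬝ᵥ w = _
        rw [ht (f s).1, smul_dotProduct, smul_eq_mul]
      rw [h2] at h1
      have h3 : 0 ≤ (t (f s).1 * ev (HH T R) (Sum.inl (f s).1) z) *
          (dir (J (f s).1) ⬝ᵥ w) := by
        calc (0 : ℝ) ≤ _ := h1
          _ = _ := by ring
      have h4 : t (f s).1 * ev (HH T R) (Sum.inl (f s).1) z ≠ 0 :=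
        mul_ne_zero (htn _) (hznz _ (f s).2)
      rw [mul_assoc]
      refine mul_nonneg (hlam s).le ?_
      by_cases h5 : 0 < t (f s).1 * ev (HH T R) (Sum.inl (f s).1) z
      · rw [if_pos (by simpa using h5), one_mul]
        exact nonneg_of_mul_nonneg_right h3 h5
      · rw [if_neg (by simpa using h5)]
        have h6 : t (f s).1 * ev (HH T R) (Sum.inl (f s).1) z < 0 :=
          lt_of_le_of_ne (not_lt.mp h5) h4
        have h7 : dir (J (f s).1) ⬝ᵥ w ≤ 0 := by
          by_contra h8
          push Not at h8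
          have := mul_neg_of_neg_of_pos h6 h8
          linarith
        linarith
    have hsum : (∑ s, (lam s * (if decide (0 < t (f s).1 *
        ev (HH T R) (Sum.inl (f s).1) z) = true then (1 : ℝ) else -1)) •
          dir (J (f s).1)) ⬝ᵥ w = ∑ s, (lam s * (if decide (0 < t (f s).1 *
        ev (HH T R) (Sum.inl (f s).1) z) = true then (1 : ℝ) else -1)) *
          (dir (J (f s).1) ⬝ᵥ w) := by
      rw [sum_dotProduct]
      apply Finset.sum_congr rfl
      intro s _
      rw [smul_dotProduct, smul_eq_mul]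
    rw [hsum]
    refine lt_of_le_of_ne (Finset.sum_nonneg (fun s _ => hterm s)) ?_
    intro h0
    apply hw
    apply kernel_basis _ hli
    intro s
    have h1 := (Finset.sum_eq_zero_iff_of_nonneg (fun s _ => hterm s)).mp h0.symm s
      (Finset.mem_univ s)
    rcases mul_eq_zero.mp h1 with h2 | h2
    · exfalso
      rcases mul_eq_zero.mp h2 with h3 | h3
      · exact (hlam s).ne' h3
      · split_ifs at h3
        · exact one_ne_zero h3
        · exact (neg_ne_zero.mpr one_ne_zero) h3
    · exact h2

end Pool.Agent.Lib.MP_7c3106_co.InnRow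

namespace Pool.Agent.Lib.MP_7c3106_co

theorem inn : InnStatement := InnRow.inn

end Pool.Agent.Lib.MP_7c3106_co
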