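import Pool.Agent.Lib.MP_7c3106_co.Iface3
import Pool.Agent.Lib.MP_7c3106_co.Inn

/-!
MP_7c3106_co, row INB: an inner vertex is a minimum of all functionals of an open cone.
-/

namespace Pool.Agent.Lib.MP_7c3106_co.Inb

open Pool.Agent.Lib.MP_7c3106_co.InnRow

theorem inb : InbStatement := by
  intro d m ι _ T R₀ R hd hR₀ hR hball x hx W hH hC hI hak hBd p hp hnB g hg hli
  classical
  have hpR : p ∈ Metric.ball (0 : Fin d → ℝ) R :=
    Metric.ball_subset_ball hR.le (hball (g ⟨0, hd⟩) (hg ⟨0, hd⟩))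
  -- the point `z`
  have hev : ∀ᶠ z in nhds p, Le (sg (HH T R) p) (sg (HH T R) z) ∧ z ∈ Metric.ball 0 R :=
    (near (HH T R) p).and (Metric.isOpen_ball.mem_nhds hpR)
  obtain ⟨z, ⟨hz1, hzR⟩, hzC⟩ := (mem_closure_iff_nhds.mp hp) _ hev
  have hzcell : z ∉ ⋃ i, (T i).car := by
    have : cell T x ⊆ (⋃ i, (T i).car)ᶜ := connectedComponentIn_subset _ _
    exact this hzC
  have hznz : ∀ i, p ∈ (T i).car → ev (HH T R) (Sum.inl i) z ≠ 0 := by
    intro i hi h0
    apply hzcell
    refine Set.mem_iUnion.mpr ⟨i, ?_, ?_⟩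
    · have h1 : (T i).a ⬝ᵥ z - (T i).b = 0 := h0
      linarith
    · intro j
      have h1 : ev (HH T R) (Sum.inr (Sum.inl (i, j))) p = (T i).l j ⬝ᵥ p - (T i).c j := rfl
      have h2 : ev (HH T R) (Sum.inr (Sum.inl (i, j))) z = (T i).l j ⬝ᵥ z - (T i).c j := rfl
      have h3 : 0 < (T i).l j ⬝ᵥ p - (T i).c j := by
        rcases (hi.2 j).lt_or_eq with h | h
        · linarith
        · exact absurd ⟨i, j, hi, h.symm⟩ hnB
      have h4 : sg (HH T R) p (Sum.inr (Sum.inl (i, j))) = 1 := by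
        unfold sg
        rw [h1, sign_pos h3]
      have h5 := hz1 (Sum.inr (Sum.inl (i, j))) (by rw [h4]; decide)
      rw [h4] at h5
      unfold sg at h5
      rw [h2, sign_eq_one_iff] at h5
      linarith
  refine ⟨fun s => decide (0 < ev (HH T R) (Sum.inl (g s)) z), ?_⟩
  intro lam hlam
  refine ⟨by rw [hBd]; exact hnB, z, by rw [hC]; exact ⟨hzC, hzR⟩, ?_, ?_⟩
  · rw [hH]
    exact hz1
  · intro w hw hcone
    rw [hH, hI, hak] at hcone
    have hterm : ∀ s : Fin d, 0 ≤ (lam s * (if decide (0 <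
        ev (HH T R) (Sum.inl (g s)) z) = true then (1 : ℝ) else -1)) *
          ((T (g s)).a ⬝ᵥ w) := by
      intro s
      have h3 : 0 ≤ ev (HH T R) (Sum.inl (g s)) z * ((T (g s)).a ⬝ᵥ w) :=
        hcone (g s) (by unfold Iv; simp [hg s])
      have h4 : ev (HH T R) (Sum.inl (g s)) z ≠ 0 := hznz _ (hg s)
      rw [mul_assoc]
      refine mul_nonneg (hlam s).le ?_
      by_cases h5 : 0 < ev (HH T R) (Sum.inl (g s)) z
      · rw [if_pos (by simpa using h5), one_mul]
        exact nonneg_of_mul_nonneg_right h3 h5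
      · rw [if_neg (by simpa using h5)]
        have h6 : ev (HH T R) (Sum.inl (g s)) z < 0 :=
          lt_of_le_of_ne (not_lt.mp h5) h4
        have h7 : (T (g s)).a ⬝ᵥ w ≤ 0 := by
          by_contra h8
          push Not at h8
          have := mul_neg_of_neg_of_pos h6 h8
          linarith
        linarith
    have hsum : (∑ s, (lam s * (if decide (0 <
        ev (HH T R) (Sum.inl (g s)) z) = true then (1 : ℝ) else -1)) •
          (T (g s)).a) ⬝ᵥ w = ∑ s, (lam s * (if decide (0 <
        ev (HH T R) (Sum.inl (g s)) z) = true then (1 : ℝ) else -1)) *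
          ((T (g s)).a ⬝ᵥ w) := by
      rw [sum_dotProduct]
      apply Finset.sum_congr rfl
      intro s _
      rw [smul_dotProduct, smul_eq_mul]
    rw [hsum]
    refine lt_of_le_of_ne (Finset.sum_nonneg (fun s _ => hterm s)) ?_
    intro h0
    apply hw
    apply kernel_basis _ hli
    intro s
    have h1 := (Finset.sum_eq_zero_iff_of_nonneg (fun s _ => hterm s)).mp h0.symm s
      (Finset.mem_univ s)
    rcases mul_eq_zero.mp h1 with h2 | h2
    · exfalso
      rcases mul_eq_zero.mp h2 with h3 | h3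
      · exact (hlam s).ne' h3
      · split_ifs at h3
        · exact one_ne_zero h3
        · exact (neg_ne_zero.mpr one_ne_zero) h3
    · exact h2

end Pool.Agent.Lib.MP_7c3106_co.Inb
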