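import Pool.Agent.Lib.MP_7c3106_co.Iface2

/-!
MP_7c3106_co, row LOP: a point of the closure of a cell has a pattern of the cell.
-/

namespace Pool.Agent.Lib.MP_7c3106_co.Lop

open Filter Topology

/-- Near `p` the sign vectors are above the sign vector of `p`. -/
theorem le_nhds {d : ℕ} {κ : Type} [Finite κ] (H : Arr d κ) (p : Fin d → ℝ) :
    ∀ᶠ z in 𝓝 p, Le (sg H p) (sg H z) := by
  unfold Le
  rw [eventually_all]
  intro k
  have hc : Continuous (fun z : Fin d → ℝ => ev H k z) := by
    unfold ev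
    exact (Continuous.dotProduct continuous_const continuous_id).sub continuous_const
  by_cases hk : ev H k p = 0
  · refine Eventually.of_forall fun z hz => absurd ?_ hz
    simp [sg, hk]
  · rcases lt_or_gt_of_ne hk with h | h
    · filter_upwards [hc.continuousAt.eventually_lt (continuousAt_const (y := (0 : ℝ))) h]
        with z hz _
      simp only [sg]
      rw [sign_neg hz, sign_neg h]
    · filter_upwards [(continuousAt_const (y := (0 : ℝ))).eventually_lt hc.continuousAt h]
        with z hz _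
      simp only [sg]
      rw [sign_pos hz, sign_pos h]

/-- Row LOP. -/
theorem lop (h : ChaStatement) : LopStatement := by
  classical
  intro d m ι _ T R₀ R _ _ _ x _ W hH _ hC _ _ p hp hpR
  have h1 : {z | Le (sg W.H p) (sg W.H z)} ∩ Metric.ball 0 R ∈ 𝓝 p :=
    inter_mem (le_nhds W.H p) (Metric.isOpen_ball.mem_nhds hpR)
  obtain ⟨z, ⟨hz1, hz2⟩, hz3⟩ := mem_closure_iff_nhds.1 hp _ h1
  have hzC : z ∈ W.C := by rw [hC]; exact ⟨hz3, hz2⟩
  obtain ⟨c, hc1, hc2, hc3⟩ := h d (KK d m ι) ι W (sg W.H z) ⟨z, hzC, rfl⟩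
  refine ⟨(W.I p).filter (fun i => c (W.ak i) = 1), ?_⟩
  unfold PatF
  rw [Finset.mem_filter]
  refine ⟨Finset.mem_powerset.2 (Finset.filter_subset _ _), c, hc1, hc3, ?_, ?_⟩
  · intro k hk
    have h2 := hz1 k hk
    rw [← h2]
    exact hc2 k (by rw [h2]; exact hk)
  · rfl

end Pool.Agent.Lib.MP_7c3106_co.Lop
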