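import Pool.Agent.Lib.MP_7c3106_co.Iface2
import Pool.Agent.Lib.MP_7c3106_co.Min
import Pool.Agent.Lib.MP_7c3106_co.Lop

/-!
MP_7c3106_co, row NCV: a non-convex cell has a pattern at a vertex on the relative boundary of a
patch.
-/

namespace Pool.Agent.Lib.MP_7c3106_co.Ncv

open Filter Topology

/-- Points of the closed face of `w` lie on the same boundaries. -/
theorem bdv_cl {d m : ℕ} {ι : Type} {T : ι → Patch d m} {R : ℝ} {w v : Fin d → ℝ}
    (hv : v ∈ cl (HH T R) (sg (HH T R) w)) (hw : Bdv T w) : Bdv T v := by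
  obtain ⟨i, j, ⟨ha, hl⟩, hj⟩ := hw
  have h0 : ∀ k, ev (HH T R) k w = 0 → ev (HH T R) k v = 0 := by
    intro k hk
    exact Min.mem_cl_zero hv (by simp [sg, hk])
  have h1 : ∀ k, 0 ≤ ev (HH T R) k w → 0 ≤ ev (HH T R) k v := by
    intro k hk
    rcases hk.lt_or_eq with h | h
    · exact Min.mem_cl_pos hv (by simp [sg, h])
    · exact (h0 k h.symm).ge
  have e1 : ∀ y : Fin d → ℝ, ev (HH T R) (Sum.inl i) y = (T i).a ⬝ᵥ y - (T i).b := fun y => rfl
  have e2 : ∀ (j : Fin m) (y : Fin d → ℝ),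
      ev (HH T R) (Sum.inr (Sum.inl (i, j))) y = (T i).l j ⬝ᵥ y - (T i).c j := fun j y => rfl
  refine ⟨i, j, ⟨?_, fun j' => ?_⟩, ?_⟩
  · have h := h0 (Sum.inl i) (by rw [e1, ha, sub_self])
    rw [e1] at h
    exact sub_eq_zero.1 h
  · have h := h1 (Sum.inr (Sum.inl (i, j'))) (by rw [e2]; exact sub_nonneg.2 (hl j'))
    rw [e2] at h
    exact sub_nonneg.1 h
  · have h := h0 (Sum.inr (Sum.inl (i, j))) (by rw [e2, hj, sub_self])
    rw [e2] at h
    exact sub_eq_zero.1 h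

/-- Row NCV. -/
theorem ncv (h1 : CvxStatement) (h2 : GenStatement) (h3 : ChaStatement) : NcvStatement := by
  classical
  intro d m ι _ T R₀ R hR₀ hR hT x hx hnc W hH hO hC hI hak
  obtain ⟨w, hw, hwB⟩ : ∃ w ∈ closure (cell T x), Bdv T w := by
    by_contra hno
    push Not at hno
    exact hnc (h1 d m ι T x hx hno)
  have hwR : w ∈ Metric.ball (0 : Fin d → ℝ) R := by
    obtain ⟨i, j, hi, -⟩ := hwB
    exact Metric.ball_subset_ball hR.le (hT i hi)
  -- a point of the cell near `w`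
  have hnh : {z | Le (sg W.H w) (sg W.H z)} ∩ Metric.ball 0 R ∈ 𝓝 w :=
    inter_mem (Lop.le_nhds W.H w) (Metric.isOpen_ball.mem_nhds hwR)
  obtain ⟨z, ⟨hz1, hz2⟩, hz3⟩ := mem_closure_iff_nhds.1 hw _ hnh
  have hzC : z ∈ W.C := by rw [hC]; exact ⟨hz3, hz2⟩
  have hsub : cl W.H (sg W.H w) ⊆ cl W.H (sg W.H z) := Min.cl_mono hz1
  -- the minimizer
  obtain ⟨u, -, hu⟩ := h2 d (KK d m ι) W.H Set.univ isOpen_univ Set.univ_nonempty
  have hcpt : IsCompact (cl W.H (sg W.H w)) :=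
    Metric.isCompact_of_isClosed_isBounded (Min.isClosed_cl _ _) ((W.bdd z hzC).subset hsub)
  obtain ⟨v, hv, hm⟩ := hcpt.exists_isMinOn ⟨w, Min.self_mem W.H w⟩ (Min.dot_cont u).continuousOn
  have hvert : Vert W.H v := Min.vert_of_min hu hv fun y hy => hm hy
  refine ⟨v, by rw [← hH]; exact hvert, ?_, ?_⟩
  · refine bdv_cl (R := R) ?_ hwB
    rw [← hH]
    exact hv
  · obtain ⟨c, hc1, hc2, hc3⟩ := h3 d (KK d m ι) ι W (sg W.H z) ⟨z, hzC, rfl⟩
    refine ⟨(W.I v).filter (fun i => c (W.ak i) = 1), ?_⟩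
    unfold PatF
    rw [Finset.mem_filter]
    refine ⟨Finset.mem_powerset.2 (Finset.filter_subset _ _), c, hc1, hc3, ?_, rfl⟩
    exact Min.cl_mono hc2 (hsub hv)

end Pool.Agent.Lib.MP_7c3106_co.Ncv
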