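import Pool.Agent.Lib.MP_7c3106_co.Iface

/-!
MP_7c3106_co, board CELL, row QCT (helper11): vertices on a flat of codimension two.
-/

namespace Pool.Agent.Lib.MP_7c3106_co.Qct

open Module

variable {d : ℕ} {κ : Type}

/-- the common kernel of the normals of the hyperplanes of `S` -/
def kr (H : Arr d κ) (S : Set κ) : Submodule ℝ (Fin d → ℝ) where
  carrier := {w | ∀ k ∈ S, (H k).1 ⬝ᵥ w = 0}
  add_mem' := by
    intro a b ha hb k hk
    rw [dotProduct_add, ha k hk, hb k hk, add_zero]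
  zero_mem' := by
    intro k _
    simp
  smul_mem' := by
    intro c x hx k hk
    rw [dotProduct_smul, hx k hk, smul_zero]

theorem mem_kr (H : Arr d κ) (S : Set κ) (w : Fin d → ℝ) :
    w ∈ kr H S ↔ ∀ k ∈ S, (H k).1 ⬝ᵥ w = 0 := Iff.rfl

theorem kr_anti (H : Arr d κ) {S S' : Set κ} (h : S ⊆ S') : kr H S' ≤ kr H S :=
  fun _ hw k hk => hw k (h hk)

theorem start (H : Arr d κ) (k₁ k₂ : κ) (h : LinearIndependent ℝ ![(H k₁).1, (H k₂).1]) :
    finrank ℝ (kr H {k₁, k₂}) ≤ d - 2 := by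
  have hne := LinearIndependent.pair_iff.1 h
  have ha : (H k₁).1 ≠ 0 := by
    intro h0
    have := hne 1 0 (by rw [h0]; simp)
    exact one_ne_zero this.1
  have haa : (H k₁).1 ⬝ᵥ (H k₁).1 ≠ 0 := by
    intro h0
    exact ha (dotProduct_self_eq_zero.1 h0)
  have c1 : kr H {k₁} < ⊤ := by
    refine lt_top_iff_ne_top.2 fun h0 => ?_
    have : (H k₁).1 ∈ kr H {k₁} := by rw [h0]; exact Submodule.mem_top
    exact haa (this k₁ rfl)
  have c2 : kr H {k₁, k₂} < kr H {k₁} := by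
    refine lt_of_le_of_ne (kr_anti H (by simp)) fun h0 => ?_
    obtain ⟨t, ht⟩ : ∃ t, t = (H k₁).1 ⬝ᵥ (H k₂).1 / (H k₁).1 ⬝ᵥ (H k₁).1 := ⟨_, rfl⟩
    obtain ⟨w, hw⟩ : ∃ w, w = (H k₂).1 - t • (H k₁).1 := ⟨_, rfl⟩
    have w1 : (H k₁).1 ⬝ᵥ w = 0 := by
      rw [hw, dotProduct_sub, dotProduct_smul, ht, smul_eq_mul, div_mul_cancel₀ _ haa, sub_self]
    have w2 : w ∈ kr H {k₁, k₂} := by
      rw [h0]
      intro k hk
      rw [Set.mem_singleton_iff] at hk
      rw [hk]
      exact w1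
    have w3 : (H k₂).1 ⬝ᵥ w = 0 := w2 k₂ (by simp)
    have w4 : w ⬝ᵥ w = 0 := by
      nth_rewrite 1 [hw]
      rw [sub_dotProduct, smul_dotProduct, w1, w3, smul_zero, sub_zero]
    have w5 : w = 0 := dotProduct_self_eq_zero.1 w4
    have := hne (-t) 1 (by
      rw [← w5, hw, neg_smul, one_smul]
      abel)
    exact one_ne_zero this.2
  have d1 := Submodule.finrank_lt_finrank_of_lt c1
  have d2 := Submodule.finrank_lt_finrank_of_lt c2
  rw [finrank_top, finrank_fin_fun] at d1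
  omega

theorem step (H : Arr d κ) (k₁ k₂ : κ) (h : LinearIndependent ℝ ![(H k₁).1, (H k₂).1])
    (p : Fin d → ℝ) (hp : Vert H p) (hk₁ : ev H k₁ p = 0) : ∀ n : ℕ,
    ∃ g : Fin n → κ, (∀ i, ev H (g i) p = 0) ∧
      finrank ℝ (kr H ({k₁, k₂} ∪ Set.range g)) ≤ d - 2 - n := by
  intro n
  induction n with
  | zero =>
    refine ⟨Fin.elim0, fun i => i.elim0, ?_⟩
    have : ({k₁, k₂} ∪ Set.range (Fin.elim0 : Fin 0 → κ) : Set κ) = {k₁, k₂} := by
      simp
    rw [this]
    exact start H k₁ k₂ h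
  | succ n ih =>
    obtain ⟨g, hg, hr⟩ := ih
    by_cases hK : kr H ({k₁, k₂} ∪ Set.range g) = ⊥
    · refine ⟨Fin.cons k₁ g, ?_, ?_⟩
      · intro i
        refine Fin.cases ?_ (fun i => ?_) i
        · exact hk₁
        · exact hg i
      · have hle : kr H ({k₁, k₂} ∪ Set.range (Fin.cons k₁ g : Fin (n + 1) → κ)) ≤ ⊥ := by
          rw [← hK]
          apply kr_anti
          intro k hk
          rcases hk with hk | ⟨i, rfl⟩
          · exact Or.inl hk
          · exact Or.inr ⟨i.succ, by simp⟩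
        rw [le_bot_iff.1 hle, finrank_bot]
        exact Nat.zero_le _
    · obtain ⟨w, hw, hw0⟩ := Submodule.exists_mem_ne_zero_of_ne_bot hK
      obtain ⟨k, hk, hkw⟩ : ∃ k, ev H k p = 0 ∧ (H k).1 ⬝ᵥ w ≠ 0 := by
        by_contra hcon
        push Not at hcon
        exact hw0 (hp w hcon)
      refine ⟨Fin.cons k g, ?_, ?_⟩
      · intro i
        refine Fin.cases ?_ (fun i => ?_) i
        · exact hk
        · exact hg i
      · have hlt : kr H ({k₁, k₂} ∪ Set.range (Fin.cons k g : Fin (n + 1) → κ)) <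
            kr H ({k₁, k₂} ∪ Set.range g) := by
          refine lt_of_le_of_ne (kr_anti H ?_) fun h0 => ?_
          · intro k hk
            rcases hk with hk | ⟨i, rfl⟩
            · exact Or.inl hk
            · exact Or.inr ⟨i.succ, by simp⟩
          · rw [← h0] at hw
            exact hkw (hw k (Or.inr ⟨0, by simp⟩))
        have := Submodule.finrank_lt_finrank_of_lt hlt
        omega

theorem qct : QctStatement := by
  classical
  intro d κ _ H k₁ k₂ hd h
  have hg : ∀ p : Fin d → ℝ, ∃ g : Fin (d - 2) → κ,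
      Vert H p ∧ ev H k₁ p = 0 ∧ ev H k₂ p = 0 → (∀ i, ev H (g i) p = 0) ∧
        kr H ({k₁, k₂} ∪ Set.range g) = ⊥ := by
    intro p
    by_cases hp : Vert H p ∧ ev H k₁ p = 0 ∧ ev H k₂ p = 0
    · obtain ⟨g, h1, h2⟩ := step H k₁ k₂ h p hp.1 hp.2.1 (d - 2)
      refine ⟨g, fun _ => ⟨h1, ?_⟩⟩
      rw [Nat.sub_self, Nat.le_zero] at h2
      exact Submodule.finrank_eq_zero.1 h2
    · exact ⟨fun _ => k₁, fun h => absurd h hp⟩
  choose g hg using hg
  have hinj : Set.InjOn g {p | Vert H p ∧ ev H k₁ p = 0 ∧ ev H k₂ p = 0} := by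
    intro p hp q hq hpq
    obtain ⟨p1, p2⟩ := hg p hp
    obtain ⟨q1, q2⟩ := hg q hq
    have key : ∀ k, ev H k p = 0 → ev H k q = 0 → (H k).1 ⬝ᵥ (p - q) = 0 := by
      intro k h1 h2
      unfold ev at h1 h2
      rw [dotProduct_sub]
      linarith
    have : p - q ∈ kr H ({k₁, k₂} ∪ Set.range (g p)) := by
      rintro k ((rfl | rfl) | ⟨i, rfl⟩)
      · exact key _ hp.2.1 hq.2.1
      · exact key _ hp.2.2 hq.2.2
      · exact key _ (p1 i) (by rw [hpq]; exact q1 i)
    rw [p2, Submodule.mem_bot] at this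
    exact sub_eq_zero.1 this
  have hfin : (Set.univ : Set (Fin (d - 2) → κ)).Finite := Set.finite_univ
  refine ⟨Set.Finite.of_injOn (fun _ _ => Set.mem_univ _) hinj hfin, ?_⟩
  have := Set.ncard_le_ncard_of_injOn g (fun _ _ => Set.mem_univ _) hinj hfin
  rw [Set.ncard_univ, Nat.card_eq_fintype_card, Fintype.card_fun, Fintype.card_fin] at this
  exact this

end Pool.Agent.Lib.MP_7c3106_co.Qct
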