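import Pool.Agent.Lib.MP_7c3106_co.Iface

/-!
# Row VFI: finitely many vertices
-/

namespace Pool.Agent.Lib.MP_7c3106_co.Vfi

/-- Two vertices with the same zero set are equal. -/
theorem eq_of_zeros {d : ℕ} {κ : Type} {H : Arr d κ} {p q : Fin d → ℝ} (hp : Vert H p)
    (h : {k | ev H k p = 0} = {k | ev H k q = 0}) : p = q := by
  have h1 : p - q = 0 := by
    refine hp _ fun k hk => ?_
    have hk' : ev H k q = 0 := by
      have : k ∈ {k | ev H k p = 0} := hk
      rw [h] at this
      exact this
    unfold ev at hk hk'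
    rw [dotProduct_sub]
    linarith
  exact sub_eq_zero.1 h1

theorem vfi : VfiStatement := by
  intro d κ _ H
  refine Set.Finite.of_finite_image (f := fun p => {k | ev H k p = 0}) (Set.toFinite _) ?_
  intro p hp q _ h
  exact eq_of_zeros hp h

end Pool.Agent.Lib.MP_7c3106_co.Vfi
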