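import Pool.Agent.Lib.MP_7c3106_co.Asmf2
import Pool.Agent.Lib.MP_7c3106_co.Asmd
import Pool.Agent.Lib.MP_7c3106_co.Eld2
import Pool.Agent.Lib.MP_7c3106_co.Conn
import Pool.Agent.Lib.MP_7c3106_co.Min
import Pool.Agent.Lib.MP_7c3106_co.Loc
import Pool.Agent.Lib.MP_7c3106_co.Bir
import Pool.Agent.Lib.MP_7c3106_co.Cha
import Pool.Agent.Lib.MP_7c3106_co.Gen
import Pool.Agent.Lib.MP_7c3106_co.Vfi
import Pool.Agent.Lib.MP_7c3106_co.Qct
import Pool.Agent.Lib.MP_7c3106_co.Box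
import Pool.Agent.Lib.MP_7c3106_co.Wld
import Pool.Agent.Lib.MP_7c3106_co.Fac
import Pool.Agent.Lib.MP_7c3106_co.Bmi
import Pool.Agent.Lib.MP_7c3106_co.Bpv
import Pool.Agent.Lib.MP_7c3106_co.Lop
import Pool.Agent.Lib.MP_7c3106_co.Dis
import Pool.Agent.Lib.MP_7c3106_co.Inb
import Pool.Agent.Lib.MP_7c3106_co.Inn
import Pool.Agent.Lib.MP_7c3106_co.Goo2
import Pool.Agent.Lib.MP_7c3106_co.Ncv
import Pool.Agent.Lib.MP_7c3106_co.Cvx

/-!
MP_7c3106_co: assembly.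
-/

namespace Pool.Agent.Lib.MP_7c3106_co.Final

open Pool.Agent.Lib.MP_7c3106_co

theorem eld2 : Eld2Statement :=
  Eld2.eld2 Con.con Min.min_ (Loc.loc Con.con Min.min_) (Bir.bir Min.min_) Cha.cha

theorem gen : GenStatement := Gen.gen Vfi.vfi

theorem wld : WldStatement := WldRow.wld Box.box

/-- in the case of `k` directions there are no flat corners -/
theorem flat_empty {d m k : ℕ} {ι : Type} (T : ι → Patch d m) (dir : Fin k → Fin d → ℝ) (ε : ℝ)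
    (M : Set (Set (Fin d → ℝ))) (h : ∀ i, ∃ j, ∃ t : ℝ, (T i).a = t • dir j) :
    flatC T dir ε M = ∅ := by
  rw [Set.eq_empty_iff_forall_notMem]
  rintro ⟨C, p⟩ ⟨-, -, hPV, hnB, -, hnd⟩
  apply hnd
  have hker : ∀ w : Fin d → ℝ, (∀ i : {i // p ∈ (T i).car}, (T i.1).a ⬝ᵥ w = 0) → w = 0 := by
    intro w hw
    apply hPV
    intro i hi
    refine ⟨hw ⟨i, hi⟩, ?_⟩
    intro j hj
    exact absurd ⟨i, j, hi, hj⟩ hnB
  obtain ⟨f, hf⟩ := InnRow.exists_basis (fun i : {i // p ∈ (T i).car} => (T i.1).a) hker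
  exact ⟨fun s => (f s).1, fun s => (f s).2, hf, fun s => h _⟩

theorem split_convex {d : ℕ} {X : Set (Set (Fin d → ℝ))} (M : Set (Set (Fin d → ℝ)))
    (hMX : M ⊆ X) (hM : M.Finite) (K N : ℕ) (hf : {C ∈ X | ¬ Convex ℝ C}.Finite)
    (hn : {C ∈ X | ¬ Convex ℝ C}.ncard ≤ K * N) :
    M.ncard ≤ {C ∈ M | Convex ℝ C}.ncard + K * N := by
  have h1 : M ⊆ {C ∈ M | Convex ℝ C} ∪ {C ∈ X | ¬ Convex ℝ C} := by
    intro C hC
    by_cases h : Convex ℝ C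
    · exact Or.inl ⟨hC, h⟩
    · exact Or.inr ⟨hMX hC, h⟩
  have h2 : ({C ∈ M | Convex ℝ C} ∪ {C ∈ X | ¬ Convex ℝ C}).Finite :=
    (hM.subset (fun C hC => hC.1)).union hf
  calc M.ncard ≤ ({C ∈ M | Convex ℝ C} ∪ {C ∈ X | ¬ Convex ℝ C}).ncard :=
        Set.ncard_le_ncard h1 h2
    _ ≤ _ := Set.ncard_union_le _ _
    _ ≤ _ := Nat.add_le_add_left hn _

theorem combineF (h : MainF2Statement) : ∀ d m k c : ℕ, 2 ≤ d → ∀ ε : ℝ, 0 < ε → ∃ K : ℕ,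
    ∀ (ι : Type) [Fintype ι] (T : ι → Patch d m) (dir : Fin k → Fin d → ℝ),
    (∀ i, Bornology.IsBounded (T i).car) → (∀ y, {i | y ∈ (T i).car}.ncard ≤ c) →
    {C ∈ cells T | ¬ Convex ℝ C}.Finite ∧
    {C ∈ cells T | ¬ Convex ℝ C}.ncard ≤ K * Fintype.card ι ^ (d - 1) ∧
    ∀ M ⊆ cells T, M.Finite →
      (inc T M).Finite ∧ (flatC T dir ε M).Finite ∧
      (inc T M).ncard ≤ K * ({C ∈ M | Convex ℝ C}.ncard + Fintype.card ι ^ (d - 1) +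
        (flatC T dir ε M).ncard) ∧
      ((∀ i, ∃ j, ∃ t : ℝ, (T i).a = t • dir j) → flatC T dir ε M = ∅) := by
  intro d m k c hd ε hε
  obtain ⟨K, hK⟩ := h d m k c hd ε hε
  refine ⟨K * (K + 1), ?_⟩
  intro ι _ T dir hb hc
  obtain ⟨h1, h2, h3⟩ := hK ι T dir hb hc
  refine ⟨h2, h3.trans (Nat.mul_le_mul_right _ (Nat.le_mul_of_pos_right K (Nat.succ_pos K))), ?_⟩
  intro M hM hMf
  obtain ⟨a1, a2, a3⟩ := h1 M hM hMf
  refine ⟨a1, a2, ?_, flat_empty T dir ε M⟩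
  have h4 := split_convex M hM hMf K _ h2 h3
  refine a3.trans ?_
  generalize (flatC T dir ε M).ncard = f at *
  generalize {C ∈ M | Convex ℝ C}.ncard = v at *
  generalize Fintype.card ι ^ (d - 1) = n at *
  calc K * (M.ncard + n + f) ≤ K * ((v + K * n) + n + f) := by gcongr
    _ ≤ K * ((K + 1) * (v + n + f)) := by
        apply Nat.mul_le_mul le_rfl
        nlinarith [Nat.zero_le (K * v), Nat.zero_le (K * f)]
    _ = K * (K + 1) * (v + n + f) := by ring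

theorem combineD (h : MainDStatement) : ∀ d m c : ℕ, 2 ≤ d → ∃ K : ℕ,
    ∀ (ι : Type) [Fintype ι] (T : ι → Patch d m),
    (∀ i, Bornology.IsBounded (T i).car) → (∀ y, {i | y ∈ (T i).car}.ncard ≤ c) →
    {C ∈ cells T | ¬ Convex ℝ C}.Finite ∧
    {C ∈ cells T | ¬ Convex ℝ C}.ncard ≤ K * Fintype.card ι ^ (d - 1) ∧
    ∀ M ⊆ cells T, M.Finite → ∀ u : Fin d → ℝ,
      {q : Set (Fin d → ℝ) × (Fin d → ℝ) | q.1 ∈ M ∧ BranchMin q.1 u q.2}.Finite ∧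
      {q : Set (Fin d → ℝ) × (Fin d → ℝ) | q.1 ∈ M ∧ BranchMin q.1 u q.2}.ncard ≤
        K * ({C ∈ M | Convex ℝ C}.ncard + Fintype.card ι ^ (d - 1)) := by
  intro d m c hd
  obtain ⟨K, hK⟩ := h d m c hd
  refine ⟨K * (K + 1), ?_⟩
  intro ι _ T hb hc
  obtain ⟨h1, h2, h3⟩ := hK ι T hb hc
  refine ⟨h2, h3.trans (Nat.mul_le_mul_right _ (Nat.le_mul_of_pos_right K (Nat.succ_pos K))), ?_⟩
  intro M hM hMf u
  obtain ⟨a1, a2⟩ := h1 M hM hMf u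
  refine ⟨a1, a2.trans ?_⟩
  have h4 := split_convex M hM hMf K _ h2 h3
  generalize {C ∈ M | Convex ℝ C}.ncard = v at *
  generalize Fintype.card ι ^ (d - 1) = n at *
  calc K * (M.ncard + n) ≤ K * ((v + K * n) + n) := by gcongr
    _ ≤ K * ((K + 1) * (v + n)) := by
        apply Nat.mul_le_mul le_rfl
        nlinarith [Nat.zero_le (K * v)]
    _ = K * (K + 1) * (v + n) := by ring

theorem ncv : NcvStatement := Ncv.ncv Cvx.cvx gen Cha.cha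

theorem mainF2 : MainF2Statement :=
  Pool.Agent.Lib.MP_7c3106_co.mainF2 wld (Goo2.goo2 (bmi bpv) Inb.inb) gen Vfi.vfi
    Qct.qct eld2 (fac gen) Dis.dis ncv (Lop.lop Cha.cha)

theorem mainD : MainDStatement :=
  Pool.Agent.Lib.MP_7c3106_co.mainD wld (bmi bpv) bpv gen Vfi.vfi
    Qct.qct eld2 Dis.dis ncv (Lop.lop Cha.cha)

end Pool.Agent.Lib.MP_7c3106_co.Final
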