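import Pool.Agent.Lib.MP_7c3106_co.Defs

/-!
MP_7c3106_co, board CELL: hyperplane arrangements, sign vectors, statements of the modules.
-/

namespace Pool.Agent.Lib.MP_7c3106_co

/-- A family of affine hyperplanes. -/
abbrev Arr (d : ℕ) (κ : Type) := κ → (Fin d → ℝ) × ℝ

variable {d m : ℕ} {κ ι : Type}

def ev (H : Arr d κ) (k : κ) (x : Fin d → ℝ) : ℝ := (H k).1 ⬝ᵥ x - (H k).2

/-- sign vector of a point -/
noncomputable def sg (H : Arr d κ) (x : Fin d → ℝ) : κ → SignType :=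
  fun k => SignType.sign (ev H k x)

/-- `σ ≤ τ`: `τ` agrees with `σ` where `σ` is not zero -/
def Le (σ τ : κ → SignType) : Prop := ∀ k, σ k ≠ 0 → τ k = σ k

/-- the closed face of a sign vector -/
def cl (H : Arr d κ) (σ : κ → SignType) : Set (Fin d → ℝ) := {x | Le (sg H x) σ}

def Vert (H : Arr d κ) (p : Fin d → ℝ) : Prop :=
  ∀ w : Fin d → ℝ, (∀ k, ev H k p = 0 → (H k).1 ⬝ᵥ w = 0) → w = 0

structure Gen (H : Arr d κ) (u : Fin d → ℝ) : Prop where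
  g1 : ∀ S : Set κ, (∃ w, w ≠ 0 ∧ ∀ k ∈ S, (H k).1 ⬝ᵥ w = 0) →
    ∃ w, (∀ k ∈ S, (H k).1 ⬝ᵥ w = 0) ∧ u ⬝ᵥ w ≠ 0
  g2 : ∀ p q, Vert H p → Vert H q → u ⬝ᵥ p = u ⬝ᵥ q → p = q

/-- least value of `u` on the closed face -/
noncomputable def bt (H : Arr d κ) (u : Fin d → ℝ) (σ : κ → SignType) : ℝ :=
  sInf ((fun x => u ⬝ᵥ x) '' cl H σ)

/-- The abstract situation: `C` is (the part in the box `O` of) a cell, `I v` are the patches
through `v`, `ak i` is the index of the hyperplane of the patch `i`, `Bd v` says that `v` is on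
the relative boundary of a patch. -/
structure Wld (d : ℕ) (κ ι : Type) where
  H : Arr d κ
  O : Set (Fin d → ℝ)
  C : Set (Fin d → ℝ)
  I : (Fin d → ℝ) → Finset ι
  ak : ι → κ
  Bd : (Fin d → ℝ) → Prop
  hn : ∀ k, (H k).1 ≠ 0
  convex : Convex ℝ O
  sub : C ⊆ O
  opn : IsOpen C
  conn : IsPreconnected C
  sat : ∀ x ∈ C, ∀ y, sg H y = sg H x → y ∈ C
  bdd : ∀ x ∈ C, Bornology.IsBounded (cl H (sg H x))
  loc : ∀ v, ∃ r > 0, ∀ Y ⊆ Metric.ball v r ∩ O, IsPreconnected Y →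
    (∀ y ∈ Y, ∀ i ∈ I v, ev H (ak i) y ≠ 0) → (Y ∩ C).Nonempty → Y ⊆ C
  nbd : ∀ v, ¬ Bd v → ∀ z ∈ C, v ∈ cl H (sg H z) → ∀ i ∈ I v, sg H z (ak i) ≠ 0
  zer : ∀ v, ∀ i ∈ I v, ev H (ak i) v = 0

/-- nodes: sign vectors of points of `C` -/
def Nd (W : Wld d κ ι) (σ : κ → SignType) : Prop := ∃ x ∈ W.C, sg W.H x = σ

/-- comparable nodes which are born before the time `t` -/
def RelLt (W : Wld d κ ι) (u : Fin d → ℝ) (t : ℝ) (σ τ : κ → SignType) : Prop :=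
  Nd W σ ∧ Nd W τ ∧ (Le σ τ ∨ Le τ σ) ∧ bt W.H u σ < t ∧ bt W.H u τ < t

/-- comparable nodes which are born at the latest at the time `t` -/
def RelLe (W : Wld d κ ι) (u : Fin d → ℝ) (t : ℝ) (σ τ : κ → SignType) : Prop :=
  Nd W σ ∧ Nd W τ ∧ (Le σ τ ∨ Le τ σ) ∧ bt W.H u σ ≤ t ∧ bt W.H u τ ≤ t

def Birth (W : Wld d κ ι) (u p : Fin d → ℝ) : Prop :=
  ¬ W.Bd p ∧ ∃ z ∈ W.C, p ∈ cl W.H (sg W.H z) ∧
    ∀ w, w ≠ 0 → (∀ i ∈ W.I p, 0 ≤ ev W.H (W.ak i) z * ((W.H (W.ak i)).1 ⬝ᵥ w)) → 0 < u ⬝ᵥ w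

/-! ### Statements of the modules, abstract part -/

/-- row CON -/
def ConStatement : Prop :=
  ∀ (d : ℕ) (κ α : Type) [Finite κ] (H : Arr d κ) (Y : Set (Fin d → ℝ)), IsPreconnected Y →
    ∀ f : (κ → SignType) → α,
    (∀ x ∈ Y, ∀ y ∈ Y, Le (sg H x) (sg H y) → f (sg H x) = f (sg H y)) →
    ∀ x ∈ Y, ∀ y ∈ Y, f (sg H x) = f (sg H y)

/-- row MIN -/
def MinStatement : Prop :=
  ∀ (d : ℕ) (κ ι : Type) [Finite κ] (W : Wld d κ ι) (u : Fin d → ℝ), Gen W.H u →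
    (∀ σ, Nd W σ → ∃ p ∈ cl W.H σ, Vert W.H p ∧ u ⬝ᵥ p = bt W.H u σ ∧
      ∀ x ∈ cl W.H σ, u ⬝ᵥ p ≤ u ⬝ᵥ x ∧ (u ⬝ᵥ x = u ⬝ᵥ p → x = p)) ∧
    (∀ σ τ, Nd W σ → Nd W τ → Le σ τ → bt W.H u τ ≤ bt W.H u σ ∧
      (bt W.H u τ = bt W.H u σ → ∀ p ∈ cl W.H τ, u ⬝ᵥ p = bt W.H u τ → p ∈ cl W.H σ)) ∧
    (∀ σ, Nd W σ → ∀ v ∈ cl W.H σ, bt W.H u σ < u ⬝ᵥ v → ∀ r > 0,
      ∃ x ∈ W.C, sg W.H x = σ ∧ x ∈ Metric.ball v r ∧ u ⬝ᵥ x < u ⬝ᵥ v)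

/-- row LOC -/
def LocStatement : Prop :=
  ∀ (d : ℕ) (κ ι : Type) [Finite κ] (W : Wld d κ ι) (u : Fin d → ℝ), Gen W.H u →
    ∀ (v : Fin d → ℝ) (y z : κ → SignType), Nd W y → Nd W z → v ∈ cl W.H y → v ∈ cl W.H z →
    bt W.H u y < u ⬝ᵥ v → bt W.H u z < u ⬝ᵥ v →
    (∀ i ∈ W.I v, y (W.ak i) ≠ 0 ∧ z (W.ak i) = y (W.ak i)) →
    Relation.ReflTransGen (RelLt W u (u ⬝ᵥ v)) y z

/-- row BIR -/
def BirStatement : Prop :=
  ∀ (d : ℕ) (κ ι : Type) [Finite κ] (W : Wld d κ ι) (u : Fin d → ℝ), Gen W.H u →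
    ∀ p, Birth W u p → ∃ σ, Nd W σ ∧ bt W.H u σ = u ⬝ᵥ p ∧ p ∈ cl W.H σ ∧
      ∀ τ, Relation.ReflTransGen (RelLe W u (u ⬝ᵥ p)) σ τ → u ⬝ᵥ p ≤ bt W.H u τ

/-- row CHA: every node is below a chamber -/
def ChaStatement : Prop :=
  ∀ (d : ℕ) (κ ι : Type) [Finite κ] (W : Wld d κ ι) (σ : κ → SignType), Nd W σ →
    ∃ τ, Nd W τ ∧ Le σ τ ∧ ∀ k, τ k ≠ 0

/-- row ELD: the elder rule -/
def EldStatement : Prop :=
  ∀ (d : ℕ) (κ ι : Type) [Finite κ] (W : Wld d κ ι) (u : Fin d → ℝ), Gen W.H u →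
    ∀ B Q : Finset (Fin d → ℝ), (∀ p ∈ B, Birth W u p) →
    (∀ v, Vert W.H v → W.Bd v → v ∈ Q) →
    B.card ≤ 1 + ∑ v ∈ Q, 2 ^ (W.I v).card

/-- row GEN -/
def GenStatement : Prop :=
  ∀ (d : ℕ) (κ : Type) [Finite κ] (H : Arr d κ) (U : Set (Fin d → ℝ)), IsOpen U → U.Nonempty →
    ∃ u ∈ U, Gen H u

/-- row VFI: finitely many vertices -/
def VfiStatement : Prop :=
  ∀ (d : ℕ) (κ : Type) [Finite κ] (H : Arr d κ), {p | Vert H p}.Finite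

/-- row QCT: vertices on a flat of codimension two -/
def QctStatement : Prop :=
  ∀ (d : ℕ) (κ : Type) [Fintype κ] (H : Arr d κ) (k₁ k₂ : κ), 2 ≤ d →
    LinearIndependent ℝ ![(H k₁).1, (H k₂).1] →
    {p | Vert H p ∧ ev H k₁ p = 0 ∧ ev H k₂ p = 0}.Finite ∧
    {p | Vert H p ∧ ev H k₁ p = 0 ∧ ev H k₂ p = 0}.ncard ≤ Fintype.card κ ^ (d - 2)

/-! ### Patches -/

abbrev KK (d m : ℕ) (ι : Type) := ι ⊕ (ι × Fin m) ⊕ (Fin d ⊕ Fin d)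

/-- the hyperplanes of the patches, of their facets and of the box of radius `R` -/
def HH (T : ι → Patch d m) (R : ℝ) : Arr d (KK d m ι) :=
  Sum.elim (fun i => ((T i).a, (T i).b))
    (Sum.elim (fun q => ((T q.1).l q.2, (T q.1).c q.2))
      (Sum.elim (fun j => (Pi.single j 1, R)) (fun j => (Pi.single j 1, -R))))

/-- `v` is on the relative boundary of a patch -/
def Bdv (T : ι → Patch d m) (v : Fin d → ℝ) : Prop :=
  ∃ i j, v ∈ (T i).car ∧ (T i).l j ⬝ᵥ v = (T i).c j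

/-- vertices of the arrangement of the patches -/
def PV (T : ι → Patch d m) (p : Fin d → ℝ) : Prop :=
  ∀ w : Fin d → ℝ, (∀ i, p ∈ (T i).car → (T i).a ⬝ᵥ w = 0 ∧
    ∀ j, (T i).l j ⬝ᵥ p = (T i).c j → (T i).l j ⬝ᵥ w = 0) → w = 0

open Classical in
/-- the patches through `v` -/
noncomputable def Iv [Fintype ι] (T : ι → Patch d m) (v : Fin d → ℝ) : Finset ι :=
  Finset.univ.filter (fun i => v ∈ (T i).car)

/-- row BOX -/
def BoxStatement : Prop :=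
  ∀ (d m : ℕ) (ι : Type) [Finite ι] (T : ι → Patch d m) (R₀ R : ℝ), 0 < R₀ → R₀ < R →
    (∀ i, (T i).car ⊆ Metric.ball 0 R₀) → ∀ x, x ∉ ⋃ i, (T i).car →
    IsPreconnected (cell T x ∩ Metric.ball 0 R)

/-- row WLD: a cell gives a `Wld` -/
def WldStatement : Prop :=
  ∀ (d m : ℕ) (ι : Type) [Fintype ι] (T : ι → Patch d m) (R₀ R : ℝ), 0 < R₀ → R₀ < R →
    (∀ i, (T i).car ⊆ Metric.ball 0 R₀) → ∀ x, x ∉ ⋃ i, (T i).car →
    ∃ W : Wld d (KK d m ι) ι, W.H = HH T R ∧ W.O = Metric.ball 0 R ∧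
      W.C = cell T x ∩ Metric.ball 0 R ∧ W.I = Iv T ∧ W.ak = Sum.inl ∧ W.Bd = Bdv T

/-- row INN: inner vertices are minima of one of `(2k)^d` families of functionals -/
def InnStatement : Prop :=
  ∀ (d m k : ℕ) (ι : Type) [Fintype ι] (T : ι → Patch d m) (dir : Fin k → Fin d → ℝ),
    (∀ i, ∃ j, ∃ t : ℝ, (T i).a = t • dir j) → ∀ (R₀ R : ℝ), 0 < R₀ → R₀ < R →
    (∀ i, (T i).car ⊆ Metric.ball 0 R₀) → ∀ x, x ∉ ⋃ i, (T i).car →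
    ∀ W : Wld d (KK d m ι) ι, W.H = HH T R → W.C = cell T x ∩ Metric.ball 0 R →
      W.I = Iv T → W.ak = Sum.inl → W.Bd = Bdv T →
    ∀ p ∈ closure (cell T x), PV T p → ¬ Bdv T p →
      ∃ (g : Fin d → Fin k) (e : Fin d → Bool), LinearIndependent ℝ (fun s => dir (g s)) ∧
        ∀ lam : Fin d → ℝ, (∀ s, 0 < lam s) →
          Birth W (∑ s, (lam s * (if e s then 1 else -1)) • dir (g s)) p

/-- row FAC: from vertices to faces of all dimensions -/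
def FacStatement : Prop :=
  ∀ (d m c : ℕ) (ι : Type) [Fintype ι] (T : ι → Patch d m),
    (∀ i, Bornology.IsBounded (T i).car) → (∀ y, {i | y ∈ (T i).car}.ncard ≤ c) →
    ∀ x, x ∉ ⋃ i, (T i).car → ∀ S : Finset (Fin d → ℝ),
    (∀ p ∈ closure (cell T x), PV T p → p ∈ S) →
    (bdFaces T (cell T x)).Finite ∧ (bdFaces T (cell T x)).ncard ≤ 3 ^ (c * (m + 1)) * S.card

/-- row BMI: strict local minima of an arbitrary functional on branches of a cell give births of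
a generic functional -/
def BmiStatement : Prop :=
  ∀ (d m : ℕ) (ι : Type) [Fintype ι] (T : ι → Patch d m) (R₀ R : ℝ), 0 < R₀ → R₀ < R →
    (∀ i, (T i).car ⊆ Metric.ball 0 R₀) → ∀ x, x ∉ ⋃ i, (T i).car →
    ∀ W : Wld d (KK d m ι) ι, W.H = HH T R → W.C = cell T x ∩ Metric.ball 0 R →
      W.I = Iv T → W.ak = Sum.inl → W.Bd = Bdv T →
    ∀ (u : Fin d → ℝ) (B : Finset (Fin d → ℝ)),
      (∀ p ∈ B, ¬ Bdv T p ∧ BranchMin (cell T x) u p) →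
      ∃ U : Set (Fin d → ℝ), IsOpen U ∧ u ∈ U ∧ ∀ u' ∈ U, ∀ p ∈ B, Birth W u' p

/-- row BPV: a strict local minimum on a branch is a vertex -/
def BpvStatement : Prop :=
  ∀ (d m : ℕ) (ι : Type) [Fintype ι] (T : ι → Patch d m) (x : Fin d → ℝ),
    x ∉ ⋃ i, (T i).car → ∀ u p, BranchMin (cell T x) u p → PV T p

/-! ### Main statements -/

/-- THEOREM A (`k` directions of hyperplanes): the complexity of a cell is `O(n^(d-1))`. -/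
def MainAStatement : Prop :=
  ∀ d m k c : ℕ, 2 ≤ d → ∃ K : ℕ, ∀ (ι : Type) [Fintype ι] (T : ι → Patch d m)
    (dir : Fin k → Fin d → ℝ), (∀ i, ∃ j, ∃ t : ℝ, (T i).a = t • dir j) →
    (∀ i, Bornology.IsBounded (T i).car) → (∀ y, {i | y ∈ (T i).car}.ncard ≤ c) →
    ∀ x, x ∉ ⋃ i, (T i).car →
    (bdFaces T (cell T x)).Finite ∧
      (bdFaces T (cell T x)).ncard ≤ K * Fintype.card ι ^ (d - 1)

/-- THEOREM B (arbitrary hyperplanes): strict local minima of a linear functional. -/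
def MainBStatement : Prop :=
  ∀ d m c : ℕ, 2 ≤ d → ∃ K : ℕ, ∀ (ι : Type) [Fintype ι] (T : ι → Patch d m),
    (∀ i, Bornology.IsBounded (T i).car) → (∀ y, {i | y ∈ (T i).car}.ncard ≤ c) →
    ∀ x, x ∉ ⋃ i, (T i).car → ∀ u : Fin d → ℝ,
    {p | BranchMin (cell T x) u p}.Finite ∧
      {p | BranchMin (cell T x) u p}.ncard ≤ K * Fintype.card ι ^ (d - 1)

end Pool.Agent.Lib.MP_7c3106_co
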