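import Pool.Agent.Lib.MP_7c3106_co.Iface2

/-!
MP_7c3106_co, board CELL, third part: arbitrary patches, flat corners.
-/

namespace Pool.Agent.Lib.MP_7c3106_co

variable {d m k : ℕ} {κ ι : Type}

/-- `p` is `ε`-transversal: there are `d` patches through `p` such that the determinant of their
normal vectors, scaled to norm one, has absolute value at least `ε` (`‖ ‖` is the maximum
norm). -/
def Tra (T : ι → Patch d m) (ε : ℝ) (p : Fin d → ℝ) : Prop :=
  ∃ g : Fin d → ι, (∀ s, p ∈ (T (g s)).car) ∧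
    ε * ∏ s, ‖(T (g s)).a‖ ≤ |Matrix.det (Matrix.of fun s => (T (g s)).a)|

/-- There are `d` patches through `p` with linearly independent normal vectors, each of them
proportional to one of the vectors `dir j`. -/
def DirV (T : ι → Patch d m) (dir : Fin k → Fin d → ℝ) (p : Fin d → ℝ) : Prop :=
  ∃ g : Fin d → ι, (∀ s, p ∈ (T (g s)).car) ∧ LinearIndependent ℝ (fun s => (T (g s)).a) ∧
    ∀ s, ∃ j, ∃ t : ℝ, (T (g s)).a = t • dir j

/-- The flat corners of the cells in `M`: the pairs (cell, vertex of the arrangement on the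
boundary of the cell) for which the vertex is not on the relative boundary of a patch, is not
`ε`-transversal and is not a vertex of `d` patches with directions in the list `dir`. -/
def flat (T : ι → Patch d m) (dir : Fin k → Fin d → ℝ) (ε : ℝ)
    (M : Set (Set (Fin d → ℝ))) : Set (Set (Fin d → ℝ) × (Fin d → ℝ)) :=
  {q | q.1 ∈ M ∧ q.2 ∈ closure q.1 ∧ PV T q.2 ∧ ¬ Bdv T q.2 ∧ ¬ Tra T ε q.2 ∧
    ¬ DirV T dir q.2}

/-- row TRV: compactness of the set of frames with determinant at least `ε` -/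
def TrvStatement : Prop :=
  ∀ (d : ℕ) (ε : ℝ), 0 < ε → ∃ (N : ℕ) (U : Fin N → Set (Fin d → ℝ)),
    (∀ j, IsOpen (U j) ∧ (U j).Nonempty) ∧
    ∀ A : Fin d → Fin d → ℝ, (∀ s, ‖A s‖ ≤ 1) → ε ≤ |Matrix.det (Matrix.of A)| →
      ∃ j, ∀ u ∈ U j, ∃ lam : Fin d → ℝ, (∀ s, 0 < lam s) ∧ u = ∑ s, lam s • A s

/-- row INB: an inner vertex is a minimum of all functionals of an open cone -/
def InbStatement : Prop :=
  ∀ (d m : ℕ) (ι : Type) [Fintype ι] (T : ι → Patch d m) (R₀ R : ℝ), 1 ≤ d → 0 < R₀ → R₀ < R →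
    (∀ i, (T i).car ⊆ Metric.ball 0 R₀) → ∀ x, x ∉ ⋃ i, (T i).car →
    ∀ W : Wld d (KK d m ι) ι, W.H = HH T R → W.C = cell T x ∩ Metric.ball 0 R →
      W.I = Iv T → W.ak = Sum.inl → W.Bd = Bdv T →
    ∀ p ∈ closure (cell T x), ¬ Bdv T p → ∀ g : Fin d → ι, (∀ s, p ∈ (T (g s)).car) →
      LinearIndependent ℝ (fun s => (T (g s)).a) →
      ∃ e : Fin d → Bool, ∀ lam : Fin d → ℝ, (∀ s, 0 < lam s) →
        Birth W (∑ s, (lam s * (if e s then 1 else -1)) • (T (g s)).a) p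

/-- row GOO: there are finitely many open sets of functionals, depending only on the directions
and on `ε`, for all inner vertices which are not flat -/
def GooStatement : Prop :=
  ∀ (d m k : ℕ) (ε : ℝ), 1 ≤ d → 0 < ε → ∃ N : ℕ, ∀ (dir : Fin k → Fin d → ℝ),
    ∃ U : Fin N → Set (Fin d → ℝ), (∀ j, IsOpen (U j) ∧ (U j).Nonempty) ∧
    ∀ (ι : Type) [Fintype ι] (T : ι → Patch d m) (R₀ R : ℝ), 0 < R₀ → R₀ < R →
    (∀ i, (T i).car ⊆ Metric.ball 0 R₀) → ∀ x, x ∉ ⋃ i, (T i).car →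
    ∀ W : Wld d (KK d m ι) ι, W.H = HH T R → W.C = cell T x ∩ Metric.ball 0 R →
      W.I = Iv T → W.ak = Sum.inl → W.Bd = Bdv T →
    ∀ p ∈ closure (cell T x), ¬ Bdv T p → (Tra T ε p ∨ DirV T dir p) →
      ∃ j, ∀ u ∈ U j, Birth W u p

/-- THEOREM F: the total complexity of any `M` cells is `O(M + n^(d-1) + number of their flat
corners)`, and all but `O(n^(d-1))` cells are convex. -/
def MainFStatement : Prop :=
  ∀ d m k c : ℕ, 2 ≤ d → ∀ ε : ℝ, 0 < ε → ∃ K : ℕ, ∀ (ι : Type) [Fintype ι]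
    (T : ι → Patch d m) (dir : Fin k → Fin d → ℝ),
    (∀ i, Bornology.IsBounded (T i).car) → (∀ y, {i | y ∈ (T i).car}.ncard ≤ c) →
    (∀ M ⊆ cells T, M.Finite → (inc T M).Finite ∧ (flat T dir ε M).Finite ∧
      (inc T M).ncard ≤
        K * (M.ncard + Fintype.card ι ^ (d - 1) + (flat T dir ε M).ncard)) ∧
    {C ∈ cells T | ¬ Convex ℝ C}.Finite ∧
      {C ∈ cells T | ¬ Convex ℝ C}.ncard ≤ K * Fintype.card ι ^ (d - 1)

end Pool.Agent.Lib.MP_7c3106_co
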