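import Pool.Agent.Lib.MP_7c3106_co.Iface3

/-!
MP_7c3106_co, board CELL, fourth part: pointed branches.
-/

namespace Pool.Agent.Lib.MP_7c3106_co

variable {d m k : ℕ} {κ ι : Type}

/-- Some branch of `C` at `p` (component of the intersection of `C` with a ball around `p`, with
`p` in its closure) lies in a cone `{x | ε ‖x - p‖ ≤ u (x - p)}` with `‖u‖ ≤ 1` (`‖ ‖` is the
maximum norm). -/
def Pointed (C : Set (Fin d → ℝ)) (ε : ℝ) (p : Fin d → ℝ) : Prop :=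
  ∃ r > 0, ∃ y ∈ C ∩ Metric.ball p r,
    p ∈ closure (connectedComponentIn (C ∩ Metric.ball p r) y) ∧
    ∃ u : Fin d → ℝ, ‖u‖ ≤ 1 ∧
      ∀ x ∈ closure (connectedComponentIn (C ∩ Metric.ball p r) y), ε * ‖x - p‖ ≤ u ⬝ᵥ (x - p)

/-- The flat corners of the cells in `M`: the pairs (cell, vertex of the arrangement on the
boundary of the cell) for which the vertex is not on the relative boundary of a patch, no branch
of the cell at the vertex is `ε`-pointed, and the vertex is not a vertex of `d` patches with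
directions in the list `dir`. -/
def flatC (T : ι → Patch d m) (dir : Fin k → Fin d → ℝ) (ε : ℝ)
    (M : Set (Set (Fin d → ℝ))) : Set (Set (Fin d → ℝ) × (Fin d → ℝ)) :=
  {q | q.1 ∈ M ∧ q.2 ∈ closure q.1 ∧ PV T q.2 ∧ ¬ Bdv T q.2 ∧ ¬ Pointed q.1 ε q.2 ∧
    ¬ DirV T dir q.2}

/-- row GOO2 -/
def Goo2Statement : Prop :=
  ∀ (d m k : ℕ) (ε : ℝ), 1 ≤ d → 0 < ε → ∃ N : ℕ, ∀ (dir : Fin k → Fin d → ℝ),
    ∃ U : Fin N → Set (Fin d → ℝ), (∀ j, IsOpen (U j) ∧ (U j).Nonempty) ∧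
    ∀ (ι : Type) [Fintype ι] (T : ι → Patch d m) (R₀ R : ℝ), 0 < R₀ → R₀ < R →
    (∀ i, (T i).car ⊆ Metric.ball 0 R₀) → ∀ x, x ∉ ⋃ i, (T i).car →
    ∀ W : Wld d (KK d m ι) ι, W.H = HH T R → W.C = cell T x ∩ Metric.ball 0 R →
      W.I = Iv T → W.ak = Sum.inl → W.Bd = Bdv T →
    ∀ p ∈ closure (cell T x), ¬ Bdv T p → (Pointed (cell T x) ε p ∨ DirV T dir p) →
      ∃ j, ∀ u ∈ U j, Birth W u p

/-- THEOREM F: the total complexity of any `M` cells is `O(M + n^(d-1) + number of their flat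
corners)`, and all but `O(n^(d-1))` cells are convex. -/
def MainF2Statement : Prop :=
  ∀ d m k c : ℕ, 2 ≤ d → ∀ ε : ℝ, 0 < ε → ∃ K : ℕ, ∀ (ι : Type) [Fintype ι]
    (T : ι → Patch d m) (dir : Fin k → Fin d → ℝ),
    (∀ i, Bornology.IsBounded (T i).car) → (∀ y, {i | y ∈ (T i).car}.ncard ≤ c) →
    (∀ M ⊆ cells T, M.Finite → (inc T M).Finite ∧ (flatC T dir ε M).Finite ∧
      (inc T M).ncard ≤
        K * (M.ncard + Fintype.card ι ^ (d - 1) + (flatC T dir ε M).ncard)) ∧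
    {C ∈ cells T | ¬ Convex ℝ C}.Finite ∧
      {C ∈ cells T | ¬ Convex ℝ C}.ncard ≤ K * Fintype.card ι ^ (d - 1)

end Pool.Agent.Lib.MP_7c3106_co
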